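import Pool.Agent.L0h41.GN.A
import Pool.Agent.L0h41.QN.H

set_option autoImplicit false

/-!
# The Brun-Hooley weights between two powers of `X`
-/

namespace Pool.Agent.L0h41.GN

open Finset Filter
open Pool.Agent.W123.RP Pool.Agent.H373R2.T7 Pool.Agent.W123.RU Pool.Agent.TH464.PO Pool.Agent.TH464.PW
open Pool.Agent.Y879.AP
open Pool.Agent.R490.P3c (lam)
open Pool.Agent.L0h41.LW Pool.Agent.L0h41.QN
open Pool.Agent.Y882 (VV prod_ind)
open Pool.Agent.R490.LGa (one_sub_pos one_le_inv')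
open Pool.Agent.R490.GPg (Pw mem_Pw)
open Pool.Agent.Helper112.LP.Kbh (bh_inv_ge)

lemma Vz_split (y z : ℕ) (hyz : y ≤ z) : Vz z = Vz y * ∏ p ∈ Pw y z, (1 - 1 / (p : ℝ)) := by
  classical
  unfold Vz
  have h1 : pz z = pz y ∪ Pw y z := by
    ext p
    rw [mem_union, mem_pz, mem_pz, mem_Pw]
    constructor
    · rintro ⟨h1, h2⟩
      by_cases h : p ≤ y
      · exact Or.inl ⟨h, h2⟩
      · exact Or.inr ⟨by omega, h1, h2⟩
    · rintro (h | h)
      · exact ⟨by omega, h.2⟩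
      · exact ⟨h.2.1, h.2.2⟩
  have hd : Disjoint (pz y) (Pw y z) := by
    rw [disjoint_left]
    intro p hp hp'
    have a1 := (mem_pz.1 hp).1
    have a2 := (mem_Pw.1 hp').1
    omega
  rw [h1, prod_union hd]

lemma VV_wt (F : ℕ → ℕ) (P : Finset ℕ) (c : Finset ℕ → ℝ) : VV P c (gp F) = ∑ U ∈ P.powerset, c U * wt F U := by
  unfold VV
  apply sum_congr rfl
  intro U _
  rw [wt_eq]

lemma VV_lam (P : Finset ℕ) (hP : ∀ p ∈ P, p.Prime) (c : Finset ℕ → ℝ) (N : ℕ) :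
    VV P c (fun p => if p ∣ N then 1 else 0) = lam P c N := by
  classical
  unfold VV lam
  apply sum_congr rfl
  intro U hU
  rw [mem_powerset] at hU
  congr 1
  rw [prod_ind]
  have h1 := (dvd_iff U (fun p hp => hP p (hU hp)) N).symm
  by_cases h2 : ∀ p ∈ U, p ∣ N
  · rw [if_pos h2, if_pos (h1.1 h2)]
  · rw [if_neg h2, if_neg (fun h => h2 (h1.2 h))]

lemma Pi1_prod (F : ℕ → ℕ) (P : Finset ℕ) : Pi1 F P = ∏ p ∈ P, (1 + gp F p) := by
  classical
  unfold Pi1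
  rw [prod_one_add]
  apply sum_congr rfl
  intro U _
  rw [wt_eq]

/-- the bounds for the products -/
lemma prods (c : ℕ) (hc : 1 ≤ c) (y z : ℕ) (hyz : y ≤ z) (hy : 2 * c + 2 ≤ y) (Q : ℝ) (hQ : 1 ≤ Q)
    (hV : 1 / Q * Vz y ≤ Vz z) (F : ℕ → ℕ) (hF : PerB (DQ F) c) :
    (1 / Q) ^ (2 * c) ≤ ∏ p ∈ Pw y z, (1 - gp F p) ∧ Pi1 F (Pw y z) ≤ Q ^ c := by
  have hVy : 0 < Vz y := by
    unfold Vz
    exact prod_pos fun p hp => (one_sub_pos (mem_pz.1 hp).2).1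
  have hP : 1 / Q ≤ ∏ p ∈ Pw y z, (1 - 1 / (p : ℝ)) := by
    rw [Vz_split y z hyz, mul_comm] at hV
    exact le_of_mul_le_mul_left hV hVy
  have hP0 : 0 < ∏ p ∈ Pw y z, (1 - 1 / (p : ℝ)) := prod_pos fun p hp => (one_sub_pos (mem_Pw.1 hp).2.2).1
  have hQ0 : 0 < Q := by linarith
  have hg : ∀ p ∈ Pw y z, gp F p ≤ c * (1 / (p : ℝ)) ∧ (c : ℝ) * (1 / (p : ℝ)) ≤ 1 / 2 := by
    intro p hp
    have h1 := mem_Pw.1 hp
    have hp0 : (0 : ℝ) < p := by exact_mod_cast h1.2.2.pos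
    constructor
    · unfold gp
      rw [mul_one_div]
      exact div_le_div_of_nonneg_right (by exact_mod_cast hF.few p h1.2.2) hp0.le
    · rw [mul_one_div, div_le_div_iff₀ hp0 (by norm_num)]
      have : 2 * c ≤ p := by omega
      have h2 : ((2 * c : ℕ) : ℝ) ≤ p := by exact_mod_cast this
      push_cast at h2
      linarith
  constructor
  · calc (1 / Q) ^ (2 * c) ≤ (∏ p ∈ Pw y z, (1 - 1 / (p : ℝ))) ^ (2 * c) :=
          pow_le_pow_left₀ (by positivity) hP _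
      _ = ∏ p ∈ Pw y z, (1 - 1 / (p : ℝ)) ^ (2 * c) := (prod_pow _ _ _).symm
      _ ≤ ∏ p ∈ Pw y z, (1 - gp F p) := by
          apply Finset.prod_le_prod
          · intro p hp
            have := (one_sub_pos (mem_Pw.1 hp).2.2).1
            positivity
          · intro p hp
            obtain ⟨g1, g2⟩ := hg p hp
            have h0 := (one_sub_pos (mem_Pw.1 hp).2.2).1
            have h3 : (1 - 1 / (p : ℝ)) ^ (2 * c) ≤ Real.exp (-(2 * (c * (1 / (p : ℝ))))) := by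
              have h4 : 1 - 1 / (p : ℝ) ≤ Real.exp (-(1 / (p : ℝ))) := by
                have := Real.add_one_le_exp (-(1 / (p : ℝ)))
                linarith
              calc (1 - 1 / (p : ℝ)) ^ (2 * c) ≤ Real.exp (-(1 / (p : ℝ))) ^ (2 * c) :=
                    pow_le_pow_left₀ h0.le h4 _
                _ = _ := by
                    rw [← Real.exp_nat_mul]
                    congr 1
                    push_cast
                    ring
            have hp0 : (0 : ℝ) < p := by exact_mod_cast (mem_Pw.1 hp).2.2.pos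
            have h5 := bh_inv_ge (show (0 : ℝ) ≤ c * (1 / (p : ℝ)) by positivity) g2
            linarith
  · rw [Pi1_prod]
    calc ∏ p ∈ Pw y z, (1 + gp F p) ≤ ∏ p ∈ Pw y z, ((1 - 1 / (p : ℝ))⁻¹) ^ c := by
          apply Finset.prod_le_prod
          · intro p _
            have := gp_nonneg F p
            linarith
          · intro p hp
            obtain ⟨g1, g2⟩ := hg p hp
            have hp0 : (0 : ℝ) < p := by exact_mod_cast (mem_Pw.1 hp).2.2.pos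
            have h0 := (one_sub_pos (mem_Pw.1 hp).2.2).1
            have h1 : 1 + (c : ℝ) * (1 / (p : ℝ)) ≤ (1 + 1 / (p : ℝ)) ^ c :=
              one_add_mul_le_pow (by
                have : (0 : ℝ) ≤ 1 / (p : ℝ) := by positivity
                linarith) c
            have h2 : 1 + 1 / (p : ℝ) ≤ (1 - 1 / (p : ℝ))⁻¹ := by
              rw [le_inv_comm₀ (by positivity) h0, inv_eq_one_div, le_div_iff₀ (by positivity)]
              have : (1 - 1 / (p : ℝ)) * (1 + 1 / (p : ℝ)) = 1 - (1 / (p : ℝ)) ^ 2 := by ring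
              rw [this]
              have := sq_nonneg (1 / (p : ℝ))
              linarith
            calc 1 + gp F p ≤ 1 + (c : ℝ) * (1 / (p : ℝ)) := by linarith
              _ ≤ (1 + 1 / (p : ℝ)) ^ c := h1
              _ ≤ _ := pow_le_pow_left₀ (by positivity) h2 c
      _ = ((∏ p ∈ Pw y z, (1 - 1 / (p : ℝ)))⁻¹) ^ c := by rw [prod_pow, prod_inv_distrib]
      _ ≤ Q ^ c := by
          apply pow_le_pow_left₀ (inv_nonneg.2 hP0.le)
          rw [inv_le_comm₀ hP0 hQ0, ← one_div]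
          exact hP

/-- the exponent `z` -/
lemma exists_J (x : ℝ) (hx : 2 < x) : ∃ J : ℕ, x ≤ ((2 ^ 2 ^ J : ℕ) : ℝ) ∧ ((2 ^ 2 ^ J : ℕ) : ℝ) ≤ x ^ 2 := by
  classical
  have hex : ∃ J : ℕ, x ≤ ((2 ^ 2 ^ J : ℕ) : ℝ) := by
    obtain ⟨n, hn⟩ := exists_nat_ge x
    refine ⟨n, hn.trans ?_⟩
    have h1 : n < 2 ^ n := Nat.lt_two_pow_self
    have h2 : n < 2 ^ 2 ^ n := h1.trans (Nat.lt_two_pow_self)
    exact_mod_cast h2.le
  refine ⟨Nat.find hex, Nat.find_spec hex, ?_⟩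
  have h0 : Nat.find hex ≠ 0 := by
    intro h
    have h1 := Nat.find_spec hex
    rw [h] at h1
    norm_num at h1
    linarith
  have h1 := Nat.find_min hex (show Nat.find hex - 1 < Nat.find hex by omega)
  rw [not_le] at h1
  have h2 : 2 ^ 2 ^ Nat.find hex = (2 ^ 2 ^ (Nat.find hex - 1)) ^ 2 := by
    rw [← pow_mul, ← pow_succ]
    congr 2
    omega
  rw [h2]
  push_cast at h1 ⊢
  exact pow_le_pow_left₀ (by positivity) h1.le 2

open Classical in
/-- **the weights** -/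
theorem weightsB (c : ℕ) (hc : 1 ≤ c) : ∃ (E : ℕ) (C1 : ℝ), 1 ≤ E ∧ 1 ≤ C1 ∧ ∀ (r : ℕ) (δ : ℝ), 2 ≤ r → 0 < δ →
    δ ≤ 1 / 4 → 1 / (r : ℝ) ≤ δ → ∀ᶠ X : ℕ in atTop, ∃ z : ℕ, (X : ℝ) ^ δ ≤ z ∧ (z : ℝ) ≤ (X : ℝ) ^ (2 * δ) ∧
      ∃ cL : Finset ℕ → ℝ, (∀ T, |cL T| ≤ r + 1) ∧
        (∀ T ⊆ Pw ⌊(X : ℝ) ^ (1 / (r : ℝ))⌋₊ z, cL T ≠ 0 → ((∏ p ∈ T, p : ℕ) : ℝ) ≤ (X : ℝ) ^ (2 * δ * E)) ∧
        (∀ N : ℕ, lam (Pw ⌊(X : ℝ) ^ (1 / (r : ℝ))⌋₊ z) cL N ≤
          if ∀ p ∈ Pw ⌊(X : ℝ) ^ (1 / (r : ℝ))⌋₊ z, ¬ p ∣ N then 1 else 0) ∧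
        (∀ F : ℕ → ℕ, PerB (DQ F) c → 1 / 2 * (1 / (C1 * r)) ^ (2 * c) ≤
            ∑ U ∈ (Pw ⌊(X : ℝ) ^ (1 / (r : ℝ))⌋₊ z).powerset, cL U * wt F U ∧
          Pi1 F (Pw ⌊(X : ℝ) ^ (1 / (r : ℝ))⌋₊ z) ≤ (C1 * r) ^ c) := by
  obtain ⟨C, hC, HF⟩ := flwB
  obtain ⟨cz, Cz, hcz, hCz, hV⟩ := Vz_bounds
  obtain ⟨b, hb⟩ : ∃ b, b = C * (c + 1) := ⟨_, rfl⟩
  have hb1 : 1 ≤ b := by rw [hb]; exact Nat.mul_pos (by omega) (by omega)
  refine ⟨C * b, max 1 (2 * Cz / cz), Nat.mul_pos (by omega) hb1, le_max_left _ _, ?_⟩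
  intro r δ hr hδ hδ4 hrδ
  obtain ⟨C1, hC1⟩ : ∃ C1, C1 = max 1 (2 * Cz / cz) := ⟨_, rfl⟩
  rw [← hC1]
  have hC11 : 1 ≤ C1 := by rw [hC1]; exact le_max_left _ _
  have hC12 : 2 * Cz / cz ≤ C1 := by rw [hC1]; exact le_max_right _ _
  have hr0 : (0 : ℝ) < r := by exact_mod_cast (by omega : 0 < r)
  have hr1 : (1 : ℝ) ≤ r := by exact_mod_cast (by omega : 1 ≤ r)
  have ev1 : ∀ᶠ X : ℕ in atTop, (2 : ℝ) < (X : ℝ) ^ δ :=
    ((tendsto_rpow_atTop hδ).comp tendsto_natCast_atTop_atTop).eventually_gt_atTop 2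
  filter_upwards [ev1, Pool.Agent.R490.Mean.y_ge r hr (b + 2 * c + 4), Pool.Agent.Y879.GL.level_ok r hr,
    eventually_ge_atTop 2] with X h1 h2 h3 h4
  obtain ⟨-, g2, -, -, -⟩ := h3
  obtain ⟨y, hy⟩ : ∃ y, y = ⌊(X : ℝ) ^ (1 / (r : ℝ))⌋₊ := ⟨_, rfl⟩
  rw [← hy] at h2 g2 ⊢
  have hX0 : (0 : ℝ) < X := by exact_mod_cast (by omega : 0 < X)
  have hX1 : (1 : ℝ) ≤ X := by exact_mod_cast (by omega : 1 ≤ X)
  obtain ⟨J, hJ1, hJ2⟩ := exists_J _ h1
  have hz2 : ((2 ^ 2 ^ J : ℕ) : ℝ) ≤ (X : ℝ) ^ (2 * δ) := by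
    refine hJ2.trans (le_of_eq ?_)
    rw [← Real.rpow_natCast, ← Real.rpow_mul hX0.le]
    congr 1
    push_cast
    ring
  obtain ⟨z, hz⟩ : ∃ z, z = 2 ^ 2 ^ J := ⟨_, rfl⟩
  have hyX : (y : ℝ) ≤ (X : ℝ) ^ (1 / (r : ℝ)) := by rw [hy]; exact Nat.floor_le (by positivity)
  have hyz : y ≤ z := by
    have : (y : ℝ) ≤ z := by
      rw [hz]
      refine hyX.trans (le_trans ?_ hJ1)
      exact Real.rpow_le_rpow_of_exponent_le hX1 hrδ
    exact_mod_cast this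
  have hzX : (z : ℝ) ≤ X := by
    rw [hz]
    refine hz2.trans ?_
    calc (X : ℝ) ^ (2 * δ) ≤ (X : ℝ) ^ (1 : ℝ) := Real.rpow_le_rpow_of_exponent_le hX1 (by linarith)
      _ = X := Real.rpow_one _
  -- the empty groups
  have hA : ∀ i : ℕ, i + r < J → ∀ p ∈ Pw y z, p ∉ Pool.Agent.Helper112.LP.Gj (i + 1) := by
    intro i hi p hp hG
    unfold Pool.Agent.Helper112.LP.Gj at hG
    rw [mem_filter, mem_Ico] at hG
    have a1 : p < 2 ^ 2 ^ (J - r) := lt_of_lt_of_le hG.1.2 (Nat.pow_le_pow_right (by norm_num)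
      (Nat.pow_le_pow_right (by norm_num) (by omega)))
    have a2 : ((2 ^ 2 ^ (J - r) : ℕ) : ℝ) ^ r ≤ X := by
      have a3 : (2 ^ 2 ^ (J - r)) ^ r ≤ z := by
        rw [hz, ← pow_mul]
        apply Nat.pow_le_pow_right (by norm_num)
        have a4 : r ≤ 2 ^ r := Nat.lt_two_pow_self.le
        calc 2 ^ (J - r) * r ≤ 2 ^ (J - r) * 2 ^ r := Nat.mul_le_mul_left _ a4
          _ = 2 ^ J := by rw [← pow_add]; congr 1; omega
      have a5 : (((2 ^ 2 ^ (J - r)) ^ r : ℕ) : ℝ) ≤ z := by exact_mod_cast a3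
      rw [Nat.cast_pow] at a5
      exact a5.trans hzX
    have a6 : 2 ^ 2 ^ (J - r) ≤ y := by
      rw [hy]
      apply Nat.le_floor
      rw [← Real.rpow_le_rpow_iff (z := (r : ℝ)) (by positivity) (by positivity) hr0, ← Real.rpow_mul hX0.le,
        one_div_mul_cancel hr0.ne', Real.rpow_one, Real.rpow_natCast]
      exact a2
    have a7 := (mem_Pw.1 hp).1
    omega
  obtain ⟨cU, cL, w1, w2, w3, w4⟩ := HF c b J b r (Pw y z) hA (by omega) (by omega) (by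
    intro p hp
    have a1 := mem_Pw.1 hp
    exact ⟨a1.2.2, by omega, by rw [← hz]; exact a1.2.1⟩)
  rw [← hz] at w2
  refine ⟨z, by rw [hz]; exact hJ1, by rw [hz]; exact hz2, cL, fun T => (w1 T).2, ?_, ?_, ?_⟩
  · intro T hT hne
    have a1 := w2 T hT (Or.inr hne)
    have a2 : ((∏ p ∈ T, p : ℕ) : ℝ) ≤ (z : ℝ) ^ (C * b) := by exact_mod_cast a1
    refine a2.trans ?_
    rw [hz]
    calc ((2 ^ 2 ^ J : ℕ) : ℝ) ^ (C * b) ≤ ((X : ℝ) ^ (2 * δ)) ^ (C * b) :=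
          pow_le_pow_left₀ (Nat.cast_nonneg _) hz2 _
      _ = _ := by
          rw [← Real.rpow_natCast, ← Real.rpow_mul hX0.le]
  · intro N
    rw [← VV_lam _ (fun p hp => (mem_Pw.1 hp).2.2)]
    exact (w3 N).1
  · intro F hF
    have hlogy : 0 < Real.log y := Real.log_pos (by exact_mod_cast (by omega : 1 < y))
    have hlogz : 0 < Real.log z := Real.log_pos (by exact_mod_cast (by omega : 1 < z))
    have hQ : 1 ≤ C1 * r := by nlinarith
    have hVyz : 1 / (C1 * r) * Vz y ≤ Vz z := by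
      have a1 := (hV y (by omega)).2
      have a2 := (hV z (by omega)).1
      refine le_trans ?_ a2
      have a3 : Real.log z ≤ Real.log y * (2 * r) := by
        have a4 : Real.log z ≤ Real.log X := Real.log_le_log (by exact_mod_cast (by omega : 0 < z)) hzX
        rw [div_le_iff₀ (by positivity)] at g2
        linarith
      have a5 : 2 * Cz ≤ C1 * cz := by
        rw [div_le_iff₀ hcz] at hC12
        exact hC12
      calc 1 / (C1 * r) * Vz y ≤ 1 / (C1 * r) * (Cz / Real.log y) :=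
            mul_le_mul_of_nonneg_left a1 (by positivity)
        _ = Cz / (C1 * (r * Real.log y)) := by
            field_simp
        _ ≤ cz / Real.log z := by
            rw [div_le_div_iff₀ (by positivity) hlogz]
            calc Cz * Real.log z ≤ Cz * (Real.log y * (2 * r)) := mul_le_mul_of_nonneg_left a3 hCz.le
              _ = (2 * Cz) * (r * Real.log y) := by ring
              _ ≤ (C1 * cz) * (r * Real.log y) := mul_le_mul_of_nonneg_right a5 (by positivity)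
              _ = _ := by ring
    obtain ⟨q1, q2⟩ := prods c hc y z hyz (by omega) (C1 * r) hQ hVyz F hF
    refine ⟨?_, q2⟩
    have a1 := (w4 (gp F) (by
      intro p hp
      refine ⟨gp_nonneg F p, ?_⟩
      have a2 := mem_Pw.1 hp
      have hp1 : (1 : ℝ) < p := by exact_mod_cast a2.2.2.one_lt
      unfold gp
      have a3 : (nuB (DQ F) p : ℝ) ≤ c := by exact_mod_cast hF.few p a2.2.2
      calc (nuB (DQ F) p : ℝ) / p ≤ c / p := div_le_div_of_nonneg_right a3 (by linarith)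
        _ ≤ c / ((p : ℝ) - 1) := div_le_div_of_nonneg_left (Nat.cast_nonneg _) (by linarith) (by linarith))).1
    rw [VV_wt] at a1
    refine le_trans ?_ a1
    have a2 : (1 / 2 : ℝ) ^ b ≤ 1 / 2 := by
      calc (1 / 2 : ℝ) ^ b ≤ (1 / 2) ^ 1 := pow_le_pow_of_le_one (by norm_num) (by norm_num) hb1
        _ = _ := by norm_num
    have a3 : 0 ≤ ∏ p ∈ Pw y z, (1 - gp F p) := le_trans (by positivity) q1
    calc 1 / 2 * (1 / (C1 * r)) ^ (2 * c) ≤ 1 / 2 * ∏ p ∈ Pw y z, (1 - gp F p) :=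
          mul_le_mul_of_nonneg_left q1 (by norm_num)
      _ ≤ (1 - (1 / 2) ^ b) * ∏ p ∈ Pw y z, (1 - gp F p) := mul_le_mul_of_nonneg_right (by linarith) a3

end Pool.Agent.L0h41.GN
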