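import Pool.Agent.L0h41.GN.B

set_option autoImplicit false

/-!
# Sieving families of sequences of any dimension: one scale
-/

namespace Pool.Agent.L0h41.GN

open Finset Filter
open Pool.Agent.W123.RP Pool.Agent.H373R2.T7 Pool.Agent.W123.RU Pool.Agent.TH464.PO Pool.Agent.TH464.PW
open Pool.Agent.Y879.AP
open Pool.Agent.R490.P3c (lam)
open Pool.Agent.R490.P3g (cheb)
open Pool.Agent.R490.P3h (sqrt_xx)
open Pool.Agent.R490.Mean (y_ge)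
open Pool.Agent.L0h41.LW Pool.Agent.L0h41.QN
open Pool.Agent.R490.LGa (one_sub_pos one_le_inv')
open Pool.Agent.R490.GPg (Pw mem_Pw)

open Classical in
/-- the members with a value without small prime factors -/
noncomputable def GoodR (F : ℕ → ℕ → ℕ) (J : Finset ℕ) (v : ℝ) (n : ℕ) : Finset ℕ :=
  J.filter (fun j => ∀ p : ℕ, p.Prime → p ∣ F j n → v ≤ p)

/-- the centred weights -/
lemma centred (F : ℕ → ℕ) (P : Finset ℕ) (cL : Finset ℕ → ℝ) :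
    ∑ U ∈ P.powerset, (cL U - if U = ∅ then (∑ V ∈ P.powerset, cL V * wt F V) else 0) * wt F U = 0 := by
  classical
  have h1 : ∀ U ∈ P.powerset, (cL U - if U = ∅ then (∑ V ∈ P.powerset, cL V * wt F V) else 0) * wt F U =
      cL U * wt F U - (if U = ∅ then (∑ V ∈ P.powerset, cL V * wt F V) else 0) := by
    intro U _
    by_cases h : U = ∅
    · rw [if_pos h, h, wt_empty]
      ring
    · rw [if_neg h]
      ring
  rw [sum_congr rfl h1, sum_sub_distrib, sum_ite_eq' , if_pos (empty_mem_powerset _), sub_self]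

lemma lam_centred (P : Finset ℕ) (cL : Finset ℕ → ℝ) (M : ℝ) (N : ℕ) :
    lam P (fun U => cL U - if U = ∅ then M else 0) N = lam P cL N - M := by
  classical
  unfold lam
  have h1 : ∀ U ∈ P.powerset, (cL U - if U = ∅ then M else 0) * (if ∏ p ∈ U, p ∣ N then (1 : ℝ) else 0) =
      cL U * (if ∏ p ∈ U, p ∣ N then 1 else 0) - (if U = ∅ then M else 0) := by
    intro U _
    by_cases h : U = ∅
    · rw [if_pos h, h, prod_empty, if_pos (one_dvd _)]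
      ring
    · rw [if_neg h]
      ring
  rw [sum_congr rfl h1, sum_sub_distrib, sum_ite_eq', if_pos (empty_mem_powerset _)]

lemma one_add_sum (P : Finset ℕ) (g : ℕ → ℝ) (hg : ∀ p ∈ P, 0 ≤ g p) : 1 + ∑ p ∈ P, g p ≤ ∏ p ∈ P, (1 + g p) := by
  classical
  induction P using Finset.induction_on with
  | empty => simp
  | insert a s ha ih =>
    rw [sum_insert ha, prod_insert ha]
    have h1 := ih (fun p hp => hg p (mem_insert_of_mem hp))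
    have h2 := hg a (mem_insert_self a s)
    have h3 : 0 ≤ ∑ p ∈ s, g p := sum_nonneg fun p hp => hg p (mem_insert_of_mem hp)
    have h4 := mul_le_mul_of_nonneg_left h1 (show 0 ≤ 1 + g a by linarith)
    nlinarith [mul_nonneg h2 h3]

open Classical in
/-- the exceptional set -/
lemma bad_sub (F : ℕ → ℕ → ℕ) (α : ℕ → ℝ) (J : Finset ℕ) (hα : ∀ j ∈ J, 0 ≤ α j) (y z : ℕ) (v : ℝ) (hv : v ≤ z)
    (cL : Finset ℕ → ℝ) (hc : ∀ N : ℕ, lam (Pw y z) cL N ≤ if ∀ p ∈ Pw y z, ¬ p ∣ N then 1 else 0)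
    (κ : ℝ) (hκ : 0 < κ) (x : ℝ) (hx : 0 < x)
    (hlow : ∀ j ∈ J, κ ≤ ∑ U ∈ (Pw y z).powerset, cL U * wt (F j) U) (n : ℕ)
    (hbad : ∑ j ∈ GoodR F J v n, α j < κ / 4 * x) :
    (x / 2) ^ 2 ≤ (WG F α J y n - x) ^ 2 ∨
    (κ * x / 4) ^ 2 ≤ XG F α J (Pw y z) (fun j U => cL U - if U = ∅ then
      (∑ V ∈ (Pw y z).powerset, cL V * wt (F j) V) else 0) y n ^ 2 := by
  by_contra hcon
  push Not at hcon
  obtain ⟨h1, h2⟩ := hcon
  have h3 : x / 2 < WG F α J y n := by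
    have := abs_lt_of_sq_lt_sq h1 (by positivity)
    have := (abs_lt.1 this).1
    linarith
  have h4 : -(κ * x / 4) < XG F α J (Pw y z) (fun j U => cL U - if U = ∅ then
      (∑ V ∈ (Pw y z).powerset, cL V * wt (F j) V) else 0) y n :=
    (abs_lt.1 (abs_lt_of_sq_lt_sq h2 (by positivity))).1
  have h5 : XG F α J (Pw y z) (fun j U => cL U - if U = ∅ then
      (∑ V ∈ (Pw y z).powerset, cL V * wt (F j) V) else 0) y n ≤ ∑ j ∈ GoodR F J v n, α j - κ * WG F α J y n := by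
    unfold XG WG
    rw [mul_sum]
    have e1 : ∑ j ∈ GoodR F J v n, α j = ∑ j ∈ J, (if (∀ p : ℕ, p.Prime → p ∣ F j n → v ≤ p) then α j else 0) := by
      unfold GoodR
      rw [sum_filter]
    rw [e1, ← sum_sub_distrib]
    apply sum_le_sum
    intro j hj
    have a0 := hα j hj
    unfold xG
    rw [lam_centred]
    unfold rh
    by_cases hS : Sf (DQ (F j)) y n
    · rw [if_pos hS, one_mul, mul_one]
      have a1 := hc (F j n)
      have a2 := hlow j hj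
      have a3 : (if ∀ p ∈ Pw y z, ¬ p ∣ F j n then (1 : ℝ) else 0) ≤
          if (∀ p : ℕ, p.Prime → p ∣ F j n → v ≤ p) then 1 else 0 := by
        by_cases hA : ∀ p ∈ Pw y z, ¬ p ∣ F j n
        · rw [if_pos hA, if_pos]
          intro p hp hd
          have hp1 : y < p := by
            by_contra hle
            exact hS p (mem_pz.2 ⟨by omega, hp⟩) hd
          have hp2 : z < p := by
            by_contra hle
            exact hA p (mem_Pw.2 ⟨hp1, by omega, hp⟩) hd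
          refine hv.trans ?_
          exact_mod_cast hp2.le
        · rw [if_neg hA]
          split_ifs <;> norm_num
      have a4 : (if (∀ p : ℕ, p.Prime → p ∣ F j n → v ≤ p) then α j else 0) =
          α j * (if (∀ p : ℕ, p.Prime → p ∣ F j n → v ≤ p) then 1 else 0) := by
        split_ifs <;> ring
      rw [a4]
      have a5 : lam (Pw y z) cL (F j n) - ∑ V ∈ (Pw y z).powerset, cL V * wt (F j) V ≤
          (if (∀ p : ℕ, p.Prime → p ∣ F j n → v ≤ p) then 1 else 0) - κ := by linarith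
      have a6 := mul_le_mul_of_nonneg_left a5 a0
      linarith
    · rw [if_neg hS, zero_mul, mul_zero, mul_zero, sub_zero]
      split_ifs
      · exact a0
      · exact le_rfl
  nlinarith

set_option maxHeartbeats 1000000 in
open Classical in
/-- one scale -/
theorem oneB (F : ℕ → ℕ → ℕ) (α : ℕ → ℝ) (J : Finset ℕ) (bad : ℕ → ℕ → Prop) (c d X y z m Z L R0 D : ℕ)
    (hF : FamG F α J bad c d y) (hc1 : 1 ≤ c) (θ v κ ε η σ x B Q s : ℝ) (hX : 1 ≤ X) (hθ : 0 < θ) (hε : 0 < ε)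
    (hη1 : η ≤ 1) (hηε : 20 * η ≤ ε / 10)
    (hXL : (X : ℝ) ^ θ ≤ L) (hv : v ≤ z) (hy1 : 1 ≤ y) (hQ : 1 ≤ Q) (hκ : κ = 1 / 2 * (1 / Q) ^ (2 * c))
    (cL : Finset ℕ → ℝ) (hcA : ∀ T, |cL T| ≤ 2 * Q)
    (hcD : ∀ T ⊆ Pw y z, cL T ≠ 0 → ∏ p ∈ T, p ≤ D) (hD1 : 1 ≤ D)
    (hc : ∀ N : ℕ, lam (Pw y z) cL N ≤ if ∀ p ∈ Pw y z, ¬ p ∣ N then 1 else 0)
    (hlow : ∀ j ∈ J, κ ≤ ∑ U ∈ (Pw y z).powerset, cL U * wt (F j) U)
    (hPi : ∀ j ∈ J, Pi1 (F j) (Pw y z) ≤ Q ^ c)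
    (hx0 : 0 < x) (hxd : x = V1G F α J y) (hαB : ∑ j ∈ J, α j ≤ B * x)
    (hV2 : V2G F α J bad y ≤ (1 + η) * x ^ 2) (hS2 : S2G F α J y ≤ σ * x ^ 2)
    (hσ1 : 8 * d * σ ≤ ε / 10) (hσ2 : 32 * ((4 * Q ^ (c + 1) * 2 ^ R0) ^ 2 * d * σ) ≤ κ ^ 2 * (ε / 10))
    (hhalf : (1 / 2 : ℝ) ^ m ≤ η) (hs0 : 0 ≤ s) (hs : s ≤ (X : ℝ) ^ (θ / 8))
    (hDθ : (D : ℝ) ≤ (X : ℝ) ^ (θ / 8))
    (Hcnt : ∀ j ∈ J, ∀ j' ∈ J,
      |∑ n ∈ Ioc Z (Z + L), rh (F j) y n * rh (F j') y n - (L : ℝ) * Vq (QPP (F j) (F j')) y| ≤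
        (1 / 2) ^ m * ((L : ℝ) * Vq (QPP (F j) (F j')) y) + s)
    (Hsec : ∀ (P : Finset ℕ) (a : ℕ → Finset ℕ → ℝ) (A B1 B2 : ℝ),
      (∀ p ∈ P, p.Prime ∧ y < p) → (∀ j ∈ J, ∀ U, |a j U| ≤ A) → 0 ≤ A →
      (∀ j ∈ J, ∀ U ⊆ P, a j U ≠ 0 → ∏ p ∈ U, p ≤ D) →
      (∀ j ∈ J, ∑ U ∈ P.powerset, a j U * wt (F j) U = 0) →
      (∀ j ∈ J, Pi1 (F j) P ≤ B1) → (∀ j ∈ J, ∑ p ∈ P, gp (F j) p ≤ B2) →
      ∑ n ∈ Ioc Z (Z + L), XG F α J P a y n ^ 2 ≤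
        (A * 2 ^ R0) ^ 2 * (d * ∑ j ∈ J, α j ^ 2 * ∑ n ∈ Ioc Z (Z + L), rh (F j) y n) +
        V2G F α J bad y * (L * (A ^ 2 * (B1 ^ 2 * (c * B2 / y)) + (1 / 2) ^ m * (A * B1) ^ 2)) +
        (∑ j ∈ J, α j) ^ 2 * (s * (A * ((c : ℝ) ^ R0 * D)) ^ 2))
    (he1 : 32 * ((1 / 2) ^ m * (4 * Q ^ (c + 1) * Q ^ c) ^ 2) ≤ κ ^ 2 * (ε / 10))
    (he2 : 32 * ((4 * Q ^ (c + 1)) ^ 2 * ((Q ^ c) ^ 2 * (c * Q ^ c / y))) ≤ κ ^ 2 * (ε / 10))
    (hE1 : 4 * (3 + d) * B ^ 2 ≤ ε / 10 * (X : ℝ) ^ (θ / 8))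
    (hE2 : 16 * ((4 * Q ^ (c + 1) * 2 ^ R0) ^ 2 * d) * B ^ 2 ≤ κ ^ 2 * (ε / 10) * (X : ℝ) ^ (θ / 8))
    (hE3 : 16 * (4 * Q ^ (c + 1) * (c : ℝ) ^ R0) ^ 2 * B ^ 2 ≤ κ ^ 2 * (ε / 10) * (X : ℝ) ^ (θ / 8)) :
    (((Ioc Z (Z + L)).filter (fun n => ∑ j ∈ GoodR F J v n, α j < κ / 4 * x)).card : ℝ) ≤ ε * L := by
  have hX1 : (1 : ℝ) ≤ X := by exact_mod_cast hX
  have hX0 : (0 : ℝ) < X := by linarith
  have hL0 : (0 : ℝ) < L := lt_of_lt_of_le (by positivity) hXL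
  have hQ0 : 0 < Q := by linarith
  have hκ0 : 0 < κ := by rw [hκ]; positivity
  obtain ⟨P, hP⟩ : ∃ P, P = Pw y z := ⟨_, rfl⟩
  obtain ⟨M, hM⟩ : ∃ M : ℕ → ℝ, M = fun j => ∑ V ∈ P.powerset, cL V * wt (F j) V := ⟨_, rfl⟩
  obtain ⟨a, ha⟩ : ∃ a : ℕ → Finset ℕ → ℝ, a = fun j U => cL U - if U = ∅ then M j else 0 := ⟨_, rfl⟩
  obtain ⟨A, hA⟩ : ∃ A : ℝ, A = 4 * Q ^ (c + 1) := ⟨_, rfl⟩
  obtain ⟨B1, hB1⟩ : ∃ B1 : ℝ, B1 = Q ^ c := ⟨_, rfl⟩
  have hA0 : 0 ≤ A := by rw [hA]; positivity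
  have hB10 : 0 ≤ B1 := by rw [hB1]; positivity
  have hPp : ∀ p ∈ P, p.Prime ∧ y < p := by
    intro p hp
    rw [hP, mem_Pw] at hp
    exact ⟨hp.2.2, hp.1⟩
  rw [← hP] at hcD hc hlow hPi
  rw [← hA, ← hB1] at he2
  rw [← hA] at hσ2 hE2 hE3
  rw [← hA, ← hB1] at he1
  have hMle : ∀ j ∈ J, |M j| ≤ 2 * Q * Q ^ c := by
    intro j hj
    rw [hM]
    refine (abs_sum_le_sum_abs _ _).trans ?_
    have h1 : ∑ V ∈ P.powerset, |cL V * wt (F j) V| ≤ ∑ V ∈ P.powerset, 2 * Q * wt (F j) V := by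
      apply sum_le_sum
      intro V _
      rw [abs_mul, abs_of_nonneg (wt_nonneg (F j) V)]
      exact mul_le_mul_of_nonneg_right (hcA V) (wt_nonneg _ _)
    refine h1.trans ?_
    rw [← mul_sum]
    exact mul_le_mul_of_nonneg_left (hPi j hj) (by positivity)
  have haA : ∀ j ∈ J, ∀ U, |a j U| ≤ A := by
    intro j hj U
    rw [ha, hA]
    have h1 : |cL U - if U = ∅ then M j else 0| ≤ |cL U| + |if U = ∅ then M j else 0| := abs_sub _ _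
    have h2 : |if U = ∅ then M j else 0| ≤ 2 * Q * Q ^ c := by
      split_ifs
      · exact hMle j hj
      · rw [abs_zero]; positivity
    have h3 : 2 * Q ≤ 2 * Q * Q ^ c := le_mul_of_one_le_right (by positivity) (one_le_pow₀ hQ)
    have h4 := hcA U
    have e : 4 * Q ^ (c + 1) = 2 * Q * Q ^ c + 2 * Q * Q ^ c := by rw [pow_succ]; ring
    rw [e]
    exact h1.trans (by linarith)
  have haD : ∀ j ∈ J, ∀ U ⊆ P, a j U ≠ 0 → ∏ p ∈ U, p ≤ D := by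
    intro j _ U hU hne
    by_cases h : U = ∅
    · rw [h, prod_empty]
      exact hD1
    · apply hcD U hU
      intro h0
      apply hne
      rw [ha]
      show cL U - (if U = ∅ then M j else 0) = 0
      rw [if_neg h, h0, sub_zero]
  have hasum : ∀ j ∈ J, ∑ U ∈ P.powerset, a j U * wt (F j) U = 0 := by
    intro j _
    rw [ha, hM]
    exact centred (F j) P cL
  have hgs : ∀ j ∈ J, ∑ p ∈ P, gp (F j) p ≤ B1 := by
    intro j hj
    have h1 := hPi j hj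
    rw [Pi1_prod, ← hB1] at h1
    have h2 := one_add_sum P (gp (F j)) (fun p _ => gp_nonneg (F j) p)
    linarith
  have hsec := Hsec P a A B1 B1 hPp haA hA0 haD hasum (fun j hj => by rw [hB1]; exact hPi j hj) hgs
  obtain ⟨e, he⟩ : ∃ e : ℝ, e = A ^ 2 * (B1 ^ 2 * (c * B1 / y)) + (1 / 2) ^ m * (A * B1) ^ 2 := ⟨_, rfl⟩
  have he0 : 0 ≤ e := by rw [he]; positivity
  obtain ⟨T, hT⟩ : ∃ T : ℝ, T = ∑ j ∈ J, α j := ⟨_, rfl⟩
  have hT0 : 0 ≤ T := by rw [hT]; exact sum_nonneg hF.α0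
  rw [← hT] at hαB
  rw [← he, ← hT] at hsec
  have hvar := varG hF Z L ((1 / 2) ^ m) s η x hs0 (by positivity) hhalf hη1 hxd hx0.le Hcnt hV2
  rw [← hT] at hvar
  have hdg := diagG F α J y Z L ((1 / 2) ^ m) s hs0 (hhalf.trans hη1) hF.α0 Hcnt
  rw [← hT] at hdg
  have hT2 : T ^ 2 ≤ B ^ 2 * x ^ 2 := by
    rw [← mul_pow]
    exact pow_le_pow_left₀ hT0 hαB 2
  -- the powers of `X`
  obtain ⟨q, hq⟩ : ∃ q : ℝ, q = (X : ℝ) ^ (θ / 8) := ⟨_, rfl⟩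
  have hq1 : 1 ≤ q := by rw [hq]; exact Real.one_le_rpow hX1 (by positivity)
  have hq8 : q ^ 8 ≤ L := by
    refine le_trans (le_of_eq ?_) hXL
    rw [hq, ← Real.rpow_natCast, ← Real.rpow_mul hX0.le]
    congr 1
    push_cast
    ring
  have hq4 : q ^ 4 ≤ L := (pow_le_pow_right₀ hq1 (by norm_num)).trans hq8
  have hq2 : q ^ 2 ≤ L := (pow_le_pow_right₀ hq1 (by norm_num)).trans hq8
  rw [← hq] at hs hDθ hE1 hE2 hE3
  have hx2 : 0 < x ^ 2 := by positivity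
  -- the two parts
  have hsub : ((Ioc Z (Z + L)).filter (fun n => ∑ j ∈ GoodR F J v n, α j < κ / 4 * x)).card ≤
      ((Ioc Z (Z + L)).filter (fun n => (x / 2) ^ 2 ≤ (WG F α J y n - x) ^ 2)).card +
      ((Ioc Z (Z + L)).filter (fun n => (κ * x / 4) ^ 2 ≤ XG F α J P a y n ^ 2)).card := by
    refine (card_le_card ?_).trans (card_union_le _ _)
    intro n hn
    rw [mem_filter] at hn
    rw [mem_union, mem_filter, mem_filter]
    have hb := bad_sub F α J hF.α0 y z v hv cL (by rw [← hP]; exact hc) κ hκ0 x hx0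
      (by rw [← hP]; exact hlow) n hn.2
    rw [← hP] at hb
    rcases hb with h1 | h1
    · exact Or.inl ⟨hn.1, h1⟩
    · refine Or.inr ⟨hn.1, ?_⟩
      rw [ha, hM]
      exact h1
  have h1 := cheb (Ioc Z (Z + L)) (fun n => WG F α J y n - x) ((x / 2) ^ 2) (by positivity)
    (fun n => (x / 2) ^ 2 ≤ (WG F α J y n - x) ^ 2) (fun n _ h => h)
  have h2 := cheb (Ioc Z (Z + L)) (fun n => XG F α J P a y n) ((κ * x / 4) ^ 2) (by positivity)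
    (fun n => (κ * x / 4) ^ 2 ≤ XG F α J P a y n ^ 2) (fun n _ h => h)
  have h3 : (∑ n ∈ Ioc Z (Z + L), (WG F α J y n - x) ^ 2) / (x / 2) ^ 2 ≤ ε / 2 * L := by
    rw [div_le_iff₀ (by positivity)]
    refine hvar.trans ?_
    have b1 : 5 * η * (L * x ^ 2) ≤ ε / 40 * (L * x ^ 2) := mul_le_mul_of_nonneg_right (by linarith) (by positivity)
    have b2 : 2 * d * (L * S2G F α J y) ≤ ε / 40 * (L * x ^ 2) := by
      have a1 : 2 * (d : ℝ) * (L * S2G F α J y) ≤ 2 * d * (L * (σ * x ^ 2)) := by gcongr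
      have a2 : 2 * (d : ℝ) * (L * (σ * x ^ 2)) = (2 * d * σ) * (L * x ^ 2) := by ring
      rw [a2] at a1
      refine a1.trans (mul_le_mul_of_nonneg_right (by linarith) (by positivity))
    have b3 : (3 + (d : ℝ)) * (T ^ 2 * s) ≤ ε / 40 * (L * x ^ 2) := by
      have a1 : T ^ 2 * s ≤ (B ^ 2 * x ^ 2) * q := mul_le_mul hT2 hs hs0 (by positivity)
      calc (3 + (d : ℝ)) * (T ^ 2 * s) ≤ (3 + d) * ((B ^ 2 * x ^ 2) * q) := by gcongr
        _ = (4 * (3 + d) * B ^ 2) * q * x ^ 2 / 4 := by ring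
        _ ≤ (ε / 10 * q) * q * x ^ 2 / 4 := by gcongr
        _ = ε / 40 * (q ^ 2 * x ^ 2) := by ring
        _ ≤ _ := by gcongr
    have e1 : ε / 2 * L * (x / 2) ^ 2 = ε / 8 * (L * x ^ 2) := by ring
    rw [e1]
    have b4 : 0 < L * x ^ 2 := by positivity
    nlinarith
  have h4 : (∑ n ∈ Ioc Z (Z + L), XG F α J P a y n ^ 2) / (κ * x / 4) ^ 2 ≤ ε / 2 * L := by
    rw [div_le_iff₀ (by positivity)]
    refine hsec.trans ?_
    have b1 : (A * 2 ^ R0) ^ 2 * (d * ∑ j ∈ J, α j ^ 2 * ∑ n ∈ Ioc Z (Z + L), rh (F j) y n) ≤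
        κ ^ 2 * (ε / 80) * (L * x ^ 2) := by
      have a0 : ∑ j ∈ J, α j ^ 2 * ∑ n ∈ Ioc Z (Z + L), rh (F j) y n ≤ 2 * L * (σ * x ^ 2) + (B ^ 2 * x ^ 2) * q := by
        refine hdg.trans ?_
        have c1 : T ^ 2 * s ≤ (B ^ 2 * x ^ 2) * q := mul_le_mul hT2 hs hs0 (by positivity)
        have c2 : 2 * L * S2G F α J y ≤ 2 * L * (σ * x ^ 2) := mul_le_mul_of_nonneg_left hS2 (by positivity)
        linarith
      calc (A * 2 ^ R0) ^ 2 * (d * ∑ j ∈ J, α j ^ 2 * ∑ n ∈ Ioc Z (Z + L), rh (F j) y n) ≤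
          (A * 2 ^ R0) ^ 2 * (d * (2 * L * (σ * x ^ 2) + (B ^ 2 * x ^ 2) * q)) := by gcongr
        _ = (32 * ((A * 2 ^ R0) ^ 2 * d * σ)) * (L * x ^ 2) / 16 +
            (16 * ((A * 2 ^ R0) ^ 2 * d) * B ^ 2) * q * x ^ 2 / 16 := by ring
        _ ≤ (κ ^ 2 * (ε / 10)) * (L * x ^ 2) / 16 + (κ ^ 2 * (ε / 10) * q) * q * x ^ 2 / 16 := by gcongr
        _ = (κ ^ 2 * (ε / 10)) * (L * x ^ 2) / 16 + (κ ^ 2 * (ε / 10)) * (q ^ 2 * x ^ 2) / 16 := by ring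
        _ ≤ (κ ^ 2 * (ε / 10)) * (L * x ^ 2) / 16 + (κ ^ 2 * (ε / 10)) * (L * x ^ 2) / 16 := by gcongr
        _ = _ := by ring
    have b2 : V2G F α J bad y * (L * e) ≤ κ ^ 2 * (ε / 80) * (L * x ^ 2) := by
      have a1 : V2G F α J bad y ≤ 2 * x ^ 2 := hV2.trans (mul_le_mul_of_nonneg_right (by linarith) (sq_nonneg _))
      have a2 : 32 * e ≤ κ ^ 2 * (ε / 5) := by rw [he]; linarith
      calc V2G F α J bad y * (L * e) ≤ (2 * x ^ 2) * (L * e) := by gcongr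
        _ = (32 * e) * (L * x ^ 2) / 16 := by ring
        _ ≤ (κ ^ 2 * (ε / 5)) * (L * x ^ 2) / 16 := by gcongr
        _ = _ := by ring
    have b3 : T ^ 2 * (s * (A * ((c : ℝ) ^ R0 * D)) ^ 2) ≤ κ ^ 2 * (ε / 160) * (L * x ^ 2) := by
      calc T ^ 2 * (s * (A * ((c : ℝ) ^ R0 * D)) ^ 2) ≤
          (B ^ 2 * x ^ 2) * (q * (A * ((c : ℝ) ^ R0 * q)) ^ 2) := by gcongr
        _ = (16 * (A * (c : ℝ) ^ R0) ^ 2 * B ^ 2) * (q ^ 3 * x ^ 2) / 16 := by ring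
        _ ≤ (κ ^ 2 * (ε / 10) * q) * (q ^ 3 * x ^ 2) / 16 := by gcongr
        _ = κ ^ 2 * (ε / 160) * (q ^ 4 * x ^ 2) := by ring
        _ ≤ _ := by gcongr
    have e1 : ε / 2 * L * (κ * x / 4) ^ 2 = κ ^ 2 * (ε / 32) * (L * x ^ 2) := by ring
    rw [e1]
    have b4 : 0 < κ ^ 2 * (L * x ^ 2) := by positivity
    nlinarith
  have h5 : (((Ioc Z (Z + L)).filter (fun n => ∑ j ∈ GoodR F J v n, α j < κ / 4 * x)).card : ℝ) ≤
      (((Ioc Z (Z + L)).filter (fun n => (x / 2) ^ 2 ≤ (WG F α J y n - x) ^ 2)).card : ℝ) +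
      (((Ioc Z (Z + L)).filter (fun n => (κ * x / 4) ^ 2 ≤ XG F α J P a y n ^ 2)).card : ℝ) := by
    exact_mod_cast hsub
  linarith

end Pool.Agent.L0h41.GN
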