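import Pool.Agent.L0h41.GN.C

set_option autoImplicit false

/-!
# Sieving families of sequences of any dimension: the main theorem
-/

namespace Pool.Agent.L0h41.GN

open Finset Filter
open Pool.Agent.W123.RP Pool.Agent.H373R2.T7 Pool.Agent.W123.RU Pool.Agent.TH464.PO Pool.Agent.TH464.PW
open Pool.Agent.Y879.AP
open Pool.Agent.R490.P3c (lam)
open Pool.Agent.R490.P3h (sqrt_xx)
open Pool.Agent.R490.Mean (y_ge)
open Pool.Agent.L0h41.LW Pool.Agent.L0h41.QN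
open Pool.Agent.R490.GPg (Pw mem_Pw)

/-- the parameter `m` -/
lemma exists_m (K : ℝ) (k : ℕ) (t : ℝ) (ht : 0 < t) : ∀ᶠ m : ℕ in atTop, K * (m : ℝ) ^ k * (1 / 2) ^ m ≤ t := by
  have h1 : Tendsto (fun m : ℕ => (m : ℝ) ^ k * (1 / 2 : ℝ) ^ m) atTop (nhds 0) :=
    tendsto_pow_const_mul_const_pow_of_abs_lt_one k (by rw [abs_of_pos] <;> norm_num)
  have h2 := (h1.const_mul K)
  rw [mul_zero] at h2
  filter_upwards [h2.eventually (gt_mem_nhds ht)] with m hm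
  rw [mul_assoc]
  exact hm.le

set_option maxHeartbeats 1000000 in
open Classical in
/-- **Families of sequences: almost all `n` have a member with a value without small prime factors.** -/
theorem mainB (c d : ℕ) (hc : 1 ≤ c) (θ : ℝ) (hθ : 0 < θ) (hθ1 : θ ≤ 1) : ∃ δ0 : ℝ, 0 < δ0 ∧
    ∀ (g : ℕ) (ε : ℝ), 0 < ε → ε ≤ 1 → ∃ (r : ℕ) (κ0 σ η : ℝ), 2 ≤ r ∧ 0 < κ0 ∧ 0 < σ ∧ 0 < η ∧
      ∀ B : ℕ, ∀ᶠ X : ℕ in atTop, ∀ Z L : ℕ, (X : ℝ) ^ θ ≤ L →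
      ∀ (F : ℕ → ℕ → ℕ) (α : ℕ → ℝ) (J : Finset ℕ) (bad : ℕ → ℕ → Prop),
        FamG F α J bad c d ⌊(X : ℝ) ^ (1 / (r : ℝ))⌋₊ →
        (∀ j ∈ J, ∀ n ∈ Ioc Z (Z + L), 1 ≤ F j n ∧ F j n ≤ X ^ g) →
        0 < V1G F α J ⌊(X : ℝ) ^ (1 / (r : ℝ))⌋₊ →
        ∑ j ∈ J, α j ≤ Real.log X ^ B * V1G F α J ⌊(X : ℝ) ^ (1 / (r : ℝ))⌋₊ →
        V2G F α J bad ⌊(X : ℝ) ^ (1 / (r : ℝ))⌋₊ ≤ (1 + η) * V1G F α J ⌊(X : ℝ) ^ (1 / (r : ℝ))⌋₊ ^ 2 →
        S2G F α J ⌊(X : ℝ) ^ (1 / (r : ℝ))⌋₊ ≤ σ * V1G F α J ⌊(X : ℝ) ^ (1 / (r : ℝ))⌋₊ ^ 2 →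
        (((Ioc Z (Z + L)).filter (fun n => ∑ j ∈ GoodR F J ((X : ℝ) ^ δ0) n, α j <
          κ0 * V1G F α J ⌊(X : ℝ) ^ (1 / (r : ℝ))⌋₊)).card : ℝ) ≤ ε * L := by
  obtain ⟨E, C1, hE1, hC11, HW⟩ := weightsB c hc
  obtain ⟨C0a, x0a, hC0a, Hsec⟩ := secondG c hc
  obtain ⟨C0b, x0b, hC0b, Hcnt⟩ := countG c hc
  have hE0 : (0 : ℝ) < E := by exact_mod_cast hE1
  have hE1r : (1 : ℝ) ≤ E := by exact_mod_cast hE1
  obtain ⟨δ0, hδ0⟩ : ∃ δ0 : ℝ, δ0 = θ / (16 * E) := ⟨_, rfl⟩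
  have hδ00 : 0 < δ0 := by rw [hδ0]; positivity
  have hδ04 : δ0 ≤ 1 / 4 := by
    rw [hδ0, div_le_iff₀ (by positivity)]
    linarith
  have hδE : 2 * δ0 * E = θ / 8 := by rw [hδ0]; field_simp; norm_num
  refine ⟨δ0, hδ00, ?_⟩
  intro g ε hε hε1
  obtain ⟨C0, hC0⟩ : ∃ C0 : ℕ, C0 = C0a + C0b := ⟨_, rfl⟩
  obtain ⟨G0, hG0⟩ : ∃ G0 : ℕ, G0 = ⌈16 * (C0 : ℝ) / (θ / 4)⌉₊ + ⌈1 / δ0⌉₊ + 2 := ⟨_, rfl⟩
  have hG1 : 16 * (C0 : ℝ) / (θ / 4) ≤ G0 := by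
    rw [hG0]
    push_cast
    have := Nat.le_ceil (16 * (C0 : ℝ) / (θ / 4))
    have h2 : (0 : ℝ) ≤ (⌈1 / δ0⌉₊ : ℝ) := Nat.cast_nonneg _
    linarith
  have hG2 : 1 / δ0 ≤ G0 := by
    rw [hG0]
    push_cast
    have := Nat.le_ceil (1 / δ0)
    have h2 : (0 : ℝ) ≤ (⌈16 * (C0 : ℝ) / (θ / 4)⌉₊ : ℝ) := Nat.cast_nonneg _
    linarith
  have hG3 : 2 ≤ G0 := by omega
  obtain ⟨η, hη⟩ : ∃ η : ℝ, η = ε / 200 := ⟨_, rfl⟩
  have hη0 : 0 < η := by rw [hη]; positivity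
  have ev1 := exists_m 1 0 η hη0
  have ev2 := exists_m (128 * 320 / ε * 16 * (C1 * G0) ^ (8 * c + 2)) (8 * c + 2) 1 one_pos
  obtain ⟨m, hm1, hm2, hm3⟩ := (ev1.and (ev2.and (eventually_ge_atTop (C0 + 1)))).exists
  obtain ⟨r, hr⟩ : ∃ r, r = G0 * m := ⟨_, rfl⟩
  have hm0 : 1 ≤ m := by omega
  have hr2 : 2 ≤ r := by
    rw [hr]
    calc 2 = 2 * 1 := by norm_num
      _ ≤ G0 * m := Nat.mul_le_mul hG3 hm0
  have hrr0 : (0 : ℝ) < r := by exact_mod_cast (by omega : 0 < r)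
  have hrr1 : (1 : ℝ) ≤ r := by exact_mod_cast (by omega : 1 ≤ r)
  have hrG : (G0 : ℝ) ≤ r := by
    rw [hr]
    push_cast
    have : (1 : ℝ) ≤ m := by exact_mod_cast hm0
    exact le_mul_of_one_le_right (Nat.cast_nonneg _) this
  have hrδ : 1 / (r : ℝ) ≤ δ0 := by
    rw [one_div_le hrr0 hδ00]
    exact hG2.trans hrG
  obtain ⟨Q, hQ⟩ : ∃ Q : ℝ, Q = C1 * r := ⟨_, rfl⟩
  have hQ1 : 1 ≤ Q := by rw [hQ]; nlinarith
  have hQ0 : 0 < Q := by linarith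
  obtain ⟨κ, hκ⟩ : ∃ κ : ℝ, κ = 1 / 2 * (1 / Q) ^ (2 * c) := ⟨_, rfl⟩
  have hκ0 : 0 < κ := by rw [hκ]; positivity
  obtain ⟨R0, hR0⟩ : ∃ R0 : ℕ, R0 = 2 * (g + 1) * r := ⟨_, rfl⟩
  obtain ⟨AR, hAR⟩ : ∃ AR : ℝ, AR = (4 * Q ^ (c + 1) * 2 ^ R0) ^ 2 := ⟨_, rfl⟩
  have hAR0 : 0 < AR := by rw [hAR]; positivity
  obtain ⟨σ, hσ⟩ : ∃ σ : ℝ, σ = min (ε / (80 * (d + 1))) (κ ^ 2 * ε / (320 * AR * (d + 1))) := ⟨_, rfl⟩
  have hd0 : (0 : ℝ) ≤ d := Nat.cast_nonneg _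
  have hσ0 : 0 < σ := by rw [hσ]; apply lt_min <;> positivity
  have hσ1 : 8 * (d : ℝ) * σ ≤ ε / 10 := by
    have a1 : σ ≤ ε / (80 * (d + 1)) := by rw [hσ]; exact min_le_left _ _
    rw [le_div_iff₀ (by positivity)] at a1
    nlinarith
  have hσ2 : 32 * (AR * (d : ℝ) * σ) ≤ κ ^ 2 * (ε / 10) := by
    have a1 : σ ≤ κ ^ 2 * ε / (320 * AR * (d + 1)) := by rw [hσ]; exact min_le_right _ _
    rw [le_div_iff₀ (by positivity)] at a1
    have a2 : 0 < AR * σ := by positivity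
    nlinarith
  refine ⟨r, κ / 4, σ, η, hr2, by positivity, hσ0, hη0, ?_⟩
  intro B
  have hc0 : (0 : ℝ) < c := by exact_mod_cast hc
  obtain ⟨Yb, hYb⟩ := exists_nat_ge (32 * ((4 * Q ^ (c + 1)) ^ 2 * ((Q ^ c) ^ 2 * (c * Q ^ c))) / (κ ^ 2 * (ε / 10)))
  have e1 := HW r δ0 hr2 hδ00 hδ04 hrδ
  have e2 := Pool.Agent.Y879.GL.level_ok r hr2
  have e3 := y_ge r hr2 (x0a + x0b + Yb + 2)
  have e4 := logpow_rpow (2 * B) (4 * (3 + d) / (ε / 10)) (θ / 8) (by positivity) (by positivity)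
  have e5 := logpow_rpow (2 * B) (16 * (AR * d) / (κ ^ 2 * (ε / 10)) + 1) (θ / 8) (by positivity) (by positivity)
  have e6 := logpow_rpow (2 * B) (16 * (4 * Q ^ (c + 1) * (c : ℝ) ^ R0) ^ 2 / (κ ^ 2 * (ε / 10)) + 1) (θ / 8)
    (by positivity) (by positivity)
  filter_upwards [e1, e2, e3, e4, e5, e6, eventually_ge_atTop 2] with X f1 f2 f3 f4 f5 f6 f7
  clear e1 e2 e3 e4 e5 e6 ev1 ev2 HW
  obtain ⟨-, g2, -, -, -⟩ := f2
  obtain ⟨y, hy⟩ : ∃ y, y = ⌊(X : ℝ) ^ (1 / (r : ℝ))⌋₊ := ⟨_, rfl⟩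
  rw [← hy] at f1 f3 g2 ⊢
  obtain ⟨z, hz1, hz2, cL, w1, w2, w3, w4⟩ := f1
  intro Z L hXL F α J bad hF hS hV10 hαB hV2 hS2
  have hX1 : (1 : ℝ) ≤ X := by exact_mod_cast (by omega : 1 ≤ X)
  have hX0 : (0 : ℝ) < X := by linarith
  have hy1 : 1 ≤ y := by omega
  have hyr0 : (0 : ℝ) < y := by exact_mod_cast hy1
  have hlX : 0 ≤ Real.log X := Real.log_nonneg hX1
  -- the sizes
  have hXy : X ^ (g + 1) ≤ y ^ R0 := by
    have h1 : ((X : ℕ) : ℝ) ^ (g + 1) ≤ (y : ℝ) ^ R0 := by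
      rw [← Real.log_le_log_iff (by positivity) (by positivity), Real.log_pow, Real.log_pow]
      rw [div_le_iff₀ (by positivity)] at g2
      rw [hR0]
      push_cast
      calc ((g : ℝ) + 1) * Real.log X ≤ ((g : ℝ) + 1) * (Real.log y * (2 * r)) :=
            mul_le_mul_of_nonneg_left g2 (by positivity)
        _ = _ := by ring
    exact_mod_cast h1
  have hyR0 : ∀ j ∈ J, ∀ n ∈ Ioc Z (Z + L), 1 ≤ F j n ∧ F j n ≤ y ^ R0 := by
    intro j hj n hn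
    obtain ⟨b1, b2⟩ := hS j hj n hn
    refine ⟨b1, b2.trans (le_trans ?_ hXy)⟩
    exact Nat.pow_le_pow_right (by omega) (by omega)
  obtain ⟨D, hD⟩ : ∃ D, D = ⌊(X : ℝ) ^ (θ / 8)⌋₊ := ⟨_, rfl⟩
  have hD1 : 1 ≤ D := by
    rw [hD]
    apply Nat.le_floor
    rw [Nat.cast_one]
    exact Real.one_le_rpow hX1 (by positivity)
  have hDθ : (D : ℝ) ≤ (X : ℝ) ^ (θ / 8) := by rw [hD]; exact Nat.floor_le (by positivity)
  have hDy : D ≤ y ^ R0 := by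
    have a1 : (D : ℝ) ≤ X := by
      refine hDθ.trans ?_
      calc (X : ℝ) ^ (θ / 8) ≤ (X : ℝ) ^ (1 : ℝ) := Real.rpow_le_rpow_of_exponent_le hX1 (by linarith)
        _ = X := Real.rpow_one _
    have a2 : D ≤ X := by exact_mod_cast a1
    refine a2.trans (le_trans ?_ hXy)
    calc X = X ^ 1 := (pow_one X).symm
      _ ≤ X ^ (g + 1) := Nat.pow_le_pow_right (by omega) (by omega)
  have hpow : ∀ C' : ℕ, C' ≤ C0 → y ^ (16 * (C' * m)) ≤ y ^ (16 * (C0 * m)) := by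
    intro C' hC'
    apply Nat.pow_le_pow_right hy1
    apply Nat.mul_le_mul_left
    exact Nat.mul_le_mul_right _ hC'
  obtain ⟨s, hs⟩ : ∃ s : ℝ, s = √((y ^ (16 * (C0 * m)) : ℕ) : ℝ) := ⟨_, rfl⟩
  have hs0 : 0 ≤ s := by rw [hs]; exact Real.sqrt_nonneg _
  have hsX : s ≤ (X : ℝ) ^ (θ / 8) := by
    have a1 := sqrt_xx X r C0 m G0 (θ / 4) (by omega) (by positivity) hr hm0 (by omega) hG1
    rw [← hy, ← hs] at a1
    refine a1.trans (le_of_eq ?_)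
    congr 1
    ring
  have hlB : Real.log X ^ (2 * B) = (Real.log X ^ B) ^ 2 := by rw [← pow_mul, mul_comm]
  have hcard := oneB F α J bad c d X y z m Z L R0 D hF hc θ ((X : ℝ) ^ δ0) κ ε η σ (V1G F α J y) (Real.log X ^ B) Q s
    (by omega) hθ hε (by rw [hη]; linarith) (by rw [hη]; linarith) hXL hz1 hy1 hQ1 hκ cL (by
      intro T
      refine (w1 T).trans ?_
      rw [hQ]
      nlinarith) (by
      intro T hT hne
      rw [hD]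
      apply Nat.le_floor
      rw [← hδE]
      exact w2 T hT hne) hD1 w3 (by
      intro j hj
      rw [hκ, hQ]
      exact (w4 (F j) (hF.per j hj)).1) (by
      intro j hj
      rw [hQ]
      exact (w4 (F j) (hF.per j hj)).2) hV10 rfl hαB hV2 hS2 hσ1 (by rw [← hAR]; exact hσ2) (by
      rw [pow_zero, mul_one, one_mul] at hm1
      exact hm1) hs0 hsX hDθ (by
      rw [hs]
      exact Hcnt m (by omega) (y ^ (16 * (C0 * m))) y (by omega) (hpow C0b (by omega)) F J hF.per Z L) (by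
      intro P a A B1 B2 hP ha hA0 hDa hsum h1 h2
      rw [hs]
      exact Hsec m (by omega) (y ^ (16 * (C0 * m))) y (by omega) hy1 (hpow C0a (by omega)) F α J bad d hF Z L R0 P a A
        B1 B2 D hP ha hA0 hDa hDy hsum h1 h2 hyR0) (by
      -- the choice of `m`
      have a1 : 128 * 320 / ε * 16 * (C1 * G0) ^ (8 * c + 2) * (m : ℝ) ^ (8 * c + 2) =
          128 * 320 / ε * 16 * Q ^ (8 * c + 2) := by
        rw [hQ, hr]
        push_cast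
        rw [mul_assoc, ← mul_pow, mul_assoc C1]
      rw [a1] at hm2
      rw [hκ]
      have a2 : (1 / 2 * (1 / Q) ^ (2 * c)) ^ 2 * (ε / 10) = ε / 40 / Q ^ (4 * c) := by
        have : (1 / Q) ^ (2 * c) = 1 / Q ^ (2 * c) := by rw [one_div_pow]
        rw [this]
        have e : Q ^ (4 * c) = (Q ^ (2 * c)) ^ 2 := by rw [← pow_mul]; congr 1; ring
        rw [e]
        field_simp
        ring
      rw [a2, le_div_iff₀ (by positivity)]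
      have a3 : 32 * ((1 / 2 : ℝ) ^ m * (4 * Q ^ (c + 1) * Q ^ c) ^ 2) * Q ^ (4 * c) =
          32 * 16 * Q ^ (8 * c + 2) * (1 / 2) ^ m := by
        have e : Q ^ (8 * c + 2) = Q ^ (2 * (c + 1)) * Q ^ (2 * c) * Q ^ (4 * c) := by
          rw [← pow_add, ← pow_add]
          congr 1
          ring
        rw [e, mul_pow, mul_pow, ← pow_mul, ← pow_mul]
        rw [mul_comm (c + 1) 2, mul_comm c 2]
        ring
      rw [a3]
      have a4 : 128 * 320 / ε * 16 * Q ^ (8 * c + 2) * (1 / 2 : ℝ) ^ m =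
          (32 * 16 * Q ^ (8 * c + 2) * (1 / 2) ^ m) * (1280 / ε) := by ring
      rw [a4, ← le_div_iff₀ (by positivity)] at hm2
      refine hm2.trans ?_
      rw [one_div_div]
      linarith) (by
      have a1 : (Yb : ℝ) ≤ y := by exact_mod_cast (by omega : Yb ≤ y)
      have a2 := hYb.trans a1
      rw [div_le_iff₀ (by positivity)] at a2
      have a3 : 32 * ((4 * Q ^ (c + 1)) ^ 2 * ((Q ^ c) ^ 2 * (c * Q ^ c / y))) =
          32 * ((4 * Q ^ (c + 1)) ^ 2 * ((Q ^ c) ^ 2 * (c * Q ^ c))) / y := by ring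
      rw [a3, div_le_iff₀ hyr0]
      linarith) (by
      rw [hlB] at f4
      rw [div_mul_eq_mul_div, div_le_iff₀ (by positivity)] at f4
      linarith) (by
      rw [← hAR]
      rw [hlB] at f5
      have a1 : 16 * (AR * d) / (κ ^ 2 * (ε / 10)) * (Real.log X ^ B) ^ 2 ≤ (X : ℝ) ^ (θ / 8) := by
        refine le_trans ?_ f5
        apply mul_le_mul_of_nonneg_right _ (sq_nonneg _)
        linarith
      rw [div_mul_eq_mul_div, div_le_iff₀ (by positivity)] at a1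
      linarith) (by
      rw [hlB] at f6
      have a1 : 16 * (4 * Q ^ (c + 1) * (c : ℝ) ^ R0) ^ 2 / (κ ^ 2 * (ε / 10)) * (Real.log X ^ B) ^ 2 ≤
          (X : ℝ) ^ (θ / 8) := by
        refine le_trans ?_ f6
        apply mul_le_mul_of_nonneg_right _ (sq_nonneg _)
        linarith
      rw [div_mul_eq_mul_div, div_le_iff₀ (by positivity)] at a1
      linarith)
  exact hcard

end Pool.Agent.L0h41.GN
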