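import Pool.Agent.L0h41.GN.D
import Pool.Agent.L0h41.QN.M4
import Pool.Agent.L0h41.PE.E

set_option autoImplicit false

/-!
# Families of polynomials of any degree: the pair densities
-/

namespace Pool.Agent.L0h41.GN

open Finset Filter Polynomial
open Pool.Agent.W123.RP Pool.Agent.H373R2.T7 Pool.Agent.W123.RU Pool.Agent.TH464.PO Pool.Agent.TH464.PW
open Pool.Agent.Y879.AP
open Pool.Agent.L0h41.LW Pool.Agent.L0h41.QN
open Pool.Agent.R490.LGa (one_sub_pos one_le_inv')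
open Pool.Agent.R490.GPg (Pw mem_Pw)
open Pool.Agent.R490.LGb (Wp Wp_pos dvd_Wp not_dvd_Wp)

open Classical in
/-- the product of `1 + 14 c / p` over the primes `w < p ≤ y` with a property -/
noncomputable def tD (w y c : ℕ) (E : ℕ → Prop) : ℝ :=
  ∏ p ∈ pz y, (if w < p ∧ E p then 1 + 14 * (c : ℝ) / (p : ℝ) else 1)

lemma one_le_tD (w y c : ℕ) (E : ℕ → Prop) : 1 ≤ tD w y c E := by
  classical
  unfold tD
  have h : ∏ p ∈ pz y, (1 : ℝ) ≤ ∏ p ∈ pz y, (if w < p ∧ E p then 1 + 14 * (c : ℝ) / (p : ℝ) else 1) := by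
    apply Finset.prod_le_prod (fun _ _ => zero_le_one)
    intro p hp
    split_ifs
    · have : (0 : ℝ) ≤ 14 * (c : ℝ) / (p : ℝ) := by positivity
      linarith
    · exact le_rfl
  rwa [prod_const_one] at h

/-- the density of a pair -/
theorem pair_leD (F F' : ℕ → ℕ) (w y D : ℕ) (hw : 2 * D ≤ w)
    (h0 : ∀ p : ℕ, p.Prime → p ≤ w → nuB (DQ F) p = 0) (h0' : ∀ p : ℕ, p.Prime → p ≤ w → nuB (DQ F') p = 0)
    (h2 : ∀ p : ℕ, p.Prime → w < p → nuB (DQ F) p ≤ D) (h2' : ∀ p : ℕ, p.Prime → w < p → nuB (DQ F') p ≤ D)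
    (E : ℕ → Prop) (hE : ∀ p : ℕ, p.Prime → w < p → ∀ n, p ∣ F n → p ∣ F' n → E p) :
    Vq (QPP F F') y ≤ Vq (DQ F) y * Vq (DQ F') y * tD w y D E := by
  classical
  unfold Vq tD
  rw [← prod_mul_distrib, ← prod_mul_distrib]
  apply Finset.prod_le_prod
  · intro p hp
    have hpp := (mem_pz.1 hp).2
    have hp0 : (0 : ℝ) < p := by exact_mod_cast hpp.pos
    have g1 : nuB (QPP F F') p ≤ p := by
      unfold nuB
      exact (card_filter_le _ _).trans (by rw [card_range])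
    have g2 : (nuB (QPP F F') p : ℝ) / p ≤ 1 := by
      rw [div_le_one hp0]
      exact_mod_cast g1
    linarith
  · intro p hp
    have hpp := (mem_pz.1 hp).2
    have hp0 : (0 : ℝ) < p := by exact_mod_cast hpp.pos
    have hν0 : (0 : ℝ) ≤ (nuB (QPP F F') p : ℝ) / p := by positivity
    by_cases hpw : p ≤ w
    · rw [h0 p hpp hpw, h0' p hpp hpw, if_neg (by omega)]
      simp only [Nat.cast_zero, zero_div, sub_zero, mul_one]
      linarith
    · have hwp : w < p := by omega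
      obtain ⟨a, ha⟩ : ∃ a : ℝ, a = (nuB (DQ F) p : ℝ) / p := ⟨_, rfl⟩
      obtain ⟨b, hb⟩ : ∃ b : ℝ, b = (nuB (DQ F') p : ℝ) / p := ⟨_, rfl⟩
      obtain ⟨t, ht⟩ : ∃ t : ℝ, t = (D : ℝ) / p := ⟨_, rfl⟩
      have ha0 : 0 ≤ a := by rw [ha]; positivity
      have hb0 : 0 ≤ b := by rw [hb]; positivity
      have ht0 : 0 ≤ t := by rw [ht]; positivity
      have ha2 : a ≤ t := by
        rw [ha, ht]
        exact div_le_div_of_nonneg_right (by exact_mod_cast h2 p hpp hwp) hp0.le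
      have hb2 : b ≤ t := by
        rw [hb, ht]
        exact div_le_div_of_nonneg_right (by exact_mod_cast h2' p hpp hwp) hp0.le
      have ht2 : t ≤ 1 / 2 := by
        rw [ht, div_le_div_iff₀ hp0 (by norm_num)]
        have : 2 * D ≤ p := by omega
        have : (2 : ℝ) * D ≤ p := by exact_mod_cast this
        linarith
      rw [← ha, ← hb]
      by_cases hEp : E p
      · rw [if_pos ⟨hwp, hEp⟩]
        have g1 : a ≤ (nuB (QPP F F') p : ℝ) / p := by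
          rw [ha]
          exact div_le_div_of_nonneg_right (by exact_mod_cast nuB_le_QPP F F' p) hp0.le
        have e14 : 14 * (D : ℝ) / (p : ℝ) = 14 * t := by rw [ht]; ring
        rw [e14]
        have hinv : 1 ≤ (1 - b) * (1 + 14 * t) := by
          have h3 : (1 - t) * (1 + 14 * t) ≤ (1 - b) * (1 + 14 * t) :=
            mul_le_mul_of_nonneg_right (by linarith) (by linarith)
          nlinarith
        calc 1 - (nuB (QPP F F') p : ℝ) / p ≤ 1 - a := by linarith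
          _ = (1 - a) * 1 := by ring
          _ ≤ (1 - a) * ((1 - b) * (1 + 14 * t)) := mul_le_mul_of_nonneg_left hinv (by linarith)
          _ = _ := by ring
      · rw [if_neg (fun h => hEp h.2), mul_one]
        have g1 : (nuB (QPP F F') p : ℝ) / p = a + b := by
          rw [nuB_QPP_eq F F' p (fun n h1 h2 => hEp (hE p hpp hwp n h1 h2)), ha, hb]
          push_cast
          ring
        rw [g1]
        nlinarith [mul_nonneg ha0 hb0]

open Classical in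
lemma tD_le (w y c M : ℕ) (E : ℕ → Prop) (hM : ∀ p : ℕ, p.Prime → w < p → E p → p ≤ M) :
    tD w y c E ≤ ∏ p ∈ Pw w M, (1 + if E p then 14 * (c : ℝ) / (p : ℝ) else 0) := by
  unfold tD
  calc ∏ p ∈ pz y, (if w < p ∧ E p then 1 + 14 * (c : ℝ) / (p : ℝ) else 1)
      = ∏ p ∈ (pz y).filter (fun p => w < p ∧ E p), (1 + 14 * (c : ℝ) / (p : ℝ)) := (prod_filter _ _).symm
    _ ≤ ∏ p ∈ (Pw w M).filter (fun p => E p), (1 + 14 * (c : ℝ) / (p : ℝ)) := by
        apply Pool.Agent.R490.GPg.prod_mono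
        · intro p hp
          rw [mem_filter] at hp ⊢
          have hpp := (mem_pz.1 hp.1).2
          exact ⟨mem_Pw.2 ⟨hp.2.1, hM p hpp hp.2.1 hp.2.2, hpp⟩, hp.2.2⟩
        · intro p _
          have : (0 : ℝ) ≤ 14 * (c : ℝ) / (p : ℝ) := by positivity
          linarith
    _ = _ := by
        rw [prod_filter]
        apply prod_congr rfl
        intro p _
        split_ifs <;> simp

open Classical in
/-- the products on average -/
theorem sum_tD (w y M K D c : ℕ) (J : Finset ℕ) (E : ℕ → ℕ → Prop)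
    (hM : ∀ j ∈ J, ∀ p : ℕ, p.Prime → w < p → E j p → p ≤ M)
    (hc : ∀ T ⊆ Pw w M, ((J.filter (fun j => ∀ p ∈ T, E j p)).card : ℝ) ≤
      (D : ℝ) ^ T.card * (K / (∏ p ∈ T, (p : ℝ)) + 1)) :
    ∑ j ∈ J, (tD w y c (E j) - 1) ≤
      K * (∏ p ∈ Pw w M, (1 + 14 * ((c * D : ℕ) : ℝ) / (p : ℝ) ^ 2) - 1) +
        ∏ p ∈ Pw w M, (1 + 14 * ((c * D : ℕ) : ℝ) / (p : ℝ)) := by
  have hE : ∅ ∈ (Pw w M).powerset := empty_mem_powerset _
  have h1 : ∀ j ∈ J, tD w y c (E j) - 1 ≤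
      ∑ T ∈ (Pw w M).powerset.erase ∅, (∏ p ∈ T, 14 * (c : ℝ) / (p : ℝ)) * (if ∀ p ∈ T, E j p then 1 else 0) := by
    intro j hj
    have a1 := tD_le w y c M (E j) (hM j hj)
    rw [expandE, ← add_sum_erase _ _ hE] at a1
    simp only [prod_empty, notMem_empty, false_imp_iff, implies_true, if_true, mul_one] at a1
    linarith
  refine (sum_le_sum h1).trans ?_
  rw [sum_comm]
  have h2 : ∀ T ∈ (Pw w M).powerset.erase ∅,
      ∑ j ∈ J, (∏ p ∈ T, 14 * (c : ℝ) / (p : ℝ)) * (if ∀ p ∈ T, E j p then 1 else 0) ≤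
        K * (∏ p ∈ T, (14 * ((c * D : ℕ) : ℝ) / (p : ℝ) ^ 2)) + ∏ p ∈ T, (14 * ((c * D : ℕ) : ℝ) / (p : ℝ)) := by
    intro T hT
    rw [mem_erase, mem_powerset] at hT
    rw [← mul_sum]
    have e1 : ∑ j ∈ J, (if ∀ p ∈ T, E j p then (1 : ℝ) else 0) =
        ((J.filter (fun j => ∀ p ∈ T, E j p)).card : ℝ) := by
      rw [card_filter]
      push_cast
      rfl
    rw [e1]
    have a1 := mul_le_mul_of_nonneg_left (hc T hT.2)
      (prod_nonneg (s := T) (f := fun p : ℕ => 14 * (c : ℝ) / (p : ℝ)) fun p _ => by positivity)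
    refine a1.trans (le_of_eq ?_)
    have e2 : ∏ p ∈ T, (14 * ((c * D : ℕ) : ℝ) / (p : ℝ)) =
        (∏ p ∈ T, 14 * (c : ℝ) / (p : ℝ)) * (D : ℝ) ^ T.card := by
      rw [← prod_const, ← prod_mul_distrib]
      apply prod_congr rfl
      intro p _
      push_cast
      ring
    have e3 : ∏ p ∈ T, (14 * ((c * D : ℕ) : ℝ) / (p : ℝ) ^ 2) =
        (∏ p ∈ T, (14 * ((c * D : ℕ) : ℝ) / (p : ℝ))) / ∏ p ∈ T, (p : ℝ) := by
      rw [← prod_div_distrib]
      apply prod_congr rfl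
      intro p _
      rw [sq, div_div]
    rw [e3, e2]
    ring
  refine (sum_le_sum h2).trans ?_
  rw [sum_add_distrib, ← mul_sum]
  have e1 : ∑ T ∈ (Pw w M).powerset.erase ∅, ∏ p ∈ T, (14 * ((c * D : ℕ) : ℝ) / (p : ℝ) ^ 2) =
      ∏ p ∈ Pw w M, (1 + 14 * ((c * D : ℕ) : ℝ) / (p : ℝ) ^ 2) - 1 := by
    rw [prod_one_add, ← add_sum_erase _ _ hE, prod_empty]
    ring
  have e2 : ∑ T ∈ (Pw w M).powerset.erase ∅, ∏ p ∈ T, (14 * ((c * D : ℕ) : ℝ) / (p : ℝ)) =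
      ∏ p ∈ Pw w M, (1 + 14 * ((c * D : ℕ) : ℝ) / (p : ℝ)) - 1 := by
    rw [prod_one_add, ← add_sum_erase _ _ hE, prod_empty]
    ring
  rw [e1, e2]
  linarith

/-! ### The data of a family -/

/-- the values of the members -/
noncomputable def FP (F : ℕ → ℤ[X]) (j : ℕ) : ℕ → ℕ := fun n => ((F j).eval (n : ℤ)).natAbs

/-- the members in a class -/
noncomputable def FCP (F : ℕ → ℤ[X]) (W n0 j : ℕ) : ℕ → ℕ := fun m => FP F j (n0 + W * m)

/-- the data of a family -/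
structure DatP (F : ℕ → ℤ[X]) (G : ℕ → ℕ → Prop) (bad : ℕ → ℕ → Prop) (D D0 d w0 : ℕ) : Prop where
  deg : ∀ j, (F j).natDegree ≤ D
  loc : ∀ j, 1 ≤ j → ∀ p : ℕ, p.Prime → w0 < p → (F j).map (Int.castRingHom (ZMod p)) ≠ 0
  col : ∀ K j j', 1 ≤ j → j ≤ K → 1 ≤ j' → j' ≤ K → G K j → G K j' → ¬ bad j j' →
    ∀ n p : ℕ, p.Prime → p ∣ FP F j n → p ∣ FP F j' n → p ≤ (K + 1) ^ D0
  b1 : ∀ K j, 1 ≤ j → j ≤ K → G K j → ∀ S : Finset ℕ, (∀ j' ∈ S, 1 ≤ j' ∧ j' ≤ K ∧ G K j' ∧ bad j j') → S.card ≤ d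
  b2 : ∀ K j, 1 ≤ j → j ≤ K → G K j → ∀ S : Finset ℕ, (∀ j' ∈ S, 1 ≤ j' ∧ j' ≤ K ∧ G K j' ∧ bad j' j) → S.card ≤ d
  nz : ∀ K j, 1 ≤ j → j ≤ K → G K j → ∀ n : ℕ, (K + 1) ^ D0 ≤ n → 1 ≤ FP F j n
  sz : ∀ X j n : ℕ, 1 ≤ X → j ≤ X → n ≤ X → FP F j n ≤ (X + 1) ^ D0

variable {F : ℕ → ℤ[X]} {G : ℕ → ℕ → Prop} {bad : ℕ → ℕ → Prop} {D D0 d w0 : ℕ}

lemma FP_dvd (F : ℕ → ℤ[X]) (j n p : ℕ) : p ∣ FP F j n ↔ (p : ℤ) ∣ (F j).eval (n : ℤ) := by
  unfold FP
  exact Int.natCast_dvd.symm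

lemma FP_per (F : ℕ → ℤ[X]) (j p n n' : ℕ) (h : n ≡ n' [MOD p]) : p ∣ FP F j n ↔ p ∣ FP F j n' := by
  rw [FP_dvd, FP_dvd]
  have h1 := Pool.Agent.W123.RU.Poly.per1 (F j) p n
  have h2 := Pool.Agent.W123.RU.Poly.per1 (F j) p n'
  rw [h1, h2, h]

open Classical in
/-- the members without a small fixed divisor -/
noncomputable def JP (F : ℕ → ℤ[X]) (G : ℕ → ℕ → Prop) (w K n : ℕ) : Finset ℕ :=
  (Icc 1 K).filter (fun j => G K j ∧ ∀ p : ℕ, p.Prime → p ≤ w → ¬ p ∣ FP F j n)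

lemma JP_congr (F : ℕ → ℤ[X]) (G : ℕ → ℕ → Prop) (w K n n' : ℕ) (h : n ≡ n' [MOD Wp w]) :
    JP F G w K n = JP F G w K n' := by
  classical
  unfold JP
  apply filter_congr
  intro j _
  apply and_congr_right
  intro _
  apply forall_congr'
  intro p
  apply imp_congr_right
  intro hp
  apply imp_congr_right
  intro hw
  apply not_congr
  exact FP_per _ _ p n n' (h.of_dvd (dvd_Wp hp hw))

/-- a common prime divisor -/
def EvP (F : ℕ → ℤ[X]) (j j' p : ℕ) : Prop := ∃ n : ℕ, p ∣ FP F j n ∧ p ∣ FP F j' n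

open Classical in
/-- the excess of a pair -/
noncomputable def exP (F : ℕ → ℤ[X]) (G : ℕ → ℕ → Prop) (bad : ℕ → ℕ → Prop) (D w K y j j' : ℕ) : ℝ :=
  if bad j j' ∨ ¬ G K j ∨ ¬ G K j' then 0 else tD w y D (EvP F j j') - 1

lemma exP_nonneg (F : ℕ → ℤ[X]) (G : ℕ → ℕ → Prop) (bad : ℕ → ℕ → Prop) (D w K y j j' : ℕ) :
    0 ≤ exP F G bad D w K y j j' := by
  unfold exP
  split_ifs
  · exact le_rfl
  · have := one_le_tD w y D (EvP F j j')
    linarith

/-! ### The local conditions in a class -/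

lemma cls_zeroP (w K n0 j : ℕ) (hj : j ∈ JP F G w K n0) (p : ℕ) (hp : p.Prime) (hpw : p ≤ w) :
    nuB (DQ (FCP F (Wp w) n0 j)) p = 0 := by
  classical
  apply nuB_zero
  intro m hd
  have h1 : n0 + Wp w * m ≡ n0 [MOD p] := by
    have h2 : Wp w * m ≡ 0 [MOD p] := Nat.modEq_zero_iff_dvd.2 ((dvd_Wp hp hpw).mul_right m)
    simpa using h2.add_left n0
  have h3 := (FP_per F j p _ _ h1).1 hd
  exact (mem_filter.1 hj).2.2 p hp hpw h3

lemma cls_few (h : DatP F G bad D D0 d w0) (w n0 j : ℕ) (hj : 1 ≤ j) (hw0 : w0 ≤ w) (p : ℕ)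
    (hp : p.Prime) (hpw : w < p) : nuB (DQ (FCP F (Wp w) n0 j)) p ≤ D := by
  classical
  have h1 := (Pool.Agent.L0h41.PE.roots_le (F j) p hp (h.loc j hj p hp (by omega))).trans (h.deg j)
  refine le_trans ?_ h1
  unfold nuB
  apply card_le_card_of_injOn (fun m => (n0 + Wp w * m) % p)
  · intro m hm
    rw [mem_coe, mem_filter, mem_range] at hm
    rw [mem_coe, mem_filter, mem_range]
    refine ⟨Nat.mod_lt _ hp.pos, ?_⟩
    have h2 : p ∣ FP F j (n0 + Wp w * m) := hm.2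
    rw [← FP_dvd]
    exact (FP_per F j p _ _ (Nat.mod_modEq (n0 + Wp w * m) p).symm).1 h2
  · intro m hm m' hm' hmm
    rw [mem_coe, mem_filter, mem_range] at hm hm'
    have h2 : n0 + Wp w * m ≡ n0 + Wp w * m' [MOD p] := hmm
    have h3 : Wp w * m ≡ Wp w * m' [MOD p] := Nat.ModEq.add_left_cancel' n0 h2
    have hcop : Nat.gcd p (Wp w) = 1 := (Nat.Prime.coprime_iff_not_dvd hp).2 (not_dvd_Wp hp hpw)
    have h4 : m ≡ m' [MOD p] := Nat.ModEq.cancel_left_of_coprime hcop h3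
    have h5 : m % p = m' % p := h4
    rwa [Nat.mod_eq_of_lt hm.1, Nat.mod_eq_of_lt hm'.1] at h5

lemma cls_perP (h : DatP F G bad D D0 d w0) (w K n0 j : ℕ) (hw0 : w0 ≤ w)
    (hj : j ∈ JP F G w K n0) : PerB (DQ (FCP F (Wp w) n0 j)) D := by
  classical
  refine ⟨fun p n => ?_, fun p hp => ?_⟩
  · show p ∣ FP F j (n0 + Wp w * n) ↔ p ∣ FP F j (n0 + Wp w * (n % p))
    apply FP_per
    exact ((Nat.mod_modEq n p).symm.mul_left _).add_left _
  · by_cases hpw : p ≤ w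
    · rw [cls_zeroP w K n0 j hj p hp hpw]
      omega
    · exact cls_few h w n0 j (mem_Icc.1 (mem_filter.1 hj).1).1 hw0 p hp (by omega)

end Pool.Agent.L0h41.GN
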