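import Pool.Agent.L0h41.GN.E

set_option autoImplicit false

/-!
# Families of polynomials of any degree: one class
-/

namespace Pool.Agent.L0h41.GN

open Finset Filter Polynomial
open Pool.Agent.W123.RP Pool.Agent.H373R2.T7 Pool.Agent.W123.RU Pool.Agent.TH464.PO Pool.Agent.TH464.PW
open Pool.Agent.Y879.AP
open Pool.Agent.L0h41.LW Pool.Agent.L0h41.QN
open Pool.Agent.R490.LGb (Wp Wp_pos dvd_Wp not_dvd_Wp)

variable {F : ℕ → ℤ[X]} {G : ℕ → ℕ → Prop} {bad : ℕ → ℕ → Prop} {D D0 d w0 : ℕ}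

open Classical in
/-- the members with a value without small prime factors -/
noncomputable def GCP (F : ℕ → ℤ[X]) (G : ℕ → ℕ → Prop) (w K n0 m : ℕ) (v : ℝ) : Finset ℕ :=
  (JP F G w K n0).filter (fun j => ∀ p : ℕ, p.Prime → p ∣ FCP F (Wp w) n0 j m → v ≤ p)

set_option maxHeartbeats 4000000 in
open Classical in
/-- one class -/
theorem oneClsP (h : DatP F G bad D D0 d w0) (w K n0 X Z L B y g : ℕ) (v κ0 σ η C2 ε δ : ℝ)
    (hw0 : w0 ≤ w) (hwD : 2 * D ≤ w)
    (hmain : ∀ (F : ℕ → ℕ → ℕ) (α : ℕ → ℝ) (J : Finset ℕ) (bad : ℕ → ℕ → Prop),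
        FamG F α J bad D d y →
        (∀ j ∈ J, ∀ n ∈ Ioc Z (Z + L), 1 ≤ F j n ∧ F j n ≤ X ^ g) →
        0 < V1G F α J y →
        ∑ j ∈ J, α j ≤ Real.log X ^ B * V1G F α J y →
        V2G F α J bad y ≤ (1 + η) * V1G F α J y ^ 2 →
        S2G F α J y ≤ σ * V1G F α J y ^ 2 →
        (((Ioc Z (Z + L)).filter (fun n => ∑ j ∈ GoodR F J v n, α j < κ0 * V1G F α J y)).card : ℝ) ≤ ε * L)
    (hlow : ∀ Q : ℕ → ℕ → Prop, PerB Q D → (∀ p : ℕ, p.Prime → nuB Q p < p) → C2 ≤ Vq Q y) (hC2 : 0 < C2)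
    (hC2B : 1 / C2 ≤ Real.log X ^ B)
    (hcol : (K + 1) ^ D0 ≤ y)
    (hsz : ∀ j ∈ Icc 1 K, ∀ m ∈ Ioc Z (Z + L), FCP F (Wp w) n0 j m ≤ X ^ g)
    (hZ : (K + 1) ^ D0 ≤ Z) (hσ : 0 ≤ σ) (hη : 0 ≤ η) (hκ0 : 0 < κ0)
    (hδK : 0 < δ * K) (hJ : δ * K ≤ (JP F G w K n0).card)
    (hexc : ∑ j ∈ Icc 1 K, ∑ j' ∈ Icc 1 K, exP F G bad D w K y j j' ≤ η * (δ * K) ^ 2)
    (hσK : 1 / C2 ≤ σ * (δ * K)) :
    (((Ioc Z (Z + L)).filter (fun m => ((GCP F G w K n0 m v).card : ℝ) < κ0 * (δ * K) * C2)).card : ℝ) ≤ ε * L := by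
  obtain ⟨J, hJd⟩ : ∃ J, J = JP F G w K n0 := ⟨_, rfl⟩
  obtain ⟨f, hFd⟩ : ∃ f, f = FCP F (Wp w) n0 := ⟨_, rfl⟩
  obtain ⟨α, hα⟩ : ∃ α : ℕ → ℝ, α = fun j => (Vq (DQ (f j)) y)⁻¹ := ⟨_, rfl⟩
  have hsub : J ⊆ Icc 1 K := by rw [hJd]; exact filter_subset _ _
  have hG : ∀ j ∈ J, G K j := by
    intro j hj
    rw [hJd] at hj
    exact (mem_filter.1 hj).2.1
  have hW := Wp_pos w
  have hper : ∀ j ∈ J, PerB (DQ (f j)) D := by
    intro j hj
    rw [hFd]
    exact cls_perP h w K n0 j hw0 (by rw [← hJd]; exact hj)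
  have hVlow : ∀ j ∈ J, C2 ≤ Vq (DQ (f j)) y := by
    intro j hj
    apply hlow _ (hper j hj)
    intro p hp
    rw [hFd]
    by_cases hpw : p ≤ w
    · rw [cls_zeroP w K n0 j (by rw [← hJd]; exact hj) p hp hpw]
      exact hp.pos
    · refine lt_of_le_of_lt (cls_few h w n0 j (mem_Icc.1 (hsub hj)).1 hw0 p hp (by omega)) ?_
      have := hp.pos
      omega
  have hV0 : ∀ j ∈ J, 0 < Vq (DQ (f j)) y := fun j hj => lt_of_lt_of_le hC2 (hVlow j hj)
  have hα0 : ∀ j ∈ J, 0 < α j := by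
    intro j hj
    rw [hα]
    exact inv_pos.2 (hV0 j hj)
  have hαle : ∀ j ∈ J, α j ≤ 1 / C2 := by
    intro j hj
    rw [hα]
    show (Vq (DQ (f j)) y)⁻¹ ≤ _
    rw [one_div]
    exact inv_anti₀ hC2 (hVlow j hj)
  have hαV : ∀ j ∈ J, α j * Vq (DQ (f j)) y = 1 := by
    intro j hj
    rw [hα]
    exact inv_mul_cancel₀ (hV0 j hj).ne'
  have hV1 : V1G f α J y = J.card := by
    unfold V1G
    rw [sum_congr rfl hαV, sum_const, nsmul_eq_mul, mul_one]
  have hJ0 : δ * K ≤ (J.card : ℝ) := by rw [hJd]; exact hJ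
  have hJpos : (0 : ℝ) < J.card := lt_of_lt_of_le hδK hJ0
  have hfam : FamG f α J bad D d y := by
    refine ⟨hper, fun j hj => (hα0 j hj).le, ?_, ?_, ?_⟩
    · intro j hj j' hj' hs n p hp hyp h1 h2
      rw [hFd] at h1 h2
      have a1 := mem_Icc.1 (hsub hj)
      have a2 := mem_Icc.1 (hsub hj')
      have h3 := h.col K j j' a1.1 a1.2 a2.1 a2.2 (hG j hj) (hG j' hj') hs (n0 + Wp w * n) p hp h1 h2
      omega
    · intro j hj
      have a1 := mem_Icc.1 (hsub hj)
      apply h.b1 K j a1.1 a1.2 (hG j hj)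
      intro j' hj'
      rw [mem_filter] at hj'
      have a2 := mem_Icc.1 (hsub hj'.1)
      exact ⟨a2.1, a2.2, hG j' hj'.1, hj'.2⟩
    · intro j hj
      have a1 := mem_Icc.1 (hsub hj)
      apply h.b2 K j a1.1 a1.2 (hG j hj)
      intro j' hj'
      rw [mem_filter] at hj'
      have a2 := mem_Icc.1 (hsub hj'.1)
      exact ⟨a2.1, a2.2, hG j' hj'.1, hj'.2⟩
  have hαsum : ∑ j ∈ J, α j ≤ 1 / C2 * J.card := by
    refine (sum_le_sum hαle).trans (le_of_eq ?_)
    rw [sum_const, nsmul_eq_mul, mul_comm]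
  have key := hmain f α J bad hfam (by
      intro j hj m hm
      rw [hFd]
      refine ⟨?_, hsz j (hsub hj) m hm⟩
      have a1 := mem_Icc.1 (hsub hj)
      apply h.nz K j a1.1 a1.2 (hG j hj)
      have a2 := (mem_Ioc.1 hm).1
      have a3 : m ≤ Wp w * m := Nat.le_mul_of_pos_left _ hW
      omega) (by rw [hV1]; exact hJpos) (by
      rw [hV1]
      exact hαsum.trans (mul_le_mul_of_nonneg_right hC2B hJpos.le)) (by
      rw [hV1]
      have h1 : V2G f α J bad y ≤ ∑ j ∈ J, ∑ j' ∈ J, (1 + exP F G bad D w K y j j') := by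
        unfold V2G
        apply sum_le_sum
        intro j hj
        apply sum_le_sum
        intro j' hj'
        split_ifs with hs
        · have := exP_nonneg F G bad D w K y j j'
          linarith
        · have h2 := pair_leD (f j) (f j') w y D hwD (by
            intro p hp hpw
            rw [hFd]
            exact cls_zeroP w K n0 j (by rw [← hJd]; exact hj) p hp hpw) (by
            intro p hp hpw
            rw [hFd]
            exact cls_zeroP w K n0 j' (by rw [← hJd]; exact hj') p hp hpw) (by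
            intro p hp hpw
            rw [hFd]
            exact cls_few h w n0 j (mem_Icc.1 (hsub hj)).1 hw0 p hp hpw) (by
            intro p hp hpw
            rw [hFd]
            exact cls_few h w n0 j' (mem_Icc.1 (hsub hj')).1 hw0 p hp hpw) (EvP F j j') (by
            intro p hp hpw n h1 h2
            rw [hFd] at h1 h2
            exact ⟨_, h1, h2⟩)
          have h3 : exP F G bad D w K y j j' = tD w y D (EvP F j j') - 1 := by
            unfold exP
            rw [if_neg]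
            rintro (h4 | h4 | h4)
            · exact hs h4
            · exact h4 (hG j hj)
            · exact h4 (hG j' hj')
          rw [h3]
          calc α j * α j' * Vq (QPP (f j) (f j')) y ≤
              α j * α j' * (Vq (DQ (f j)) y * Vq (DQ (f j')) y * tD w y D (EvP F j j')) :=
                mul_le_mul_of_nonneg_left h2 (mul_nonneg (hα0 j hj).le (hα0 j' hj').le)
            _ = (α j * Vq (DQ (f j)) y) * (α j' * Vq (DQ (f j')) y) * tD w y D (EvP F j j') := by ring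
            _ = 1 + (tD w y D (EvP F j j') - 1) := by
                rw [hαV j hj, hαV j' hj']
                ring
      refine h1.trans ?_
      simp only [sum_add_distrib, sum_const, nsmul_eq_mul, mul_one]
      have h2 : ∑ j ∈ J, ∑ j' ∈ J, exP F G bad D w K y j j' ≤
          ∑ j ∈ Icc 1 K, ∑ j' ∈ Icc 1 K, exP F G bad D w K y j j' := by
        calc _ ≤ ∑ j ∈ J, ∑ j' ∈ Icc 1 K, exP F G bad D w K y j j' :=
              sum_le_sum fun j _ => sum_le_sum_of_subset_of_nonneg hsub (fun j' _ _ => exP_nonneg _ _ _ _ _ _ _ _ _)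
          _ ≤ _ := sum_le_sum_of_subset_of_nonneg hsub
                (fun j _ _ => sum_nonneg fun j' _ => exP_nonneg _ _ _ _ _ _ _ _ _)
      have h3 : (δ * K) ^ 2 ≤ (J.card : ℝ) ^ 2 := pow_le_pow_left₀ hδK.le hJ0 2
      have h4 : η * (δ * K) ^ 2 ≤ η * (J.card : ℝ) ^ 2 := mul_le_mul_of_nonneg_left h3 hη
      have e : (J.card : ℝ) * (J.card : ℝ) = (J.card : ℝ) ^ 2 := by ring
      rw [e]
      linarith) (by
      rw [hV1]
      have h1 : S2G f α J y = ∑ j ∈ J, α j := by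
        unfold S2G
        apply sum_congr rfl
        intro j hj
        rw [sq, mul_assoc, hαV j hj, mul_one]
      rw [h1]
      refine hαsum.trans ?_
      have h2 : 1 / C2 ≤ σ * J.card := hσK.trans (mul_le_mul_of_nonneg_left hJ0 hσ)
      calc 1 / C2 * (J.card : ℝ) ≤ (σ * J.card) * J.card := mul_le_mul_of_nonneg_right h2 hJpos.le
        _ = _ := by ring)
  refine le_trans ?_ key
  rw [hV1]
  have hh : ((Ioc Z (Z + L)).filter (fun m =>
      ((GCP F G w K n0 m v).card : ℝ) < κ0 * (δ * K) * C2)).card ≤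
      ((Ioc Z (Z + L)).filter (fun m => ∑ j ∈ GoodR f J v m, α j < κ0 * (J.card : ℝ))).card := by
    apply card_le_card
    intro m hm
    rw [mem_filter] at hm ⊢
    refine ⟨hm.1, ?_⟩
    have e : GoodR f J v m = GCP F G w K n0 m v := by
      unfold GoodR GCP
      rw [hFd, hJd]
    rw [e]
    have h1 : ∑ j ∈ GCP F G w K n0 m v, α j ≤ (GCP F G w K n0 m v).card * (1 / C2) := by
      rw [← nsmul_eq_mul, ← sum_const]
      apply sum_le_sum
      intro j hj
      apply hαle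
      unfold GCP at hj
      rw [hJd]
      exact (mem_filter.1 hj).1
    refine lt_of_le_of_lt h1 ?_
    rw [mul_one_div, div_lt_iff₀ hC2]
    refine hm.2.trans_le ?_
    have h2 : κ0 * (δ * K) ≤ κ0 * (J.card : ℝ) := mul_le_mul_of_nonneg_left hJ0 hκ0.le
    exact mul_le_mul_of_nonneg_right h2 hC2.le
  exact_mod_cast hh

end Pool.Agent.L0h41.GN
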