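import Pool.Agent.L0h41.GN.E2

set_option autoImplicit false

/-!
# Families of polynomials of any degree: all classes
-/

namespace Pool.Agent.L0h41.GN

open Finset Filter Polynomial
open Pool.Agent.W123.RP Pool.Agent.H373R2.T7 Pool.Agent.W123.RU Pool.Agent.TH464.PO Pool.Agent.TH464.PW
open Pool.Agent.Y879.AP
open Pool.Agent.L0h41.LW Pool.Agent.L0h41.QN
open Pool.Agent.R490.LGb (Wp Wp_pos dvd_Wp not_dvd_Wp)

variable {F : ℕ → ℤ[X]} {G : ℕ → ℕ → Prop} {bad : ℕ → ℕ → Prop} {D D0 d w0 : ℕ}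

/-! ### Small parameters -/

lemma Wp_le (w : ℕ) : (Wp w : ℝ) ≤ Real.exp (2 * w) := by
  have h1 : Wp w ≤ 4 ^ w := by
    refine le_trans (le_of_eq ?_) (primorial_le_four_pow w)
    unfold Wp primorial
    apply prod_congr _ (fun _ _ => rfl)
    ext p
    rw [mem_pz, mem_filter, mem_range]
    constructor
    · rintro ⟨a, b⟩
      exact ⟨by omega, b⟩
    · rintro ⟨a, b⟩
      exact ⟨by omega, b⟩
  have h2 : (4 : ℝ) ≤ Real.exp 2 := by
    have h3 : (2 : ℝ) ≤ Real.exp 1 := by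
      have := Real.add_one_le_exp (1 : ℝ)
      linarith
    have e : Real.exp 2 = Real.exp 1 * Real.exp 1 := by
      rw [← Real.exp_add]
      norm_num
    rw [e]
    nlinarith
  calc (Wp w : ℝ) ≤ ((4 ^ w : ℕ) : ℝ) := by exact_mod_cast h1
    _ = (4 : ℝ) ^ w := by push_cast; ring
    _ ≤ Real.exp 2 ^ w := pow_le_pow_left₀ (by norm_num) h2 w
    _ = Real.exp (2 * w) := by
        rw [← Real.exp_nat_mul]
        congr 1
        ring

lemma ll_ev (A : ℝ) (hA : 0 < A) (E : ℕ) (s : ℝ) (hs : 0 < s) :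
    ∀ᶠ X : ℕ in atTop, A * Real.log (Real.log X) ^ E ≤ Real.log X ^ s := by
  have tl : Tendsto (fun X : ℕ => Real.log (X : ℝ)) atTop atTop :=
    Real.tendsto_log_atTop.comp tendsto_natCast_atTop_atTop
  have h := ((isLittleO_log_rpow_rpow_atTop (E : ℝ) hs).comp_tendsto tl).bound (by positivity : (0 : ℝ) < 1 / A)
  filter_upwards [h, tl.eventually_ge_atTop 1] with X h2 hX1
  have hlog : 0 ≤ Real.log (Real.log (X : ℝ)) := Real.log_nonneg hX1
  simp only [Function.comp_apply, Real.rpow_natCast, Real.norm_eq_abs] at h2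
  rw [abs_of_nonneg (pow_nonneg hlog E), abs_of_nonneg (Real.rpow_nonneg (by linarith) s)] at h2
  calc A * Real.log (Real.log X) ^ E ≤ A * (1 / A * Real.log X ^ s) := mul_le_mul_of_nonneg_left h2 hA.le
    _ = Real.log X ^ s := by field_simp

/-- the parameters depending on `log K` are small -/
lemma par_ev (C s A κ : ℝ) (hC : 1 ≤ C) (hs : 0 < s) (hA : 0 < A) (hκ : 0 < κ) (E B : ℕ) :
    ∀ᶠ X : ℕ in atTop, ∀ K : ℕ, 1 ≤ K → (K : ℝ) ≤ Real.log X ^ B →
      (∀ w : ℕ, (w : ℝ) ≤ C * Real.log K ^ E → (Wp w : ℝ) ≤ (X : ℝ) ^ s) ∧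
      A * (C * Real.log K ^ E) ≤ Real.log X ^ κ := by
  have tl : Tendsto (fun X : ℕ => Real.log (X : ℝ)) atTop atTop :=
    Real.tendsto_log_atTop.comp tendsto_natCast_atTop_atTop
  have e1 := ll_ev ((2 * C / s) * ((B : ℝ) + 1) ^ E) (by positivity) E 1 one_pos
  have e2 := ll_ev (A * C * ((B : ℝ) + 1) ^ E) (by positivity) E κ hκ
  filter_upwards [e1, e2, tl.eventually_ge_atTop 3, eventually_ge_atTop 2] with X h1 h2 h3 h4
  intro K hK1 hK
  have hX0 : (0 : ℝ) < X := by exact_mod_cast (by omega : 0 < X)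
  have hKr : (1 : ℝ) ≤ K := by exact_mod_cast hK1
  have hlX : 0 < Real.log X := by linarith
  have hll : 0 ≤ Real.log (Real.log X) := Real.log_nonneg (by linarith)
  have hlK0 : 0 ≤ Real.log K := Real.log_nonneg hKr
  have hlK : Real.log K ≤ ((B : ℝ) + 1) * Real.log (Real.log X) := by
    have a1 : Real.log K ≤ Real.log (Real.log X ^ B) := Real.log_le_log (by linarith) hK
    rw [Real.log_pow] at a1
    nlinarith
  have hp : Real.log K ^ E ≤ ((B : ℝ) + 1) ^ E * Real.log (Real.log X) ^ E := by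
    rw [← mul_pow]
    exact pow_le_pow_left₀ hlK0 hlK E
  constructor
  · intro w hw
    refine (Wp_le w).trans ?_
    rw [Real.rpow_def_of_pos hX0]
    apply Real.exp_le_exp.2
    rw [Real.rpow_one] at h1
    have a2 : 2 * (w : ℝ) ≤ 2 * C * (((B : ℝ) + 1) ^ E * Real.log (Real.log X) ^ E) := by
      have := mul_le_mul_of_nonneg_left hp (by linarith : (0 : ℝ) ≤ C)
      linarith
    refine a2.trans ?_
    have a3 := mul_le_mul_of_nonneg_right h1 hs.le
    have e : 2 * C / s * ((B : ℝ) + 1) ^ E * Real.log (Real.log X) ^ E * s =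
        2 * C * (((B : ℝ) + 1) ^ E * Real.log (Real.log X) ^ E) := by
      field_simp
    rw [e] at a3
    exact a3
  · refine le_trans ?_ h2
    have := mul_le_mul_of_nonneg_left hp (by positivity : (0 : ℝ) ≤ A * C)
    linarith

/-! ### The classes -/

open Classical in
/-- the number of the members with a value without small prime factors -/
noncomputable def cntP (F : ℕ → ℤ[X]) (G : ℕ → ℕ → Prop) (K n : ℕ) (v : ℝ) : ℕ :=
  ((Icc 1 K).filter (fun j => G K j ∧ 1 ≤ FP F j n ∧ ∀ p : ℕ, p.Prime → p ∣ FP F j n → v ≤ p)).card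

open Classical in
/-- the exceptional `n` of a class -/
lemma cls_cardP (h : DatP F G bad D D0 d w0) (w K n0 Z L Z' : ℕ) (v t : ℝ) (hZ1 : Z / Wp w ≤ Z' + 1)
    (hZ2 : (K + 1) ^ D0 ≤ Z') :
    ((Ioc Z (Z + L)).filter (fun n => n % Wp w = n0 ∧ Wp w * (Z' + 1) ≤ n ∧ (cntP F G K n v : ℝ) < t)).card ≤
      ((Ioc Z' (Z' + (L / Wp w + 2))).filter (fun m => ((GCP F G w K n0 m v).card : ℝ) < t)).card := by
  have hW := Wp_pos w
  apply card_le_card_of_injOn (fun n => n / Wp w)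
  · intro n hn
    rw [mem_coe, mem_filter, mem_Ioc] at hn
    obtain ⟨⟨h1, h2⟩, h3, h4, h6⟩ := hn
    have hnm : n = n0 + Wp w * (n / Wp w) := by
      have := Nat.mod_add_div n (Wp w)
      omega
    beta_reduce
    rw [mem_coe, mem_filter, mem_Ioc]
    have hm1 : Z' + 1 ≤ n / Wp w := by
      rw [Nat.le_div_iff_mul_le hW, mul_comm]
      exact h4
    have hm3 : n / Wp w ≤ Z / Wp w + L / Wp w + 1 := by
      have g1 : n / Wp w ≤ (Z + L) / Wp w := Nat.div_le_div_right h2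
      have g2 : (Z + L) / Wp w < Z / Wp w + L / Wp w + 1 + 1 := by
        rw [Nat.div_lt_iff_lt_mul hW]
        have h8 : Z = Wp w * (Z / Wp w) + Z % Wp w := (Nat.div_add_mod _ _).symm
        have h9 : L = Wp w * (L / Wp w) + L % Wp w := (Nat.div_add_mod _ _).symm
        have h10 := Nat.mod_lt Z hW
        have h11 := Nat.mod_lt L hW
        have e : (Z / Wp w + L / Wp w + 1 + 1) * Wp w = Wp w * (Z / Wp w) + Wp w * (L / Wp w) + Wp w + Wp w := by
          ring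
        rw [e]
        omega
      omega
    refine ⟨⟨by omega, by omega⟩, ?_⟩
    refine lt_of_le_of_lt ?_ h6
    have h7 : (GCP F G w K n0 (n / Wp w) v).card ≤ cntP F G K n v := by
      unfold GCP cntP
      apply card_le_card
      intro j hj
      rw [mem_filter] at hj ⊢
      obtain ⟨g1, g2⟩ := hj
      have g4 := mem_filter.1 g1
      have g5 := mem_Icc.1 g4.1
      have hval : FCP F (Wp w) n0 j (n / Wp w) = FP F j n := by
        show FP F j (n0 + Wp w * (n / Wp w)) = FP F j n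
        rw [← hnm]
      rw [hval] at g2
      refine ⟨g4.1, g4.2.1, ?_, g2⟩
      apply h.nz K j g5.1 g5.2 g4.2.1
      have g6 : n / Wp w ≤ n := Nat.div_le_self _ _
      omega
    exact_mod_cast h7
  · intro n hn n' hn' hab
    rw [mem_coe, mem_filter] at hn hn'
    simp only at hab
    have e1 := Nat.mod_add_div n (Wp w)
    have e2 := Nat.mod_add_div n' (Wp w)
    rw [hn.2.1, hab] at e1
    rw [hn'.2.1] at e2
    omega

open Classical in
/-- the sum over the classes -/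
lemma all_classesP (Adm : ℕ → Prop) (w K Z L Z' n1 : ℕ) (ε t v : ℝ) (hε : 0 < ε)
    (hn1 : (n1 : ℝ) ≤ ε * L) (hn1W : 2 * Wp w ≤ n1) (hε1 : ε ≤ 1)
    (hn1Z : ∀ n, Z < n → n1 < n → Wp w * (Z' + 1) ≤ n)
    (h : ∀ n0 < Wp w, (((Ioc Z (Z + L)).filter (fun n => Adm n ∧ n % Wp w = n0 ∧ Wp w * (Z' + 1) ≤ n ∧
      (cntP F G K n v : ℝ) < t)).card : ℝ) ≤ ε * ((L / Wp w + 2 : ℕ) : ℝ)) :
    (((Ioc Z (Z + L)).filter (fun n => Adm n ∧ (cntP F G K n v : ℝ) < t)).card : ℝ) ≤ 3 * ε * L := by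
  have hW := Wp_pos w
  have hsub : (Ioc Z (Z + L)).filter (fun n => Adm n ∧ (cntP F G K n v : ℝ) < t) ⊆
      Ioc 0 n1 ∪ (range (Wp w)).biUnion (fun n0 => (Ioc Z (Z + L)).filter (fun n =>
        Adm n ∧ n % Wp w = n0 ∧ Wp w * (Z' + 1) ≤ n ∧ (cntP F G K n v : ℝ) < t)) := by
    intro n hn
    rw [mem_filter, mem_Ioc] at hn
    obtain ⟨⟨h1, h2⟩, h3, h4⟩ := hn
    rw [mem_union]
    by_cases hc : n ≤ n1
    · left
      rw [mem_Ioc]
      omega
    · right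
      rw [mem_biUnion]
      refine ⟨n % Wp w, mem_range.2 (Nat.mod_lt n hW), ?_⟩
      rw [mem_filter, mem_Ioc]
      exact ⟨⟨h1, h2⟩, h3, rfl, hn1Z n h1 (by omega), h4⟩
  have h1 : (((Ioc Z (Z + L)).filter (fun n => Adm n ∧ (cntP F G K n v : ℝ) < t)).card : ℝ) ≤
      n1 + ∑ n0 ∈ range (Wp w), ε * ((L / Wp w + 2 : ℕ) : ℝ) := by
    have a1 := (card_le_card hsub).trans ((card_union_le _ _).trans (Nat.add_le_add_left card_biUnion_le _))
    rw [Nat.card_Ioc, Nat.sub_zero] at a1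
    have a2 : (((Ioc Z (Z + L)).filter (fun n => Adm n ∧ (cntP F G K n v : ℝ) < t)).card : ℝ) ≤
        n1 + ∑ n0 ∈ range (Wp w), (((Ioc Z (Z + L)).filter (fun n =>
        Adm n ∧ n % Wp w = n0 ∧ Wp w * (Z' + 1) ≤ n ∧ (cntP F G K n v : ℝ) < t)).card : ℝ) := by
      exact_mod_cast a1
    refine a2.trans ?_
    apply add_le_add le_rfl
    exact sum_le_sum fun a ha => h a (mem_range.1 ha)
  rw [sum_const, card_range, nsmul_eq_mul] at h1
  have h2 : (Wp w : ℝ) * ((L / Wp w + 2 : ℕ) : ℝ) ≤ L + 2 * Wp w := by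
    have : Wp w * (L / Wp w + 2) ≤ L + 2 * Wp w := by
      have := Nat.mul_div_le L (Wp w)
      rw [mul_add]
      omega
    exact_mod_cast this
  have h3 : 2 * (Wp w : ℝ) ≤ n1 := by exact_mod_cast hn1W
  have hL0 : (0 : ℝ) ≤ L := Nat.cast_nonneg _
  have h4 : ε * (L : ℝ) ≤ L := mul_le_of_le_one_left hL0 hε1
  have h5 : (Wp w : ℝ) * (ε * ((L / Wp w + 2 : ℕ) : ℝ)) ≤ ε * (L + L) := by
    have e : (Wp w : ℝ) * (ε * ((L / Wp w + 2 : ℕ) : ℝ)) = ε * ((Wp w : ℝ) * ((L / Wp w + 2 : ℕ) : ℝ)) := by ring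
    rw [e]
    apply mul_le_mul_of_nonneg_left _ hε.le
    linarith
  linarith

/-- the sizes of the values -/
lemma FCP_size (h : DatP F G bad D D0 d w0) (w n0 Z L Z' X V j m : ℕ) (hn0 : n0 < Wp w) (hZL : Z + L ≤ X)
    (hZ' : Z' ≤ Z / Wp w + V) (hV : Wp w * (V + 3) ≤ X) (hX : 3 ≤ X) (hjX : j ≤ X)
    (hm : m ∈ Ioc Z' (Z' + (L / Wp w + 2))) : FCP F (Wp w) n0 j m ≤ X ^ (2 * D0) := by
  have hW := Wp_pos w
  rw [mem_Ioc] at hm
  have h5 : n0 + Wp w * m ≤ 2 * X := by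
    have a1 : Wp w * m ≤ Wp w * (Z / Wp w + V + (L / Wp w + 2)) := Nat.mul_le_mul_left _ (by omega)
    have a2 : Wp w * (Z / Wp w) ≤ Z := Nat.mul_div_le _ _
    have a3 : Wp w * (L / Wp w) ≤ L := Nat.mul_div_le _ _
    have a4 : Wp w * (Z / Wp w + V + (L / Wp w + 2)) =
      Wp w * (Z / Wp w) + Wp w * (L / Wp w) + (Wp w * (V + 3)) - Wp w := by
      have : Wp w * (Z / Wp w + V + (L / Wp w + 2)) + Wp w =
        Wp w * (Z / Wp w) + Wp w * (L / Wp w) + (Wp w * (V + 3)) := by ring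
      omega
    have a5 : Wp w ≤ Wp w * (V + 3) := Nat.le_mul_of_pos_right _ (by omega)
    omega
  have h6 := h.sz (2 * X) j (n0 + Wp w * m) (by omega) (by omega) h5
  refine h6.trans ?_
  rw [pow_mul]
  apply Nat.pow_le_pow_left
  nlinarith

set_option maxHeartbeats 4000000 in
open Classical in
/-- **Families of polynomials: almost all `n` have many members with a value without small prime factors.** -/
theorem mainP (D d : ℕ) (hD : 1 ≤ D) (θ : ℝ) (hθ : 0 < θ) (hθ1 : θ ≤ 1) : ∃ δ0 : ℝ, 0 < δ0 ∧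
    ∀ (F : ℕ → ℤ[X]) (G : ℕ → ℕ → Prop) (bad : ℕ → ℕ → Prop) (D0 w0 : ℕ) (_ : DatP F G bad D D0 d w0)
    (Adm : ℕ → Prop)
    (_ : ∀ η : ℝ, 0 < η → ∃ (E K0 : ℕ) (C : ℝ), 1 ≤ C ∧ ∀ K : ℕ, K0 ≤ K → ∃ (w : ℕ) (δ : ℝ),
      w0 ≤ w ∧ 2 * D ≤ w ∧ (w : ℝ) ≤ C * Real.log K ^ E ∧ 0 < δ ∧ 1 ≤ δ * (C * Real.log K ^ E) ∧
      (∀ y : ℕ, ∑ j ∈ Icc 1 K, ∑ j' ∈ Icc 1 K, exP F G bad D w K y j j' ≤ η * (δ * K) ^ 2) ∧
      (∀ n : ℕ, Adm n → δ * K ≤ (JP F G w K n).card)),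
    ∀ (ε κ : ℝ) (B : ℕ), 0 < κ → 0 < ε → ∀ᶠ X : ℕ in atTop, ∀ Z L K : ℕ, (X : ℝ) ^ θ ≤ L → Z + L ≤ X →
      Real.log X ^ ((D : ℝ) + κ) ≤ K → (K : ℝ) ≤ Real.log X ^ B →
      (((Ioc Z (Z + L)).filter (fun n => Adm n ∧
        (cntP F G K n ((X : ℝ) ^ δ0) : ℝ) * Real.log X ^ ((D : ℝ) + κ) < K)).card : ℝ) ≤ ε * L := by
  obtain ⟨δ0, hδ0, H⟩ := mainB D d hD (θ / 2) (by linarith) (by linarith)
  refine ⟨δ0, hδ0, ?_⟩
  intro F G bad D0 w0 hdat Adm hAvg ε κ B hκ hε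
  obtain ⟨ε1, hε1⟩ : ∃ ε1, ε1 = min (ε / 3) 1 := ⟨_, rfl⟩
  have hε10 : 0 < ε1 := by rw [hε1]; exact lt_min (by positivity) one_pos
  have hε11 : ε1 ≤ 1 := by rw [hε1]; exact min_le_right _ _
  have hε13 : 3 * ε1 ≤ ε := by
    have : ε1 ≤ ε / 3 := by rw [hε1]; exact min_le_left _ _
    linarith
  obtain ⟨r, κ0, σ, η, hr2, hκ0, hσ, hη, hmain⟩ := H (2 * D0) ε1 hε10 hε11
  obtain ⟨E, K0, C, hC1, hKK⟩ := hAvg η hη
  obtain ⟨κ1, hκ1, hlow⟩ := Pool.Agent.R490.LGe.vq_low D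
  obtain ⟨cz, Cz, hcz, hCz, hV⟩ := Vz_bounds
  obtain ⟨c2, hc2⟩ : ∃ c2 : ℝ, c2 = κ1 * cz ^ D := ⟨_, rfl⟩
  have hc20 : 0 < c2 := by rw [hc2]; positivity
  have hr0 : (0 : ℝ) < r := by exact_mod_cast (by omega : 0 < r)
  have tl : Tendsto (fun X : ℕ => Real.log (X : ℝ)) atTop atTop :=
    Real.tendsto_log_atTop.comp tendsto_natCast_atTop_atTop
  have tp : ∀ e : ℝ, 0 < e → Tendsto (fun X : ℕ => (X : ℝ) ^ e) atTop atTop := fun e he =>
    (tendsto_rpow_atTop he).comp tendsto_natCast_atTop_atTop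
  have e1 := hmain (D + 1)
  have e2 := par_ev C (θ / 4) (1 / (σ * c2) + 1 / (κ0 * c2)) κ hC1 (by positivity) (by positivity) hκ E B
  have e3 := tl.eventually_ge_atTop ((K0 : ℝ) + 1 / c2 + 1)
  have e4 := logpow_rpow (B * D0) (2 ^ D0) (1 / (r : ℝ)) (by positivity) (by positivity)
  have e5 := logpow_rpow (B * D0) ((2 ^ D0 + 5) / ε1) (θ / 4) (by positivity) (by positivity)
  have e6 := logpow_rpow B 1 1 one_pos one_pos
  have e7 := (tp (1 / (r : ℝ)) (by positivity)).eventually_ge_atTop 2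
  filter_upwards [e1, e2, e3, e4, e5, e6, e7, eventually_ge_atTop 3] with X f1 f2 f3 f4 f5 f6 f7 f8
  clear e1 e2 e3 e4 e5 e6 e7
  intro Z L K hXL hZL hK1 hK2
  obtain ⟨y, hy⟩ : ∃ y, y = ⌊(X : ℝ) ^ (1 / (r : ℝ))⌋₊ := ⟨_, rfl⟩
  rw [← hy] at f1
  have hX0 : (0 : ℝ) < X := by exact_mod_cast (by omega : 0 < X)
  have hX1 : (1 : ℝ) ≤ X := by exact_mod_cast (by omega : 1 ≤ X)
  have hK00 : (0 : ℝ) ≤ K0 := Nat.cast_nonneg _
  have hc2i : 0 < 1 / c2 := by positivity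
  have hlX : 1 ≤ Real.log X := by linarith
  have hlX0 : 0 < Real.log X := by linarith
  have hyX : y ≤ X := by
    rw [hy]
    apply Nat.floor_le_of_le
    calc (X : ℝ) ^ (1 / (r : ℝ)) ≤ (X : ℝ) ^ (1 : ℝ) := by
          apply Real.rpow_le_rpow_of_exponent_le hX1
          rw [div_le_one hr0]
          exact_mod_cast (by omega : 1 ≤ r)
      _ = X := Real.rpow_one _
  have hy2 : 2 ≤ y := by
    rw [hy]
    apply Nat.le_floor
    exact_mod_cast f7
  have hlDκ : Real.log X ≤ Real.log X ^ ((D : ℝ) + κ) := by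
    have hD1 : (1 : ℝ) ≤ D := by exact_mod_cast hD
    calc Real.log X = Real.log X ^ (1 : ℝ) := (Real.rpow_one _).symm
      _ ≤ _ := Real.rpow_le_rpow_of_exponent_le hlX (by linarith)
  have hKK0 : K0 ≤ K := by
    have : (K0 : ℝ) ≤ K := by linarith
    exact_mod_cast this
  have hKr1 : (1 : ℝ) ≤ K := by linarith
  have hK1n : 1 ≤ K := by exact_mod_cast hKr1
  have hK0 : (0 : ℝ) < K := by linarith
  have hKX : K ≤ X := by
    rw [one_mul, Real.rpow_one] at f6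
    exact_mod_cast hK2.trans f6
  obtain ⟨w, δ, hw0, hwD, hwC, hδ, hδC, g1, g2⟩ := hKK K hKK0
  obtain ⟨q1, q2⟩ := f2 K hK1n hK2
  have q1 := q1 w hwC
  have hδK : 0 < δ * K := by positivity
  have hW := Wp_pos w
  have hW0 : (0 : ℝ) < Wp w := by exact_mod_cast hW
  -- the density
  obtain ⟨C2, hC2⟩ : ∃ C2 : ℝ, C2 = c2 / Real.log X ^ D := ⟨_, rfl⟩
  have hC20 : 0 < C2 := by rw [hC2]; positivity
  have hC2i : 1 / C2 = 1 / c2 * Real.log X ^ D := by
    rw [hC2]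
    field_simp
  have hlow2 : ∀ Q : ℕ → ℕ → Prop, PerB Q D → (∀ p : ℕ, p.Prime → nuB Q p < p) → C2 ≤ Vq Q y := by
    intro Q hQ hQ2
    refine le_trans ?_ (hlow Q hQ hQ2 y)
    have a1 : cz / Real.log X ≤ Vz y := by
      refine le_trans ?_ (hV y hy2).1
      have hly : 0 < Real.log y := Real.log_pos (by exact_mod_cast (by omega : 1 < y))
      apply div_le_div_of_nonneg_left hcz.le hly
      apply Real.log_le_log (by exact_mod_cast (by omega : 0 < y))
      exact_mod_cast hyX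
    have a2 := pow_le_pow_left₀ (by positivity) a1 D
    have a3 := mul_le_mul_of_nonneg_left a2 hκ1.le
    refine le_trans (le_of_eq ?_) a3
    rw [hC2, hc2, div_pow]
    ring
  have hC2B : 1 / C2 ≤ Real.log X ^ (D + 1) := by
    rw [hC2i, pow_succ, mul_comm]
    apply mul_le_mul_of_nonneg_left _ (by positivity)
    linarith
  have hKD : Real.log X ^ D * Real.log X ^ κ ≤ K := by
    refine le_trans (le_of_eq ?_) hK1
    rw [← Real.rpow_natCast, ← Real.rpow_add hlX0]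
  -- `δ K` is large
  have hCE0 : 0 < C * Real.log K ^ E := by
    by_contra hcon
    push Not at hcon
    have : δ * (C * Real.log K ^ E) ≤ 0 := mul_nonpos_of_nonneg_of_nonpos hδ.le hcon
    linarith
  have hsc : 0 < 1 / (σ * c2) := by positivity
  have hkc : 0 < 1 / (κ0 * c2) := by positivity
  have hbig : ∀ a : ℝ, 0 < a → 1 / (a * c2) * (C * Real.log K ^ E) ≤ Real.log X ^ κ →
      1 / C2 ≤ a * (δ * K) := by
    intro a ha h1
    rw [hC2i]
    have h2 : (1 / (a * c2)) * (C * Real.log K ^ E) * Real.log X ^ D ≤ K := by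
      calc (1 / (a * c2)) * (C * Real.log K ^ E) * Real.log X ^ D ≤ Real.log X ^ κ * Real.log X ^ D :=
            mul_le_mul_of_nonneg_right h1 (by positivity)
        _ ≤ K := by rw [mul_comm]; exact hKD
    have h3 : δ * ((1 / (a * c2)) * (C * Real.log K ^ E) * Real.log X ^ D) ≤ δ * K :=
      mul_le_mul_of_nonneg_left h2 hδ.le
    have h4 : 1 / (a * c2) * Real.log X ^ D ≤ δ * K := by
      refine le_trans ?_ h3
      have h5 : 0 ≤ 1 / (a * c2) * Real.log X ^ D := by positivity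
      calc 1 / (a * c2) * Real.log X ^ D = (1 / (a * c2) * Real.log X ^ D) * 1 := (mul_one _).symm
        _ ≤ (1 / (a * c2) * Real.log X ^ D) * (δ * (C * Real.log K ^ E)) := mul_le_mul_of_nonneg_left hδC h5
        _ = _ := by ring
    have h6 := mul_le_mul_of_nonneg_left h4 ha.le
    refine le_trans (le_of_eq ?_) h6
    field_simp
  have hσK : 1 / C2 ≤ σ * (δ * K) := by
    apply hbig σ hσ
    refine le_trans ?_ q2
    apply mul_le_mul_of_nonneg_right _ hCE0.le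
    linarith
  -- the small parameters
  have p1 := K_pow K B D0 (Real.log X) hlX hK2
  obtain ⟨V, hVd⟩ : ∃ V, V = (K + 1) ^ D0 := ⟨_, rfl⟩
  rw [← hVd] at p1
  have hcol : (K + 1) ^ D0 ≤ y := by
    rw [hy, ← hVd]
    apply Nat.le_floor
    exact p1.trans f4
  have hlB : (1 : ℝ) ≤ Real.log X ^ (B * D0) := one_le_pow₀ hlX
  have hWV : (Wp w : ℝ) * ((V : ℝ) + 5) ≤ ε1 * (X : ℝ) ^ (θ / 2) := by
    have a1 : (V : ℝ) + 5 ≤ (2 ^ D0 + 5) * Real.log X ^ (B * D0) := by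
      rw [add_mul]
      linarith
    have a2 : (V : ℝ) + 5 ≤ ε1 * (X : ℝ) ^ (θ / 4) := by
      refine a1.trans ?_
      rw [div_mul_eq_mul_div, div_le_iff₀ hε10] at f5
      linarith
    calc (Wp w : ℝ) * ((V : ℝ) + 5) ≤ (X : ℝ) ^ (θ / 4) * (ε1 * (X : ℝ) ^ (θ / 4)) :=
          mul_le_mul q1 a2 (by positivity) (by positivity)
      _ = ε1 * ((X : ℝ) ^ (θ / 4) * (X : ℝ) ^ (θ / 4)) := by ring
      _ = ε1 * (X : ℝ) ^ (θ / 2) := by
          rw [← Real.rpow_add hX0]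
          congr 2
          ring
  have hXθ : (X : ℝ) ^ (θ / 2) ≤ (X : ℝ) ^ θ := Real.rpow_le_rpow_of_exponent_le hX1 (by linarith)
  have hWVL : (Wp w : ℝ) * ((V : ℝ) + 5) ≤ ε1 * L :=
    hWV.trans (mul_le_mul_of_nonneg_left (hXθ.trans hXL) hε10.le)
  have hLX : (L : ℝ) ≤ X := by exact_mod_cast (by omega : L ≤ X)
  have hWVX : Wp w * (V + 3) ≤ X := by
    have a1 : (Wp w : ℝ) * ((V : ℝ) + 3) ≤ X := by
      have a2 : (Wp w : ℝ) * ((V : ℝ) + 3) ≤ (Wp w : ℝ) * ((V : ℝ) + 5) :=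
        mul_le_mul_of_nonneg_left (by linarith) hW0.le
      have a3 : ε1 * (L : ℝ) ≤ L := mul_le_of_le_one_left (Nat.cast_nonneg _) hε11
      linarith
    exact_mod_cast a1
  obtain ⟨Z', hZ'⟩ : ∃ Z', Z' = max (Z / Wp w - 1) V := ⟨_, rfl⟩
  have hZ'1 : Z / Wp w ≤ Z' + 1 := by
    have := le_max_left (Z / Wp w - 1) V
    rw [← hZ'] at this
    omega
  have hZ'2 : V ≤ Z' := by rw [hZ']; exact le_max_right _ _
  have hZ'3 : Z' ≤ Z / Wp w + V := by
    rw [hZ']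
    apply max_le
    · exact (Nat.sub_le _ _).trans (Nat.le_add_right _ _)
    · exact Nat.le_add_left _ _
  obtain ⟨n1, hn1⟩ : ∃ n1, n1 = Wp w * (V + 5) := ⟨_, rfl⟩
  have hn1L : (n1 : ℝ) ≤ ε1 * L := by
    rw [hn1]
    push_cast
    exact hWVL
  have hn1W : 2 * Wp w ≤ n1 := by
    rw [hn1, mul_comm 2]
    exact Nat.mul_le_mul_left _ (by omega)
  have hn1Z : ∀ n, Z < n → n1 < n → Wp w * (Z' + 1) ≤ n := by
    intro n hn hn'
    rcases le_total (Z / Wp w - 1) V with hc | hc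
    · have e : Z' = V := by rw [hZ']; exact max_eq_right hc
      rw [e]
      have : Wp w * (V + 1) ≤ Wp w * (V + 5) := Nat.mul_le_mul_left _ (by omega)
      omega
    · have e : Z' = Z / Wp w - 1 := by rw [hZ']; exact max_eq_left hc
      have hV1 : 1 ≤ V := by rw [hVd]; exact Nat.one_le_pow _ _ (by omega)
      have e2 : Z' + 1 = Z / Wp w := by
        rw [e]
        exact Nat.sub_add_cancel (by
          have := hV1.trans hc
          exact this.trans (Nat.sub_le _ _))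
      rw [e2]
      have : Wp w * (Z / Wp w) ≤ Z := Nat.mul_div_le _ _
      omega
  have hL' : (X : ℝ) ^ (θ / 2) ≤ ((L / Wp w + 2 : ℕ) : ℝ) := by
    have a1 : (X : ℝ) ^ (θ / 2) * Wp w ≤ L := by
      calc (X : ℝ) ^ (θ / 2) * Wp w ≤ (X : ℝ) ^ (θ / 2) * (X : ℝ) ^ (θ / 4) :=
            mul_le_mul_of_nonneg_left q1 (by positivity)
        _ ≤ (X : ℝ) ^ (θ / 2) * (X : ℝ) ^ (θ / 2) := by
            apply mul_le_mul_of_nonneg_left _ (by positivity)
            exact Real.rpow_le_rpow_of_exponent_le hX1 (by linarith)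
        _ = (X : ℝ) ^ θ := by rw [← Real.rpow_add hX0]; congr 1; ring
        _ ≤ L := hXL
    have a2 : (X : ℝ) ^ (θ / 2) ≤ (L : ℝ) / Wp w := by
      rw [le_div_iff₀ hW0]
      exact a1
    refine a2.trans ?_
    have a3 := Nat.lt_div_mul_add (a := L) hW
    have a4 : (L : ℝ) < ((L / Wp w : ℕ) : ℝ) * Wp w + Wp w := by exact_mod_cast a3
    rw [div_le_iff₀ hW0]
    push_cast
    linarith
  have hthr : ∀ x : ℝ, 0 ≤ x → x * Real.log X ^ ((D : ℝ) + κ) < K → x < κ0 * (δ * K) * C2 := by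
    intro x hx hxK
    have a1 : 1 / C2 ≤ κ0 * (δ * K) / (K / (Real.log X ^ D * Real.log X ^ κ)) := by
      rw [div_div_eq_mul_div, le_div_iff₀ hK0, hC2i]
      have a2 : 1 / (κ0 * c2) * (C * Real.log K ^ E) ≤ Real.log X ^ κ := by
        refine le_trans ?_ q2
        apply mul_le_mul_of_nonneg_right _ hCE0.le
        linarith
      have a3 : 1 / (κ0 * c2) ≤ δ * Real.log X ^ κ := by
        have b1 : δ * (1 / (κ0 * c2) * (C * Real.log K ^ E)) ≤ δ * Real.log X ^ κ :=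
          mul_le_mul_of_nonneg_left a2 hδ.le
        refine le_trans ?_ b1
        calc 1 / (κ0 * c2) = 1 / (κ0 * c2) * 1 := (mul_one _).symm
          _ ≤ 1 / (κ0 * c2) * (δ * (C * Real.log K ^ E)) := mul_le_mul_of_nonneg_left hδC hkc.le
          _ = _ := by ring
      have a4 : 1 / c2 ≤ κ0 * (δ * Real.log X ^ κ) := by
        have := mul_le_mul_of_nonneg_left a3 hκ0.le
        refine le_trans (le_of_eq ?_) this
        field_simp
      calc 1 / c2 * Real.log X ^ D * K ≤ κ0 * (δ * Real.log X ^ κ) * Real.log X ^ D * K := by gcongr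
        _ = _ := by ring
    have hlk : 0 < Real.log X ^ D * Real.log X ^ κ := by positivity
    have e : Real.log X ^ ((D : ℝ) + κ) = Real.log X ^ D * Real.log X ^ κ := by
      rw [Real.rpow_add hlX0, Real.rpow_natCast]
    rw [e, ← lt_div_iff₀ hlk] at hxK
    refine hxK.trans_le ?_
    have hq : 0 < (K : ℝ) / (Real.log X ^ D * Real.log X ^ κ) := by positivity
    rw [div_le_div_iff₀ hC20 hq, one_mul] at a1
    exact a1
  have hfin := all_classesP (F := F) (G := G) Adm w K Z L Z' n1 ε1 (κ0 * (δ * K) * C2)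
    ((X : ℝ) ^ δ0) hε10 hn1L hn1W hε11 hn1Z (by
      intro n0 hn0
      obtain ⟨T, hT⟩ : ∃ T, T = (Ioc Z (Z + L)).filter (fun n => Adm n ∧ n % Wp w = n0 ∧ Wp w * (Z' + 1) ≤ n ∧
        (cntP F G K n ((X : ℝ) ^ δ0) : ℝ) < κ0 * (δ * K) * C2) := ⟨_, rfl⟩
      rw [← hT]
      rcases T.eq_empty_or_nonempty with hemp | ⟨n, hn'⟩
      · rw [hemp, card_empty, Nat.cast_zero]
        positivity
      rw [hT, mem_filter] at hn'
      obtain ⟨-, hadm, hnn, -⟩ := hn'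
      have hJc : δ * K ≤ (JP F G w K n0).card := by
        rw [← JP_congr F G w K n n0 (by rw [← hnn]; exact (Nat.mod_modEq n _).symm)]
        exact g2 n hadm
      have q1 := oneClsP hdat w K n0 X Z' (L / Wp w + 2) (D + 1) y (2 * D0) ((X : ℝ) ^ δ0) κ0 σ η C2 ε1 δ hw0 hwD
        (f1 Z' (L / Wp w + 2) hL') hlow2 hC20 hC2B hcol (by
          intro j hj m hm
          exact FCP_size hdat w n0 Z L Z' X V j m hn0 hZL hZ'3 hWVX f8 ((mem_Icc.1 hj).2.trans hKX) hm)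
        (by rw [← hVd]; exact hZ'2) hσ.le hη.le hκ0 hδK hJc (g1 y) hσK
      refine le_trans ?_ q1
      have q2 := cls_cardP hdat w K n0 Z L Z' ((X : ℝ) ^ δ0) (κ0 * (δ * K) * C2) hZ'1 (by rw [← hVd]; exact hZ'2)
      have q3 : T.card ≤ ((Ioc Z (Z + L)).filter (fun n => n % Wp w = n0 ∧ Wp w * (Z' + 1) ≤ n ∧
          (cntP F G K n ((X : ℝ) ^ δ0) : ℝ) < κ0 * (δ * K) * C2)).card := by
        rw [hT]
        apply card_le_card
        intro n hn
        rw [mem_filter] at hn ⊢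
        exact ⟨hn.1, hn.2.2⟩
      exact_mod_cast q3.trans q2)
  have hfin2 : (((Ioc Z (Z + L)).filter (fun n => Adm n ∧
      (cntP F G K n ((X : ℝ) ^ δ0) : ℝ) * Real.log X ^ ((D : ℝ) + κ) < K)).card : ℝ) ≤
      (((Ioc Z (Z + L)).filter (fun n => Adm n ∧
      (cntP F G K n ((X : ℝ) ^ δ0) : ℝ) < κ0 * (δ * K) * C2)).card : ℝ) := by
    have : ((Ioc Z (Z + L)).filter (fun n => Adm n ∧
      (cntP F G K n ((X : ℝ) ^ δ0) : ℝ) * Real.log X ^ ((D : ℝ) + κ) < K)).card ≤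
      ((Ioc Z (Z + L)).filter (fun n => Adm n ∧
      (cntP F G K n ((X : ℝ) ^ δ0) : ℝ) < κ0 * (δ * K) * C2)).card := by
      apply card_le_card
      intro n hn
      rw [mem_filter] at hn ⊢
      exact ⟨hn.1, hn.2.1, hthr _ (Nat.cast_nonneg _) hn.2.2⟩
    exact_mod_cast this
  refine hfin2.trans (hfin.trans ?_)
  exact mul_le_mul_of_nonneg_right hε13 (Nat.cast_nonneg _)

end Pool.Agent.L0h41.GN
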