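import Pool.Agent.L0h41.PE.E
import Mathlib

set_option autoImplicit false

/-!
# Bivariate polynomials: sizes, resultants
-/

namespace Pool.Agent.L0h41.GN

open Finset Polynomial
open scoped Polynomial.Bivariate Nat

/-- the members -/
noncomputable def mb (P : ℤ[X][Y]) (j : ℤ) : ℤ[X] := P.map (evalRingHom j)

lemma mb_eval (P : ℤ[X][Y]) (x y : ℤ) : (mb P x).eval y = P.evalEval x y := by
  unfold mb
  exact map_evalRingHom_eval x y P

lemma mb_coeff (P : ℤ[X][Y]) (x : ℤ) (i : ℕ) : (mb P x).coeff i = (P.coeff i).eval x := by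
  unfold mb
  rw [coeff_map]
  rfl

lemma mb_deg (P : ℤ[X][Y]) (x : ℤ) : (mb P x).natDegree ≤ P.natDegree := by
  unfold mb
  exact natDegree_map_le

lemma swap_val (P : ℤ[X][Y]) (x y : ℤ) : (Bivariate.swap P).evalEval x y = P.evalEval y x := by
  have h := Bivariate.aevalAeval_swap x y P
  rw [coe_aevalAeval_eq_evalEval, coe_aevalAeval_eq_evalEval] at h
  exact h

lemma mb_swap (P : ℤ[X][Y]) (x y : ℤ) : (mb (Bivariate.swap P) y).eval x = (mb P x).eval y := by
  rw [mb_eval, mb_eval, swap_val]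

/-! ### Sizes -/

lemma size_one (c : ℤ[X]) : ∃ D1 : ℕ, ∀ T : ℕ, 1 ≤ T → ∀ j : ℕ, j ≤ T → (c.eval (j : ℤ)).natAbs ≤ (T + 1) ^ D1 := by
  induction c using Polynomial.induction_on' with
  | add p q hp hq =>
    obtain ⟨D1, h1⟩ := hp
    obtain ⟨D2, h2⟩ := hq
    refine ⟨D1 + D2 + 1, fun T hT j hj => ?_⟩
    rw [eval_add]
    have a1 := (h1 T hT j hj).trans (Nat.pow_le_pow_right (by omega : 0 < T + 1) (by omega : D1 ≤ D1 + D2))
    have a2 := (h2 T hT j hj).trans (Nat.pow_le_pow_right (by omega : 0 < T + 1) (by omega : D2 ≤ D1 + D2))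
    have a3 := Int.natAbs_add_le (p.eval (j : ℤ)) (q.eval (j : ℤ))
    have a4 : 2 * (T + 1) ^ (D1 + D2) ≤ (T + 1) ^ (D1 + D2 + 1) := by
      rw [pow_succ, mul_comm]
      exact Nat.mul_le_mul_left _ (by omega)
    omega
  | monomial k a =>
    refine ⟨a.natAbs + k, fun T hT j hj => ?_⟩
    rw [eval_monomial, Int.natAbs_mul, Int.natAbs_pow, Int.natAbs_natCast, pow_add]
    apply Nat.mul_le_mul
    · exact (Nat.lt_two_pow_self).le.trans (Nat.pow_le_pow_left (by omega) _)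
    · exact Nat.pow_le_pow_left (by omega) _

lemma size_two (P : ℤ[X][Y]) : ∃ D1 : ℕ, ∀ T : ℕ, 1 ≤ T → ∀ j n : ℕ, j ≤ T → n ≤ T →
    (P.evalEval (j : ℤ) (n : ℤ)).natAbs ≤ (T + 1) ^ D1 := by
  induction P using Polynomial.induction_on' with
  | add p q hp hq =>
    obtain ⟨D1, h1⟩ := hp
    obtain ⟨D2, h2⟩ := hq
    refine ⟨D1 + D2 + 1, fun T hT j n hj hn => ?_⟩
    rw [evalEval_add]
    have a1 := (h1 T hT j n hj hn).trans (Nat.pow_le_pow_right (by omega : 0 < T + 1) (by omega : D1 ≤ D1 + D2))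
    have a2 := (h2 T hT j n hj hn).trans (Nat.pow_le_pow_right (by omega : 0 < T + 1) (by omega : D2 ≤ D1 + D2))
    have a3 := Int.natAbs_add_le (p.evalEval (j : ℤ) (n : ℤ)) (q.evalEval (j : ℤ) (n : ℤ))
    have a4 : 2 * (T + 1) ^ (D1 + D2) ≤ (T + 1) ^ (D1 + D2 + 1) := by
      rw [pow_succ, mul_comm]
      exact Nat.mul_le_mul_left _ (by omega)
    omega
  | monomial k c =>
    obtain ⟨D1, h1⟩ := size_one c
    refine ⟨D1 + k, fun T hT j n hj hn => ?_⟩
    have e : (monomial k c : ℤ[X][Y]).evalEval (j : ℤ) (n : ℤ) = c.eval (j : ℤ) * (n : ℤ) ^ k := by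
      unfold evalEval
      rw [eval_monomial, eval_mul, eval_pow, eval_C]
    rw [e, Int.natAbs_mul, Int.natAbs_pow, Int.natAbs_natCast, pow_add]
    apply Nat.mul_le_mul (h1 T hT j hj)
    exact Nat.pow_le_pow_left (by omega) _

lemma size_coeff (P : ℤ[X][Y]) : ∃ D1 : ℕ, ∀ T : ℕ, 1 ≤ T → ∀ j : ℕ, j ≤ T → ∀ i,
    ((P.coeff i).eval (j : ℤ)).natAbs ≤ (T + 1) ^ D1 := by
  induction P using Polynomial.induction_on' with
  | add p q hp hq =>
    obtain ⟨D1, h1⟩ := hp
    obtain ⟨D2, h2⟩ := hq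
    refine ⟨D1 + D2 + 1, fun T hT j hj i => ?_⟩
    rw [coeff_add, eval_add]
    have a1 := (h1 T hT j hj i).trans (Nat.pow_le_pow_right (by omega : 0 < T + 1) (by omega : D1 ≤ D1 + D2))
    have a2 := (h2 T hT j hj i).trans (Nat.pow_le_pow_right (by omega : 0 < T + 1) (by omega : D2 ≤ D1 + D2))
    have a3 := Int.natAbs_add_le ((p.coeff i).eval (j : ℤ)) ((q.coeff i).eval (j : ℤ))
    have a4 : 2 * (T + 1) ^ (D1 + D2) ≤ (T + 1) ^ (D1 + D2 + 1) := by
      rw [pow_succ, mul_comm]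
      exact Nat.mul_le_mul_left _ (by omega)
    omega
  | monomial k c =>
    obtain ⟨D1, h1⟩ := size_one c
    refine ⟨D1, fun T hT j hj i => ?_⟩
    rw [coeff_monomial]
    split_ifs
    · exact h1 T hT j hj
    · rw [eval_zero, Int.natAbs_zero]
      exact Nat.zero_le _

/-- large values -/
lemma big_val (f : ℤ[X]) (M n : ℕ) (hM : ∀ i, (f.coeff i).natAbs ≤ M) (hd : 1 ≤ f.natDegree)
    (hn : f.natDegree * M + 2 ≤ n) : 2 ≤ (f.eval (n : ℤ)).natAbs := by
  obtain ⟨d, hdd⟩ : ∃ d, f.natDegree = d + 1 := ⟨f.natDegree - 1, by omega⟩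
  have hf0 : f ≠ 0 := by
    rintro rfl
    simp at hd
  have hlc : 1 ≤ (f.coeff (d + 1)).natAbs := by
    apply Int.natAbs_pos.2
    rw [← hdd]
    exact leadingCoeff_ne_zero.2 hf0
  have hev : f.eval (n : ℤ) = ∑ i ∈ range (d + 1), f.coeff i * (n : ℤ) ^ i + f.coeff (d + 1) * (n : ℤ) ^ (d + 1) := by
    rw [eval_eq_sum_range, hdd, sum_range_succ]
  have h1 : (∑ i ∈ range (d + 1), f.coeff i * (n : ℤ) ^ i).natAbs ≤ (d + 1) * M * n ^ d := by
    refine (Int.natAbs_sum_le _ _).trans ?_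
    calc ∑ i ∈ range (d + 1), (f.coeff i * (n : ℤ) ^ i).natAbs ≤ ∑ i ∈ range (d + 1), M * n ^ d := by
          apply sum_le_sum
          intro i hi
          rw [Int.natAbs_mul, Int.natAbs_pow, Int.natAbs_natCast]
          exact Nat.mul_le_mul (hM i) (Nat.pow_le_pow_right (by omega) (by
            have := mem_range.1 hi
            omega))
      _ = (d + 1) * M * n ^ d := by
          rw [sum_const, card_range, smul_eq_mul, mul_assoc]
  have h2 : (f.coeff (d + 1) * (n : ℤ) ^ (d + 1)).natAbs ≤ (f.eval (n : ℤ)).natAbs +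
      (∑ i ∈ range (d + 1), f.coeff i * (n : ℤ) ^ i).natAbs := by
    have e : f.coeff (d + 1) * (n : ℤ) ^ (d + 1) = f.eval (n : ℤ) - ∑ i ∈ range (d + 1), f.coeff i * (n : ℤ) ^ i := by
      rw [hev]
      ring
    rw [e]
    exact Int.natAbs_sub_le _ _
  rw [Int.natAbs_mul, Int.natAbs_pow, Int.natAbs_natCast] at h2
  have h3 : n ^ (d + 1) ≤ (f.coeff (d + 1)).natAbs * n ^ (d + 1) := Nat.le_mul_of_pos_left _ hlc
  have h4 : (f.natDegree * M + 2) * n ^ d ≤ n ^ (d + 1) := by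
    rw [pow_succ, mul_comm]
    exact Nat.mul_le_mul_left _ hn
  rw [hdd, add_mul] at h4
  have h5 : 1 ≤ n ^ d := Nat.one_le_pow _ _ (by omega)
  omega

/-! ### Resultants -/

lemma res_le (f g : ℤ[X]) (M : ℕ) (hf : ∀ i, (f.coeff i).natAbs ≤ M) (hg : ∀ i, (g.coeff i).natAbs ≤ M) :
    (resultant f g).natAbs ≤ (f.natDegree + g.natDegree)! * M ^ (f.natDegree + g.natDegree) := by
  have h := Matrix.det_le (A := sylvester f g f.natDegree g.natDegree) (abv := AbsoluteValue.abs) (x := (M : ℤ)) (by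
    intro i j
    rw [sylvester, Matrix.of_apply]
    have hM0 : (0 : ℤ) ≤ M := Int.natCast_nonneg _
    have hcase : ∀ (z : ℤ), z.natAbs ≤ M → AbsoluteValue.abs z ≤ (M : ℤ) := by
      intro z hz
      rw [AbsoluteValue.abs_apply, Int.abs_eq_natAbs]
      exact_mod_cast hz
    induction j using Fin.addCases with
    | left j =>
      rw [Fin.addCases_left]
      split_ifs
      · exact hcase _ (hg _)
      · exact hcase _ (by simp)
    | right j =>
      rw [Fin.addCases_right]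
      split_ifs
      · exact hcase _ (hf _)
      · exact hcase _ (by simp))
  rw [AbsoluteValue.abs_apply, Int.abs_eq_natAbs, Fintype.card_fin, nsmul_eq_mul] at h
  unfold resultant
  exact_mod_cast h

lemma res_dvd (f g : ℤ[X]) (h : f.natDegree ≠ 0) (n p : ℤ) (hf : p ∣ f.eval n) (hg : p ∣ g.eval n) :
    p ∣ resultant f g := by
  obtain ⟨a, b, -, -, hab⟩ := exists_mul_add_mul_eq_C_resultant f g le_rfl le_rfl (Or.inl h)
  have h1 := congrArg (eval n) hab
  rw [eval_add, eval_mul, eval_mul, eval_C] at h1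
  rw [← h1]
  exact dvd_add (hf.mul_right _) (hg.mul_right _)

lemma res_ne (f g : ℤ[X]) (h : ∀ ν : ℂ, aeval ν f ≠ 0 ∨ aeval ν g ≠ 0) : resultant f g ≠ 0 := by
  have hinj : Function.Injective (Int.castRingHom ℚ) := RingHom.injective_int _
  have hcop : IsCoprime (f.map (Int.castRingHom ℚ)) (g.map (Int.castRingHom ℚ)) := by
    refine (isCoprime_iff_aeval_ne_zero_of_isAlgClosed (k := ℚ) (K := ℂ) _ _).2 ?_
    intro a
    have e : ∀ q : ℤ[X], aeval a (q.map (Int.castRingHom ℚ)) = aeval a q := by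
      intro q
      exact aeval_map_algebraMap ℚ a q
    rw [e, e]
    exact h a
  have h1 := resultant_ne_zero _ _ hcop
  intro h0
  apply h1
  rw [natDegree_map_eq_of_injective hinj, natDegree_map_eq_of_injective hinj, resultant_map_map, h0, map_zero]

end Pool.Agent.L0h41.GN
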