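import Pool.Agent.L0h41.GN.F1

set_option autoImplicit false

/-!
# Bivariate polynomials: factors in one variable
-/

namespace Pool.Agent.L0h41.GN

open Finset Polynomial
open scoped Polynomial.Bivariate

/-- no nonconstant common factor of the coefficients -/
def Pr (P : ℤ[X][Y]) : Prop := ∀ d : ℚ[X], (∀ i, d ∣ (P.coeff i).map (Int.castRingHom ℚ)) → IsUnit d

/-- over the rational numbers -/
noncomputable def toQ (P : ℤ[X][Y]) : ℚ[X][Y] := P.map (mapRingHom (Int.castRingHom ℚ))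

lemma toQ_coeff (P : ℤ[X][Y]) (i : ℕ) : (toQ P).coeff i = (P.coeff i).map (Int.castRingHom ℚ) := by
  unfold toQ
  rw [coeff_map]
  rfl

lemma Pr_iff (P : ℤ[X][Y]) : Pr P ↔ ∀ d : ℚ[X], C d ∣ toQ P → IsUnit d := by
  unfold Pr
  constructor
  · intro h d hd
    apply h d
    intro i
    rw [← toQ_coeff]
    exact (C_dvd_iff_dvd_coeff d _).1 hd i
  · intro h d hd
    apply h d
    rw [C_dvd_iff_dvd_coeff]
    intro i
    rw [toQ_coeff]
    exact hd i

lemma toQ_mul (P Q : ℤ[X][Y]) : toQ (P * Q) = toQ P * toQ Q := by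
  unfold toQ
  rw [Polynomial.map_mul]

lemma Pr_ne {P : ℤ[X][Y]} (h : Pr P) : P ≠ 0 := by
  rintro rfl
  have := h 0 (fun i => by simp)
  exact not_isUnit_zero this

/-- a Bezout identity -/
lemma bezP {P : ℤ[X][Y]} (h : Pr P) : ∃ (U : ℕ → ℤ[X]) (N : ℤ), N ≠ 0 ∧
    ∑ i ∈ range (P.natDegree + 1), U i * P.coeff i = C N := by
  classical
  obtain ⟨v, hv⟩ : ∃ v : Fin (P.natDegree + 1) → ℚ[X], v = fun i : Fin (P.natDegree + 1) => (P.coeff i).map (Int.castRingHom ℚ) := ⟨_, rfl⟩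
  obtain ⟨g, hg⟩ : ∃ g, Ideal.span (Set.range v) = Ideal.span {g} :=
    ⟨_, (Ideal.span_singleton_generator (Ideal.span (Set.range v))).symm⟩
  have hgu : IsUnit g := by
    apply h g
    intro i
    by_cases hi : i ≤ P.natDegree
    · have h1 : v ⟨i, by omega⟩ ∈ Ideal.span (Set.range v) := Ideal.subset_span ⟨_, rfl⟩
      rw [hg, Ideal.mem_span_singleton] at h1
      rw [hv] at h1
      exact h1
    · rw [coeff_eq_zero_of_natDegree_lt (by omega), Polynomial.map_zero]
      exact dvd_zero _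
  have h1 : (1 : ℚ[X]) ∈ Ideal.span (Set.range v) := by
    rw [hg, Ideal.mem_span_singleton]
    exact hgu.dvd
  rw [Ideal.mem_span_range_iff_exists_fun] at h1
  obtain ⟨c, hc⟩ := h1
  choose k Q hk hQ using fun i => Pool.Agent.L0h41.PE.clear_den (c i)
  have hinj : Function.Injective (Int.castRingHom ℚ) := RingHom.injective_int _
  refine ⟨fun i => if hi : i < P.natDegree + 1 then C (∏ l ∈ univ.erase (⟨i, hi⟩ : Fin (P.natDegree + 1)), k l) *
    Q ⟨i, hi⟩ else 0, ∏ l, k l, prod_ne_zero_iff.2 fun l _ => hk l, ?_⟩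
  apply map_injective (Int.castRingHom ℚ) hinj
  rw [Finset.sum_range, Polynomial.map_sum, map_C]
  have e1 : ∀ i : Fin (P.natDegree + 1), ((if hi : (i : ℕ) < P.natDegree + 1 then
      C (∏ l ∈ univ.erase (⟨i, hi⟩ : Fin (P.natDegree + 1)), k l) * Q ⟨i, hi⟩ else 0) * P.coeff i).map
      (Int.castRingHom ℚ) = C ((Int.castRingHom ℚ) (∏ l, k l)) * (c i * v i) := by
    intro i
    rw [dif_pos i.2, Polynomial.map_mul, Polynomial.map_mul, map_C, hQ, hv, ← mul_prod_erase univ k (mem_univ i)]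
    simp only [map_mul, eq_intCast]
    ring
  rw [sum_congr rfl fun i _ => e1 i, ← mul_sum, hc, mul_one]

/-- the members modulo large primes -/
lemma loc_of {P : ℤ[X][Y]} (h : Pr P) : ∃ N : ℕ, ∀ p : ℕ, p.Prime → N < p → ∀ x : ℤ,
    (mb P x).map (Int.castRingHom (ZMod p)) ≠ 0 := by
  obtain ⟨U, N, hN, hU⟩ := bezP h
  refine ⟨N.natAbs, fun p hp hNp x h0 => ?_⟩
  have h1 : ∀ i, (p : ℤ) ∣ (P.coeff i).eval x := by
    intro i
    have h2 := congrArg (fun q => coeff q i) h0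
    simp only [coeff_map, coeff_zero] at h2
    rw [mb_coeff, eq_intCast] at h2
    exact (ZMod.intCast_zmod_eq_zero_iff_dvd _ _).1 h2
  have h3 : (p : ℤ) ∣ N := by
    have h4 := congrArg (eval x) hU
    rw [eval_finsetSum, eval_C] at h4
    rw [← h4]
    apply dvd_sum
    intro i _
    rw [eval_mul]
    exact (h1 i).mul_left _
  have h5 := Nat.le_of_dvd (Int.natAbs_pos.2 hN) (Int.natCast_dvd.1 h3)
  omega

/-- the members at complex arguments -/
lemma cplx_of {P : ℤ[X][Y]} (h : Pr P) (ν : ℂ) : ∃ i, aeval ν (P.coeff i) ≠ 0 := by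
  obtain ⟨U, N, hN, hU⟩ := bezP h
  by_contra hcon
  push Not at hcon
  have h4 := congrArg (aeval ν) hU
  rw [map_sum] at h4
  have h5 : ∑ i ∈ range (P.natDegree + 1), aeval ν (U i * P.coeff i) = 0 := by
    apply sum_eq_zero
    intro i _
    rw [map_mul, hcon i, mul_zero]
  rw [h5, aeval_C] at h4
  apply hN
  have h6 : ((N : ℤ) : ℂ) = 0 := by
    rw [h4]
    rfl
  exact_mod_cast h6

/-- the Lemma of Gauss -/
lemma gaussL (d : ℚ[X]) (hd : d ≠ 0) : ∃ d1 : ℤ[X], d1.natDegree = d.natDegree ∧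
    ∀ q : ℤ[X], d ∣ q.map (Int.castRingHom ℚ) → d1 ∣ q := by
  have hinj : Function.Injective (Int.castRingHom ℚ) := RingHom.injective_int _
  obtain ⟨k, Q, hk, hQ⟩ := Pool.Agent.L0h41.PE.clear_den d
  have hkq : (k : ℚ) ≠ 0 := by exact_mod_cast hk
  have hQd : Q.natDegree = d.natDegree := by
    rw [← natDegree_map_eq_of_injective hinj, hQ]
    exact natDegree_C_mul hkq
  have hQ0 : Q ≠ 0 := by
    rintro rfl
    rw [Polynomial.map_zero] at hQ
    rcases mul_eq_zero.1 hQ.symm with h | h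
    · exact hkq (C_eq_zero.1 h)
    · exact hd h
  refine ⟨Q.primPart, by rw [natDegree_primPart, hQd], ?_⟩
  intro q hq
  have hc0 : (Q.content : ℚ) ≠ 0 := by
    have : Q.content ≠ 0 := fun h => hQ0 (content_eq_zero_iff.1 h)
    exact_mod_cast this
  have h1 : Q.primPart.map (Int.castRingHom ℚ) ∣ d := by
    refine ⟨C ((Q.content : ℚ) / k), ?_⟩
    have e := congrArg (Polynomial.map (Int.castRingHom ℚ)) Q.eq_C_content_mul_primPart
    rw [hQ, Polynomial.map_mul, map_C, eq_intCast] at e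
    have hC : C (k : ℚ) ≠ 0 := fun h => hkq (C_eq_zero.1 h)
    apply mul_left_cancel₀ hC
    rw [e, mul_left_comm, ← C_mul, mul_div_cancel₀ _ hkq, mul_comm]
  exact (IsPrimitive.Int.dvd_iff_map_cast_dvd_map_cast _ _ Q.isPrimitive_primPart).2 (h1.trans hq)

/-- a factor in one variable -/
lemma factor_of {P : ℤ[X][Y]} (h0 : P ≠ 0) (h : ¬ Pr P) : ∃ (d1 : ℤ[X]) (g : ℤ[X][Y]), 0 < d1.natDegree ∧
    P = C d1 * g := by
  unfold Pr at h
  push Not at h
  obtain ⟨d, hd, hu⟩ := h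
  have hd0 : d ≠ 0 := by
    rintro rfl
    apply h0
    ext1 i
    have h1 := zero_dvd_iff.1 (hd i)
    rw [coeff_zero]
    exact (Polynomial.map_eq_zero_iff (RingHom.injective_int (Int.castRingHom ℚ))).1 h1
  obtain ⟨d1, h1, h2⟩ := gaussL d hd0
  have h3 : C d1 ∣ P := (C_dvd_iff_dvd_coeff d1 P).2 fun i => h2 _ (hd i)
  obtain ⟨g, hg⟩ := h3
  refine ⟨d1, g, ?_, hg⟩
  rw [h1]
  by_contra hcon
  apply hu
  rw [isUnit_iff_degree_eq_zero, degree_eq_natDegree hd0]
  have : d.natDegree = 0 := by omega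
  rw [this]
  rfl

/-- the factor in one variable -/
lemma decomp : ∀ (n : ℕ) (P : ℤ[X][Y]), P ≠ 0 → P.leadingCoeff.natDegree ≤ n → ∃ (a : ℤ[X]) (h : ℤ[X][Y]),
    P = C a * h ∧ Pr h := by
  intro n
  induction n using Nat.strong_induction_on with
  | _ n ih =>
    intro P hP hn
    by_cases hPr : Pr P
    · exact ⟨1, P, by rw [C_1, one_mul], hPr⟩
    · obtain ⟨d1, g, hd, hg⟩ := factor_of hP hPr
      have hd0 : d1 ≠ 0 := by
        rintro rfl
        simp at hd
      have hg0 : g ≠ 0 := by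
        rintro rfl
        rw [mul_zero] at hg
        exact hP hg
      have hl : P.leadingCoeff = d1 * g.leadingCoeff := by
        rw [hg, leadingCoeff_mul, leadingCoeff_C]
      have hl2 : P.leadingCoeff.natDegree = d1.natDegree + g.leadingCoeff.natDegree := by
        rw [hl, natDegree_mul hd0 (leadingCoeff_ne_zero.2 hg0)]
      obtain ⟨a, h, h1, h2⟩ := ih g.leadingCoeff.natDegree (by omega) g hg0 le_rfl
      refine ⟨d1 * a, h, ?_, h2⟩
      rw [hg, h1, C_mul, mul_assoc]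

/-- products -/
lemma Pr_mul {P Q : ℤ[X][Y]} (hP : Pr P) (hQ : Pr Q) : Pr (P * Q) := by
  have hP0 := Pr_ne hP
  have hQ0 := Pr_ne hQ
  rw [Pr_iff] at hP hQ ⊢
  intro d hd
  rw [toQ_mul] at hd
  by_contra hu
  have hinj2 : Function.Injective (mapRingHom (Int.castRingHom ℚ)) := map_injective _ (RingHom.injective_int _)
  by_cases hd0 : d = 0
  · rw [hd0, C_0, zero_dvd_iff] at hd
    rcases mul_eq_zero.1 hd with h | h
    · exact hP0 ((Polynomial.map_eq_zero_iff hinj2).1 h)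
    · exact hQ0 ((Polynomial.map_eq_zero_iff hinj2).1 h)
  · obtain ⟨π, hπ, hπd⟩ := WfDvdMonoid.exists_irreducible_factor hu hd0
    have hpr : Prime (C π : ℚ[X][Y]) := prime_C_iff.2 hπ.prime
    have h1 : C π ∣ toQ P * toQ Q := (_root_.map_dvd C hπd).trans hd
    rcases hpr.dvd_or_dvd h1 with h | h
    · exact hπ.not_isUnit (hP π h)
    · exact hπ.not_isUnit (hQ π h)

lemma Pr_one : Pr (1 : ℤ[X][Y]) := by
  intro d hd
  have h := hd 0
  rw [coeff_one_zero, Polynomial.map_one] at h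
  exact isUnit_of_dvd_one h

lemma Pr_prod {ι : Type*} (s : Finset ι) (f : ι → ℤ[X][Y]) (h : ∀ i ∈ s, Pr (f i)) : Pr (∏ i ∈ s, f i) := by
  classical
  induction s using Finset.induction_on with
  | empty => exact Pr_one
  | insert i s hi ih =>
    rw [prod_insert hi]
    exact Pr_mul (h i (mem_insert_self _ _)) (ih fun k hk => h k (mem_insert_of_mem hk))

/-! ### The change of variables -/

lemma comp_val (h : ℤ[X][Y]) (s : ℤ[X]) (x y : ℤ) : (h.comp (X + C s)).evalEval x y = h.evalEval x (y + s.eval x) := by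
  rw [← mb_eval, ← mb_eval]
  unfold mb
  rw [Polynomial.map_comp, eval_comp, Polynomial.map_add, map_X, map_C, eval_add, eval_X, eval_C]
  rfl

lemma Pr_comp {h : ℤ[X][Y]} (hh : Pr h) (s : ℤ[X]) : Pr (h.comp (X + C s)) := by
  rw [Pr_iff] at hh ⊢
  intro d hd
  apply hh d
  obtain ⟨g, hg⟩ := hd
  refine ⟨g.comp (X - C (s.map (Int.castRingHom ℚ))), ?_⟩
  have h1 := congrArg (fun q : ℚ[X][Y] => q.comp (X - C (s.map (Int.castRingHom ℚ)))) hg
  simp only [mul_comp, C_comp] at h1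
  rw [← h1]
  unfold toQ
  rw [Polynomial.map_comp, comp_assoc, Polynomial.map_add, map_X, map_C, add_comp, X_comp, C_comp]
  have e : (X - C (s.map (Int.castRingHom ℚ)) + C ((mapRingHom (Int.castRingHom ℚ)) s) : ℚ[X][Y]) = X := by
    rw [coe_mapRingHom]
    ring
  rw [e, comp_X]

/-- `f` has a nonconstant factor in `x + y` -/
def FactorSum (f : ℤ[X][Y]) : Prop := ∃ (d : ℤ[X]) (g : ℤ[X][Y]), 0 < d.natDegree ∧
  ∀ x y : ℤ, f.evalEval x y = d.eval (x + y) * g.evalEval x y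

/-- `f` has a nonconstant factor in `x` alone -/
def FactorX (f : ℤ[X][Y]) : Prop := ∃ (d : ℤ[X]) (g : ℤ[X][Y]), 0 < d.natDegree ∧
  ∀ x y : ℤ, f.evalEval x y = d.eval x * g.evalEval x y

lemma Pr_swap (f : ℤ[X][Y]) (hf : ¬ FactorSum f) (a : ℤ[X]) (h : ℤ[X][Y]) (hfa : f = C a * h) (hh : h ≠ 0) :
    Pr (Bivariate.swap (h.comp (X + C (-X)))) := by
  by_contra hcon
  have h0 : Bivariate.swap (h.comp (X + C (-X))) ≠ 0 := by
    intro h1
    have h2 : h.comp (X + C (-X)) = 0 := by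
      have := congrArg Bivariate.swap h1
      rw [Bivariate.swap_swap_apply, map_zero] at this
      exact this
    apply hh
    have h3 := congrArg (fun q : ℤ[X][Y] => q.comp (X + C X)) h2
    simp only [comp_assoc, add_comp, X_comp, C_comp, zero_comp] at h3
    have e : (X + C X + C (-X) : ℤ[X][Y]) = X := by
      rw [C_neg]
      ring
    rw [e, comp_X] at h3
    exact h3
  obtain ⟨d1, g1, hd, hg⟩ := factor_of h0 hcon
  apply hf
  refine ⟨d1, C a * (Bivariate.swap g1).comp (X + C X), hd, ?_⟩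
  intro x y
  have h1 : ∀ n : ℤ, h.evalEval x (n - x) = d1.eval n * g1.evalEval n x := by
    intro n
    have h2 : (Bivariate.swap (h.comp (X + C (-X)))).evalEval n x = (C d1 * g1).evalEval n x := by rw [hg]
    rw [swap_val, comp_val, evalEval_mul, evalEval_C, eval_neg, eval_X] at h2
    exact h2
  have h3 := h1 (x + y)
  rw [add_sub_cancel_left] at h3
  rw [hfa, evalEval_mul, evalEval_C, evalEval_mul, evalEval_C, comp_val, swap_val, eval_X, h3, add_comm y x]
  ring

end Pool.Agent.L0h41.GN
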