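import Pool.Agent.L0h41.GN.F2
import Pool.Agent.L0h41.GN.E3

set_option autoImplicit false

/-!
# The family of a bivariate polynomial
-/

namespace Pool.Agent.L0h41.GN

open Finset Polynomial
open scoped Polynomial.Bivariate Nat

/-- the polynomials -/
structure BV (P : ℤ[X][Y]) (A : ℤ[X]) : Prop where
  px : Pr P
  pn : Pr (Bivariate.swap P)
  D1 : 1 ≤ P.natDegree
  A0 : A ≠ 0

/-- the members -/
noncomputable def Fm (P : ℤ[X][Y]) (j : ℕ) : ℤ[X] := mb P (j : ℤ)

/-- a common complex zero -/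
def badm (P : ℤ[X][Y]) (j j' : ℕ) : Prop := ∃ ν : ℂ, aeval ν (Fm P j) = 0 ∧ aeval ν (Fm P j') = 0

/-- the good arguments -/
def Gm (A : ℤ[X]) (j0 e : ℕ) (K j : ℕ) : Prop := j0 < j ∧ ∀ p : ℕ, p.Prime → p ^ e ≤ K → ¬ (p : ℤ) ∣ A.eval (j : ℤ)

lemma FP_Fm (P : ℤ[X][Y]) (j n : ℕ) : FP (Fm P) j n = (P.evalEval (j : ℤ) (n : ℤ)).natAbs := by
  unfold FP Fm
  rw [mb_eval]

lemma ev_ne (q : ℤ[X]) (hq : q ≠ 0) : ∃ j0 : ℕ, ∀ j : ℕ, j0 < j → q.eval (j : ℤ) ≠ 0 := by
  by_contra hcon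
  push Not at hcon
  apply hq
  apply eq_zero_of_infinite_isRoot
  have h1 : {j : ℕ | q.eval (j : ℤ) = 0}.Infinite := by
    rw [Set.infinite_iff_exists_gt]
    intro a
    obtain ⟨j, h2, h3⟩ := hcon a
    exact ⟨j, h3, h2⟩
  have h2 := h1.image (f := fun j : ℕ => (j : ℤ)) (fun a _ b _ hab => by
    have : (a : ℤ) = (b : ℤ) := hab
    exact_mod_cast this)
  refine h2.mono ?_
  rintro _ ⟨j, hj, rfl⟩
  exact hj

lemma cross_val (P : ℤ[X][Y]) (j : ℤ) (ν : ℂ) : aeval ν (mb P j) =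
    ((Bivariate.swap P).map ((aeval ν : ℤ[X] →ₐ[ℤ] ℂ) : ℤ[X] →+* ℂ)).eval (j : ℂ) := by
  induction P using Polynomial.induction_on' with
  | add p q hp hq =>
    unfold mb at hp hq ⊢
    rw [Polynomial.map_add, map_add, hp, hq, map_add, Polynomial.map_add, eval_add]
  | monomial k c =>
    induction c using Polynomial.induction_on' with
    | add p q hp hq =>
      unfold mb at hp hq ⊢
      rw [map_add, Polynomial.map_add, map_add, hp, hq, map_add, Polynomial.map_add, eval_add]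
    | monomial i a =>
      rw [Bivariate.swap_monomial_monomial]
      unfold mb
      rw [map_monomial, map_monomial, eval_monomial, coe_evalRingHom, eval_monomial]
      simp [aeval_monomial]
      ring

lemma deg_Fm {P : ℤ[X][Y]} {j : ℕ} (h : P.leadingCoeff.eval (j : ℤ) ≠ 0) : (Fm P j).natDegree = P.natDegree := by
  apply le_antisymm (mb_deg P j)
  apply le_natDegree_of_ne_zero
  rw [mb_coeff]
  exact h

/-- few members with a common complex zero -/
lemma bad_card {P : ℤ[X][Y]} (hpn : Pr (Bivariate.swap P)) (j : ℕ) (hj : Fm P j ≠ 0) (S : Finset ℕ)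
    (hS : ∀ j' ∈ S, badm P j j') : S.card ≤ P.natDegree * (Bivariate.swap P).natDegree := by
  classical
  have hinj : Function.Injective (Int.castRingHom ℂ) := RingHom.injective_int _
  obtain ⟨R, hR⟩ : ∃ R, R = ((Fm P j).map (Int.castRingHom ℂ)).roots.toFinset := ⟨_, rfl⟩
  have hne : (Fm P j).map (Int.castRingHom ℂ) ≠ 0 := (Polynomial.map_ne_zero_iff hinj).2 hj
  have hRc : R.card ≤ P.natDegree := by
    rw [hR]
    refine (Multiset.toFinset_card_le _).trans ((card_roots' _).trans ?_)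
    rw [natDegree_map_eq_of_injective hinj]
    exact mb_deg P j
  have hmem : ∀ ν : ℂ, aeval ν (Fm P j) = 0 → ν ∈ R := by
    intro ν hν
    rw [hR, Multiset.mem_toFinset, mem_roots hne, IsRoot.def, eval_map]
    exact hν
  have hsub : S ⊆ R.biUnion (fun ν => S.filter (fun j' => aeval ν (Fm P j') = 0)) := by
    intro j' hj'
    obtain ⟨ν, h1, h2⟩ := hS j' hj'
    rw [mem_biUnion]
    exact ⟨ν, hmem ν h1, mem_filter.2 ⟨hj', h2⟩⟩
  refine (card_le_card hsub).trans ?_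
  refine (card_biUnion_le_card_mul _ _ (Bivariate.swap P).natDegree ?_).trans (Nat.mul_le_mul_right _ hRc)
  intro ν _
  obtain ⟨T, hT⟩ : ∃ T, T = (Bivariate.swap P).map ((aeval ν : ℤ[X] →ₐ[ℤ] ℂ) : ℤ[X] →+* ℂ) := ⟨_, rfl⟩
  have hT0 : T ≠ 0 := by
    intro h0
    obtain ⟨i, hi⟩ := cplx_of hpn ν
    apply hi
    have h1 := congrArg (fun q => coeff q i) (hT.symm.trans h0)
    simp only [coeff_map, coeff_zero] at h1
    exact h1
  have h1 : (S.filter (fun j' => aeval ν (Fm P j') = 0)).card ≤ T.roots.toFinset.card := by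
    apply card_le_card_of_injOn (fun j' : ℕ => (j' : ℂ))
    · intro j' hj'
      rw [mem_coe, mem_filter] at hj'
      rw [mem_coe, Multiset.mem_toFinset, mem_roots hT0, IsRoot.def, hT]
      have h2 := cross_val P (j' : ℤ) ν
      have h3 : aeval ν (mb P (j' : ℤ)) = 0 := hj'.2
      rw [h3] at h2
      rw [h2]
      congr 1
    · intro a _ b _ hab
      have : (a : ℂ) = (b : ℂ) := hab
      exact_mod_cast this
  refine h1.trans ((Multiset.toFinset_card_le _).trans ((card_roots' _).trans ?_))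
  rw [hT]
  exact natDegree_map_le

/-- **The data of the family.** -/
theorem BV.dat {P : ℤ[X][Y]} {A : ℤ[X]} (H : BV P A) : ∃ j0 w0 : ℕ, (∀ j : ℕ, j0 < j → P.leadingCoeff.eval (j : ℤ) ≠ 0) ∧
    ∀ j1 : ℕ, j0 ≤ j1 → ∃ D0 : ℕ, ∀ e : ℕ,
      DatP (Fm P) (Gm A j1 e) (badm P) P.natDegree D0 (P.natDegree * (Bivariate.swap P).natDegree) w0 := by
  obtain ⟨D, hD⟩ : ∃ D, D = P.natDegree := ⟨_, rfl⟩
  have hP0 : P ≠ 0 := Pr_ne H.px
  obtain ⟨w0, hw0⟩ := loc_of H.px
  obtain ⟨j0, hj0⟩ := ev_ne P.leadingCoeff (leadingCoeff_ne_zero.2 hP0)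
  obtain ⟨D1, h1⟩ := size_coeff P
  obtain ⟨D2, h2⟩ := size_two P
  refine ⟨j0, w0, hj0, ?_⟩
  intro j1 hj1
  refine ⟨(2 * D)! + D1 * (2 * D) + D1 + D + 2 + D2, ?_⟩
  intro e
  have hdeg : ∀ K j, Gm A j1 e K j → (Fm P j).natDegree = D := by
    intro K j hG
    rw [hD]
    have := hG.1
    exact deg_Fm (hj0 j (by omega))
  have hD1 : 1 ≤ D := by rw [hD]; exact H.D1
  have hne0 : ∀ K j, Gm A j1 e K j → Fm P j ≠ 0 := by
    intro K j hG h0
    have := hdeg K j hG
    rw [h0, natDegree_zero] at this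
    omega
  have hco : ∀ K j, 1 ≤ j → j ≤ K → ∀ i, ((Fm P j).coeff i).natAbs ≤ (K + 1) ^ D1 := by
    intro K j hj hjK i
    unfold Fm
    rw [mb_coeff]
    exact h1 K (by omega) j hjK i
  refine ⟨fun j => mb_deg P j, fun j _ p hp hwp => hw0 p hp hwp (j : ℤ), ?_, ?_, ?_, ?_, ?_⟩
  · intro K j j' hj hjK hj' hj'K hG hG' hb n p hp hd hd'
    rw [FP_dvd] at hd hd'
    have a1 : (p : ℤ) ∣ resultant (Fm P j) (Fm P j') := by
      apply res_dvd _ _ _ (n : ℤ) p hd hd'
      rw [hdeg K j hG]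
      omega
    have a2 : resultant (Fm P j) (Fm P j') ≠ 0 := by
      apply res_ne
      intro ν
      by_contra hcon
      push Not at hcon
      exact hb ⟨ν, hcon.1, hcon.2⟩
    have a3 := Nat.le_of_dvd (Int.natAbs_pos.2 a2) (Int.natCast_dvd.1 a1)
    have a4 : (resultant (Fm P j) (Fm P j')).natAbs ≤ (2 * D)! * ((K + 1) ^ D1) ^ (2 * D) := by
      refine (res_le (Fm P j) (Fm P j') ((K + 1) ^ D1) (hco K j hj hjK) (hco K j' hj' hj'K)).trans (le_of_eq ?_)
      rw [hdeg K j hG, hdeg K j' hG', two_mul]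
    refine a3.trans (a4.trans ?_)
    rw [← pow_mul]
    calc (2 * D)! * (K + 1) ^ (D1 * (2 * D)) ≤ (K + 1) ^ (2 * D)! * (K + 1) ^ (D1 * (2 * D)) := by
          apply Nat.mul_le_mul_right
          exact (Nat.lt_two_pow_self).le.trans (Nat.pow_le_pow_left (by omega) _)
      _ = (K + 1) ^ ((2 * D)! + D1 * (2 * D)) := (pow_add _ _ _).symm
      _ ≤ _ := Nat.pow_le_pow_right (by omega) (by omega)
  · intro K j _ _ hG S hS
    exact bad_card H.pn j (hne0 K j hG) S (fun j' hj' => (hS j' hj').2.2.2)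
  · intro K j _ _ hG S hS
    refine bad_card H.pn j (hne0 K j hG) S (fun j' hj' => ?_)
    obtain ⟨ν, a1, a2⟩ := (hS j' hj').2.2.2
    exact ⟨ν, a2, a1⟩
  · intro K j hj hjK hG n hn
    have a1 := big_val (Fm P j) ((K + 1) ^ D1) n (hco K j hj hjK) (by rw [hdeg K j hG]; exact hD1) (by
      rw [hdeg K j hG]
      refine le_trans ?_ hn
      have b1 : D ≤ (K + 1) ^ D := (Nat.lt_two_pow_self).le.trans (Nat.pow_le_pow_left (by omega) _)
      have b2 : D * (K + 1) ^ D1 ≤ (K + 1) ^ (D + D1) := by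
        rw [pow_add]
        exact Nat.mul_le_mul_right _ b1
      have b3 : 1 ≤ (K + 1) ^ (D + D1) := Nat.one_le_pow _ _ (by omega)
      have b4 : 4 * (K + 1) ^ (D + D1) ≤ (K + 1) ^ (D + D1 + 2) := by
        rw [pow_add _ (D + D1) 2, mul_comm]
        apply Nat.mul_le_mul_left
        calc 4 = 2 ^ 2 := by norm_num
          _ ≤ (K + 1) ^ 2 := Nat.pow_le_pow_left (by omega) 2
      have b5 : (K + 1) ^ (D + D1 + 2) ≤ (K + 1) ^ ((2 * D)! + D1 * (2 * D) + D1 + D + 2 + D2) :=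
        Nat.pow_le_pow_right (by omega) (by omega)
      omega)
    unfold FP
    omega
  · intro T j n hT hj hn
    rw [FP_Fm]
    exact (h2 T hT j n hj hn).trans (Nat.pow_le_pow_right (by omega) (by omega))

end Pool.Agent.L0h41.GN
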