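import Pool.Agent.L0h41.GN.F3
import Pool.Agent.L0h41.QN.S2

set_option autoImplicit false

/-!
# The family of a bivariate polynomial: the average hypothesis
-/

namespace Pool.Agent.L0h41.GN

open Finset Filter Polynomial
open scoped Polynomial.Bivariate
open Pool.Agent.W123.RP Pool.Agent.H373R2.T7 Pool.Agent.W123.RU Pool.Agent.TH464.PO Pool.Agent.TH464.PW
open Pool.Agent.Y879.AP
open Pool.Agent.L0h41.LW Pool.Agent.L0h41.QN
open Pool.Agent.R490.LGa (one_sub_pos one_le_inv')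
open Pool.Agent.R490.GPg (Pw mem_Pw prod_sq' prod_one')
open Pool.Agent.R490.LGb (Wp Wp_pos dvd_Wp not_dvd_Wp)

/-- the admissible integers -/
def AdmP (P : ℤ[X][Y]) (A : ℤ[X]) (n : ℕ) : Prop :=
  ∀ p : ℕ, p.Prime → ∃ x : ℕ, ¬ (p : ℤ) ∣ A.eval (x : ℤ) * P.evalEval (x : ℤ) (n : ℤ)

lemma FP_sw (P : ℤ[X][Y]) (j n p : ℕ) :
    p ∣ FP (Fm P) j n ↔ (p : ℤ) ∣ (mb (Bivariate.swap P) (n : ℤ)).eval (j : ℤ) := by
  rw [FP_Fm, mb_swap, mb_eval]
  exact Int.natCast_dvd.symm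

lemma FP_perj (P : ℤ[X][Y]) (j n p : ℕ) : p ∣ FP (Fm P) j n ↔ p ∣ FP (Fm P) (j % p) n := by
  rw [FP_sw, FP_sw]
  exact Pool.Agent.W123.RU.Poly.per1 _ p j

open Classical in
/-- the classes with a common zero -/
lemma ev_cardP {P : ℤ[X][Y]} {G : ℕ → ℕ → Prop} {bad : ℕ → ℕ → Prop} {D D0 d w0 : ℕ}
    (hd : DatP (Fm P) G bad D D0 d w0)
    (hne : ∀ p : ℕ, p.Prime → w0 < p → ∀ n : ℤ, (mb (Bivariate.swap P) n).map (Int.castRingHom (ZMod p)) ≠ 0)
    (j : ℕ) (hj : 1 ≤ j) (p : ℕ) (hp : p.Prime) (hwp : w0 < p) :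
    ((range p).filter (fun r : ℕ => EvP (Fm P) j r p)).card ≤ D * (Bivariate.swap P).natDegree := by
  have h1 : (range p).filter (fun r : ℕ => EvP (Fm P) j r p) ⊆
      ((range p).filter (fun m : ℕ => (p : ℤ) ∣ (Fm P j).eval (m : ℤ))).biUnion
        (fun m => (range p).filter (fun r : ℕ => (p : ℤ) ∣ (mb (Bivariate.swap P) (m : ℤ)).eval (r : ℤ))) := by
    intro r hr
    rw [mem_filter] at hr
    obtain ⟨hr1, n, h2, h3⟩ := hr
    have hper : ∀ i, p ∣ FP (Fm P) i n → p ∣ FP (Fm P) i (n % p) := by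
      intro i hi
      exact (FP_per (Fm P) i p n (n % p) (Nat.mod_modEq n p).symm).1 hi
    rw [mem_biUnion]
    refine ⟨n % p, ?_, ?_⟩
    · rw [mem_filter, mem_range]
      exact ⟨Nat.mod_lt _ hp.pos, (FP_dvd (Fm P) j (n % p) p).1 (hper j h2)⟩
    · rw [mem_filter]
      exact ⟨hr1, (FP_sw P r (n % p) p).1 (hper r h3)⟩
  refine (card_le_card h1).trans ?_
  refine (card_biUnion_le_card_mul _ _ (Bivariate.swap P).natDegree ?_).trans ?_
  · intro m _
    exact (Pool.Agent.L0h41.PE.roots_le _ p hp (hne p hp hwp m)).trans (mb_deg _ _)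
  · apply Nat.mul_le_mul_right
    exact (Pool.Agent.L0h41.PE.roots_le (Fm P j) p hp (hd.loc j hj p hp hwp)).trans (hd.deg j)

open Classical in
/-- a row of the excess -/
lemma rowP {P : ℤ[X][Y]} {G : ℕ → ℕ → Prop} {bad : ℕ → ℕ → Prop} {D D0 d w0 : ℕ}
    (hd : DatP (Fm P) G bad D D0 d w0)
    (hne : ∀ p : ℕ, p.Prime → w0 < p → ∀ n : ℤ, (mb (Bivariate.swap P) n).map (Int.castRingHom (ZMod p)) ≠ 0)
    (w y K j : ℕ) (hw : 1 ≤ w) (hw0 : w0 ≤ w) (hDw : 14 * (D * (D * (Bivariate.swap P).natDegree)) ≤ w)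
    (hj : j ∈ Icc 1 K) :
    ∑ j' ∈ Icc 1 K, exP (Fm P) G bad D w K y j j' ≤
      K * (28 * ((D * (D * (Bivariate.swap P).natDegree) : ℕ) : ℝ) / (w : ℝ)) +
        ((Vz (2 * (K + 1) ^ D0))⁻¹) ^ (14 * (D * (D * (Bivariate.swap P).natDegree))) := by
  obtain ⟨D', hD'⟩ : ∃ D', D' = D * (Bivariate.swap P).natDegree := ⟨_, rfl⟩
  obtain ⟨M, hM⟩ : ∃ M, M = 2 * (K + 1) ^ D0 := ⟨_, rfl⟩
  have hj1 := mem_Icc.1 hj
  rw [← hD', ← hM]
  rw [← hD'] at hDw
  have hVM : 0 ≤ ((Vz M)⁻¹) ^ (14 * (D * D')) := by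
    apply pow_nonneg
    rw [inv_nonneg]
    unfold Vz
    exact prod_nonneg fun p hp => (one_sub_pos (mem_pz.1 hp).2).1.le
  by_cases hG : G K j
  · obtain ⟨J, hJ⟩ : ∃ J, J = (Icc 1 K).filter (fun j' => ¬ (bad j j' ∨ ¬ G K j ∨ ¬ G K j')) := ⟨_, rfl⟩
    have e1 : ∑ j' ∈ Icc 1 K, exP (Fm P) G bad D w K y j j' =
        ∑ j' ∈ J, (tD w y D (EvP (Fm P) j j') - 1) := by
      rw [hJ, sum_filter]
      apply sum_congr rfl
      intro j' _
      unfold exP
      by_cases h : bad j j' ∨ ¬ G K j ∨ ¬ G K j'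
      · rw [if_pos h, if_neg (not_not.2 h)]
      · rw [if_neg h, if_pos h]
    rw [e1]
    have h1 := sum_tD w y M K D' D J (fun j' p => EvP (Fm P) j j' p) (by
      intro j' hj' p hp _ hE
      rw [hJ, mem_filter] at hj'
      push Not at hj'
      obtain ⟨n, hn1, hn2⟩ := hE
      have hj'1 := mem_Icc.1 hj'.1
      have h2 := hd.col K j j' hj1.1 hj1.2 hj'1.1 hj'1.2 hG hj'.2.2.2 hj'.2.1 n p hp hn1 hn2
      omega) (by
      intro T hT
      have h2 := cnt_genQ (fun p r => EvP (Fm P) j r p) (by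
        intro p n
        unfold EvP
        apply exists_congr
        intro m
        rw [FP_perj P n m p]) K D' T (by
        intro p hp
        have h3 := mem_Pw.1 (hT hp)
        refine ⟨h3.2.2, ?_⟩
        rw [hD']
        exact ev_cardP hd hne j hj1.1 p h3.2.2 (by omega))
      refine le_trans ?_ h2
      have h3 : (J.filter (fun j' => ∀ p ∈ T, EvP (Fm P) j j' p)).card ≤
          ((Icc 1 K).filter (fun j' => ∀ p ∈ T, EvP (Fm P) j j' p)).card := by
        apply card_le_card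
        apply filter_subset_filter
        rw [hJ]
        exact filter_subset _ _
      exact_mod_cast h3)
    refine h1.trans ?_
    have h2 := prod_sq' w M (D * D') hw hDw
    have h3 := prod_one' w M (D * D')
    have h4 : (K : ℝ) * (∏ p ∈ Pw w M, (1 + 14 * ((D * D' : ℕ) : ℝ) / (p : ℝ) ^ 2) - 1) ≤
        K * (28 * ((D * D' : ℕ) : ℝ) / (w : ℝ)) := mul_le_mul_of_nonneg_left h2 (Nat.cast_nonneg _)
    linarith
  · have e1 : ∑ j' ∈ Icc 1 K, exP (Fm P) G bad D w K y j j' = 0 := by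
      apply sum_eq_zero
      intro j' _
      unfold exP
      rw [if_pos (Or.inr (Or.inl hG))]
    rw [e1]
    positivity

lemma log_ev2 (D1 E E2 : ℕ) (a : ℝ) (ha : 0 < a) : ∃ K1 : ℕ, ∀ K : ℕ, K1 ≤ K →
    ((Vz (2 * (K + 1) ^ D1))⁻¹) ^ E * Real.log K ^ E2 ≤ a * K := by
  obtain ⟨cz, Cz, hcz, hCz, hV⟩ := Vz_bounds
  have ev := logpow_rpow (E + E2) (((2 * D1 + 1) / cz) ^ E / a) 1 (by positivity) one_pos
  obtain ⟨K1, hK1⟩ := eventually_atTop.1 ev
  refine ⟨max K1 3, fun K hK => ?_⟩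
  have h1 := hK1 K ((le_max_left _ _).trans hK)
  have hK3 : 3 ≤ K := (le_max_right _ _).trans hK
  have hKr : (3 : ℝ) ≤ K := by exact_mod_cast hK3
  have hlK : 0 < Real.log K := Real.log_pos (by linarith)
  rw [Real.rpow_one] at h1
  obtain ⟨M, hM⟩ : ∃ M, M = 2 * (K + 1) ^ D1 := ⟨_, rfl⟩
  rw [← hM]
  have hM2 : 2 ≤ M := by
    have : 1 ≤ (K + 1) ^ D1 := Nat.one_le_pow _ _ (by omega)
    omega
  have hVM := (hV M hM2).1
  have hM2r : (2 : ℝ) ≤ M := by exact_mod_cast hM2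
  have hlM : 0 < Real.log M := Real.log_pos (by linarith)
  have hVM0 : 0 < Vz M := lt_of_lt_of_le (by positivity) hVM
  have hlog : Real.log M ≤ (2 * D1 + 1) * Real.log K := by
    have e : Real.log M = Real.log 2 + D1 * Real.log (K + 1) := by
      rw [hM]
      push_cast
      rw [Real.log_mul (by norm_num) (by positivity), Real.log_pow]
    have a1 : Real.log (K + 1) ≤ 2 * Real.log K := by
      rw [show (2 : ℝ) * Real.log K = Real.log ((K : ℝ) ^ 2) by rw [Real.log_pow]; norm_num]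
      apply Real.log_le_log (by positivity)
      nlinarith
    have a2 : Real.log 2 ≤ Real.log K := Real.log_le_log (by norm_num) (by linarith)
    rw [e]
    have a3 : (D1 : ℝ) * Real.log (K + 1) ≤ D1 * (2 * Real.log K) := mul_le_mul_of_nonneg_left a1 (Nat.cast_nonneg _)
    linarith
  have h2 : (Vz M)⁻¹ ≤ (2 * D1 + 1) / cz * Real.log K := by
    rw [inv_le_comm₀ hVM0 (by positivity)]
    refine le_trans ?_ hVM
    rw [inv_eq_one_div, div_le_div_iff₀ (by positivity) hlM, one_mul]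
    have e : cz * ((2 * D1 + 1) / cz * Real.log K) = (2 * D1 + 1) * Real.log K := by
      field_simp
    rw [e]
    exact hlog
  have h3 : ((Vz M)⁻¹) ^ E ≤ ((2 * D1 + 1) / cz * Real.log K) ^ E := pow_le_pow_left₀ (by positivity) h2 E
  calc ((Vz M)⁻¹) ^ E * Real.log K ^ E2 ≤ ((2 * D1 + 1) / cz * Real.log K) ^ E * Real.log K ^ E2 :=
        mul_le_mul_of_nonneg_right h3 (by positivity)
    _ = a * (((2 * D1 + 1) / cz) ^ E / a * Real.log K ^ (E + E2)) := by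
        rw [mul_pow, pow_add]
        field_simp
    _ ≤ a * K := mul_le_mul_of_nonneg_left h1 ha.le

end Pool.Agent.L0h41.GN
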