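import Pool.Agent.L0h41.GN.F4

set_option autoImplicit false

/-!
# The family of a bivariate polynomial: the average hypothesis
-/

namespace Pool.Agent.L0h41.GN

open Finset Filter Polynomial
open scoped Polynomial.Bivariate
open Pool.Agent.W123.RP Pool.Agent.H373R2.T7 Pool.Agent.W123.RU Pool.Agent.TH464.PO Pool.Agent.TH464.PW
open Pool.Agent.Y879.AP
open Pool.Agent.L0h41.LW Pool.Agent.L0h41.QN
open Pool.Agent.R490.LGa (one_sub_pos one_le_inv')
open Pool.Agent.R490.LGb (Wp Wp_pos dvd_Wp not_dvd_Wp)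
open Pool.Agent.R490.GPh (nuB_lt)

/-- the sieve conditions for the parameter -/
def Qs (P : ℤ[X][Y]) (A : ℤ[X]) (w n : ℕ) (p j : ℕ) : Prop :=
  (p ≤ w ∧ p ∣ FP (Fm P) j n) ∨ (p : ℤ) ∣ A.eval (j : ℤ)

/-- the polynomial for an integer `n` -/
noncomputable def Bn (P : ℤ[X][Y]) (A : ℤ[X]) (n : ℕ) : ℤ[X] := A * mb (Bivariate.swap P) (n : ℤ)

/-- the degree -/
noncomputable def c0 (P : ℤ[X][Y]) (A : ℤ[X]) : ℕ := A.natDegree + (Bivariate.swap P).natDegree + 1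

lemma Bn_deg (P : ℤ[X][Y]) (A : ℤ[X]) (n : ℕ) : (Bn P A n).natDegree ≤ c0 P A := by
  unfold Bn c0
  have h1 := natDegree_mul_le (p := A) (q := mb (Bivariate.swap P) (n : ℤ))
  have h2 := mb_deg (Bivariate.swap P) (n : ℤ)
  omega

lemma Qs_sub (P : ℤ[X][Y]) (A : ℤ[X]) (w n p j : ℕ) (h : Qs P A w n p j) : (p : ℤ) ∣ (Bn P A n).eval (j : ℤ) := by
  unfold Bn
  rw [eval_mul]
  rcases h with ⟨-, h⟩ | h
  · exact ((FP_sw P j n p).1 h).mul_left _
  · exact h.mul_right _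

lemma Bn_eval (P : ℤ[X][Y]) (A : ℤ[X]) (n : ℕ) (x : ℤ) :
    (Bn P A n).eval x = A.eval x * P.evalEval x (n : ℤ) := by
  unfold Bn
  rw [eval_mul, mb_swap, mb_eval]

lemma Qs_per (P : ℤ[X][Y]) (A : ℤ[X]) (w n : ℕ) (hn : AdmP P A n) : PerB (Qs P A w n) (c0 P A) := by
  classical
  refine ⟨fun p j => ?_, fun p hp => ?_⟩
  · unfold Qs
    rw [FP_perj P j n p, Pool.Agent.W123.RU.Poly.per1 A p j]
  · obtain ⟨x, hx⟩ := hn p hp
    rw [← Bn_eval] at hx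
    have h1 := Pool.Agent.L0h41.PE.roots_le (Bn P A n) p hp (Pool.Agent.L0h41.PE.map_ne _ p hp (x : ℤ) hx)
    refine le_trans ?_ (h1.trans (Bn_deg P A n))
    unfold nuB
    apply card_le_card
    intro r hr
    rw [mem_filter] at hr ⊢
    exact ⟨hr.1, Qs_sub P A w n p r hr.2⟩

lemma Qs_adm (P : ℤ[X][Y]) (A : ℤ[X]) (w n : ℕ) (hn : AdmP P A n) (p : ℕ) (hp : p.Prime) :
    nuB (Qs P A w n) p < p := by
  obtain ⟨x, hx⟩ := hn p hp
  rw [← Bn_eval] at hx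
  apply nuB_lt _ p (x % p) (Nat.mod_lt _ hp.pos)
  intro h
  exact hx ((Pool.Agent.W123.RU.Poly.per1 (Bn P A n) p x).2 (Qs_sub P A w n p (x % p) h))

open Classical in
/-- the good arguments from below -/
lemma J_low {P : ℤ[X][Y]} {A : ℤ[X]} (j0 e w z K n : ℕ) (hz : ∀ p : ℕ, p ^ e ≤ K → p ≤ z) (hwz : w ≤ z) :
    ((Ioc 0 K).filter (fun j => Sf (Qs P A w n) z j)).card ≤ (JP (Fm P) (Gm A j0 e) w K n).card + j0 := by
  have h1 : (Ioc 0 K).filter (fun j => Sf (Qs P A w n) z j) ⊆ JP (Fm P) (Gm A j0 e) w K n ∪ Icc 1 j0 := by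
    intro j hj
    rw [mem_filter, mem_Ioc] at hj
    rw [mem_union]
    rcases Nat.lt_or_ge j0 j with h | h
    · left
      unfold JP
      rw [mem_filter, mem_Icc]
      refine ⟨by omega, ⟨h, ?_⟩, ?_⟩
      · intro p hp hpe hd
        exact hj.2 p (mem_pz.2 ⟨hz p hpe, hp⟩) (Or.inr hd)
      · intro p hp hpw hd
        exact hj.2 p (mem_pz.2 ⟨by omega, hp⟩) (Or.inl ⟨hpw, hd⟩)
    · right
      rw [mem_Icc]
      omega
  refine (card_le_card h1).trans ((card_union_le _ _).trans ?_)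
  rw [Nat.card_Icc]
  omega

set_option maxHeartbeats 4000000 in
/-- **The average hypothesis.** -/
theorem BV.avg (hc : ℕ) (hc1 : 1 ≤ hc) : ∃ e : ℕ, 1 ≤ e ∧ ∀ (P : ℤ[X][Y]) (A : ℤ[X])
    (_ : c0 P A ≤ hc) (j0 D D0 d w0 : ℕ) (bad : ℕ → ℕ → Prop) (_ : DatP (Fm P) (Gm A j0 e) bad D D0 d w0)
    (_ : ∀ p : ℕ, p.Prime → w0 < p → ∀ n : ℤ, (mb (Bivariate.swap P) n).map (Int.castRingHom (ZMod p)) ≠ 0)
    (η : ℝ) (_ : 0 < η), ∃ (E K0 : ℕ) (C : ℝ), 1 ≤ C ∧ ∀ K : ℕ, K0 ≤ K → ∃ (w : ℕ) (δ : ℝ),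
      w0 ≤ w ∧ 2 * D ≤ w ∧ (w : ℝ) ≤ C * Real.log K ^ E ∧ 0 < δ ∧ 1 ≤ δ * (C * Real.log K ^ E) ∧
      (∀ y : ℕ, ∑ j ∈ Icc 1 K, ∑ j' ∈ Icc 1 K, exP (Fm P) (Gm A j0 e) bad D w K y j j' ≤ η * (δ * K) ^ 2) ∧
      (∀ n : ℕ, AdmP P A n → δ * K ≤ (JP (Fm P) (Gm A j0 e) w K n).card) := by
  classical
  obtain ⟨C0, x0, hC0, Hc⟩ := Pool.Agent.R490.P3b.cnt_ap hc hc1
  obtain ⟨κ2, hκ2, hlow⟩ := Pool.Agent.R490.LGe.vq_low hc
  obtain ⟨cz, Cz, hcz, hCz, hV⟩ := Vz_bounds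
  have he1 : 1 ≤ 16 * (C0 * C0) := by
    have : 1 ≤ C0 * C0 := Nat.mul_pos (by omega) (by omega)
    omega
  refine ⟨16 * (C0 * C0), he1, ?_⟩
  obtain ⟨e, he⟩ : ∃ e, e = 16 * (C0 * C0) := ⟨_, rfl⟩
  rw [← he]
  rw [← he] at he1
  intro P A hcP j0 D D0 d w0 bad hd hne η hη
  have he0 : (0 : ℝ) < e := by exact_mod_cast he1
  obtain ⟨c3, hc3⟩ : ∃ c3 : ℝ, c3 = κ2 * cz ^ hc / 8 := ⟨_, rfl⟩
  have hc30 : 0 < c3 := by rw [hc3]; positivity
  obtain ⟨D', hD'⟩ : ∃ D', D' = D * (D * (Bivariate.swap P).natDegree) := ⟨_, rfl⟩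
  obtain ⟨Cw, hCw⟩ : ∃ Cw : ℝ, Cw = 56 * D' / (η * c3 ^ 2) := ⟨_, rfl⟩
  have hCw0 : 0 ≤ Cw := by rw [hCw]; positivity
  obtain ⟨V0, hV0⟩ : ∃ V0 : ℕ, V0 = w0 + 14 * D' + 2 * D + 2 := ⟨_, rfl⟩
  obtain ⟨C, hC⟩ : ∃ C : ℝ, C = Cw + V0 + 1 + 1 / c3 + 1 := ⟨_, rfl⟩
  have h1c3 : 0 < 1 / c3 := by positivity
  obtain ⟨K1, hK1⟩ := log_ev2 D0 (14 * D') (2 * hc) (η * c3 ^ 2 / 2) (by positivity)
  have tl : Tendsto (fun X : ℕ => Real.log (X : ℝ)) atTop atTop :=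
    Real.tendsto_log_atTop.comp tendsto_natCast_atTop_atTop
  have ev1 := logpow_rpow hc (2 / c3) (1 / 2) (by positivity) (by norm_num)
  have hCpos : 0 ≤ C := by rw [hC]; positivity
  have ev2 := logpow_rpow (2 * hc) (C + x0 + 2) (1 / (e : ℝ)) (by positivity) (by positivity)
  obtain ⟨K2, hK2⟩ := eventually_atTop.1 (ev1.and (ev2.and (tl.eventually_ge_atTop 1)))
  refine ⟨2 * hc, K1 + K2 + j0 ^ 2 + 2, C, ?_, ?_⟩
  · rw [hC]
    have : (0 : ℝ) ≤ V0 := Nat.cast_nonneg _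
    linarith
  intro K hK
  obtain ⟨f1, f2, f3⟩ := hK2 K (by omega)
  have f4 := hK1 K (by omega)
  have hK0 : (0 : ℝ) < K := by exact_mod_cast (by omega : 0 < K)
  have hK1r : (1 : ℝ) ≤ K := by exact_mod_cast (by omega : 1 ≤ K)
  have hlK0 : 0 < Real.log K := by linarith
  have hlp : (1 : ℝ) ≤ Real.log K ^ (2 * hc) := one_le_pow₀ f3
  obtain ⟨w, hw⟩ : ∃ w : ℕ, w = ⌈Cw * Real.log K ^ (2 * hc)⌉₊ + V0 := ⟨_, rfl⟩
  obtain ⟨δ, hδ⟩ : ∃ δ : ℝ, δ = c3 / Real.log K ^ hc := ⟨_, rfl⟩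
  have hδ0 : 0 < δ := by rw [hδ]; positivity
  have hwlow : Cw * Real.log K ^ (2 * hc) ≤ w := by
    have := Nat.le_ceil (Cw * Real.log K ^ (2 * hc))
    rw [hw]
    push_cast
    have h2 : (0 : ℝ) ≤ V0 := Nat.cast_nonneg _
    linarith
  have hV0r : (0 : ℝ) ≤ V0 := Nat.cast_nonneg _
  have hwup : (w : ℝ) ≤ C * Real.log K ^ (2 * hc) := by
    have h1 := (Nat.ceil_lt_add_one (by positivity : 0 ≤ Cw * Real.log K ^ (2 * hc))).le
    have h2 : (w : ℝ) ≤ Cw * Real.log K ^ (2 * hc) + 1 + V0 := by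
      rw [hw]
      push_cast
      linarith
    have h3 : (1 : ℝ) + V0 ≤ (V0 + 1 + 1 / c3 + 1) * Real.log K ^ (2 * hc) := by
      have h4 : (V0 : ℝ) + 1 + 1 / c3 + 1 ≤ (V0 + 1 + 1 / c3 + 1) * Real.log K ^ (2 * hc) :=
        le_mul_of_one_le_right (by positivity) hlp
      linarith
    calc (w : ℝ) ≤ Cw * Real.log K ^ (2 * hc) + (1 + V0) := by linarith
      _ ≤ Cw * Real.log K ^ (2 * hc) + (V0 + 1 + 1 / c3 + 1) * Real.log K ^ (2 * hc) := by linarith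
      _ = C * Real.log K ^ (2 * hc) := by rw [hC]; ring
  have hw1 : 2 ≤ w := by rw [hw, hV0]; omega
  have hwr : (0 : ℝ) < w := by exact_mod_cast (by omega : 0 < w)
  have hδsq : δ ^ 2 * Real.log K ^ (2 * hc) = c3 ^ 2 := by
    rw [hδ, div_pow, ← pow_mul, mul_comm hc 2]
    field_simp
  refine ⟨w, δ, by rw [hw, hV0]; omega, by rw [hw, hV0]; omega, hwup, hδ0, ?_, ?_, ?_⟩
  · have h1 : δ * Real.log K ^ (2 * hc) = c3 * Real.log K ^ hc := by
      rw [hδ, mul_comm 2 hc, pow_mul]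
      field_simp
    have h2 : 1 ≤ C * c3 := by
      have h3 : 1 / c3 ≤ C := by
        rw [hC]
        linarith
      rw [div_le_iff₀ hc30] at h3
      exact h3
    calc (1 : ℝ) ≤ C * c3 := h2
      _ = C * c3 * 1 := (mul_one _).symm
      _ ≤ C * c3 * Real.log K ^ hc := mul_le_mul_of_nonneg_left (one_le_pow₀ f3) (by linarith)
      _ = C * (δ * Real.log K ^ (2 * hc)) := by rw [h1]; ring
      _ = _ := by ring
  · intro y
    have hrow : ∀ j ∈ Icc 1 K, ∑ j' ∈ Icc 1 K, exP (Fm P) (Gm A j0 e) bad D w K y j j' ≤ η * δ ^ 2 * K := by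
      intro j hj
      have h1 := rowP hd hne w y K j (by omega) (by rw [hw, hV0]; omega) (by rw [← hD', hw, hV0]; omega) hj
      rw [← hD'] at h1
      refine h1.trans ?_
      have h2 : (K : ℝ) * (28 * (D' : ℝ) / (w : ℝ)) ≤ η * δ ^ 2 / 2 * K := by
        have h3 : 28 * (D' : ℝ) / (w : ℝ) ≤ η * δ ^ 2 / 2 := by
          rw [div_le_iff₀ hwr]
          have h4 : η * δ ^ 2 / 2 * (Cw * Real.log K ^ (2 * hc)) ≤ η * δ ^ 2 / 2 * w :=
            mul_le_mul_of_nonneg_left hwlow (by positivity)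
          refine le_trans (le_of_eq ?_) h4
          have e5 : η * δ ^ 2 / 2 * (Cw * Real.log K ^ (2 * hc)) = η / 2 * Cw * (δ ^ 2 * Real.log K ^ (2 * hc)) := by ring
          rw [e5, hδsq, hCw]
          field_simp
          ring
        rw [mul_comm]
        exact mul_le_mul_of_nonneg_right h3 hK0.le
      have h3 : ((Vz (2 * (K + 1) ^ D0))⁻¹) ^ (14 * D') ≤ η * δ ^ 2 / 2 * K := by
        have h4 : ((Vz (2 * (K + 1) ^ D0))⁻¹) ^ (14 * D') ≤ η * c3 ^ 2 / 2 * K / Real.log K ^ (2 * hc) := by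
          rw [le_div_iff₀ (by positivity)]
          exact f4
        refine h4.trans (le_of_eq ?_)
        rw [← hδsq]
        field_simp
      linarith
    refine (sum_le_sum hrow).trans (le_of_eq ?_)
    rw [sum_const, nsmul_eq_mul, Nat.card_Icc, Nat.add_sub_cancel]
    ring
  · intro n hn
    obtain ⟨z, hz⟩ : ∃ z : ℕ, z = ⌊(K : ℝ) ^ (1 / (e : ℝ))⌋₊ := ⟨_, rfl⟩
    have hzK : z ^ e ≤ K := by
      have h1 : (z : ℝ) ≤ (K : ℝ) ^ (1 / (e : ℝ)) := by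
        rw [hz]
        exact Nat.floor_le (by positivity)
      have h2 : (z : ℝ) ^ e ≤ ((K : ℝ) ^ (1 / (e : ℝ))) ^ e := pow_le_pow_left₀ (Nat.cast_nonneg _) h1 e
      rw [← Real.rpow_natCast ((K : ℝ) ^ (1 / (e : ℝ))) e, ← Real.rpow_mul hK0.le, one_div_mul_cancel he0.ne',
        Real.rpow_one] at h2
      exact_mod_cast h2
    have hzp : ∀ p : ℕ, p ^ e ≤ K → p ≤ z := by
      intro p hp
      rw [hz]
      apply Nat.le_floor
      have h1 : ((p : ℝ) ^ e) ^ (1 / (e : ℝ)) ≤ (K : ℝ) ^ (1 / (e : ℝ)) := by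
        apply Real.rpow_le_rpow (by positivity) _ (by positivity)
        exact_mod_cast hp
      rw [← Real.rpow_natCast (p : ℝ) e, ← Real.rpow_mul (Nat.cast_nonneg _), mul_one_div_cancel he0.ne',
        Real.rpow_one] at h1
      exact h1
    have hzbig : (C + x0 + 2) * Real.log K ^ (2 * hc) ≤ (K : ℝ) ^ (1 / (e : ℝ)) := f2
    have hC1 : 0 ≤ C := by rw [hC]; positivity
    have hwz : w ≤ z := by
      rw [hz]
      apply Nat.le_floor
      refine hwup.trans (le_trans ?_ hzbig)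
      apply mul_le_mul_of_nonneg_right _ (by positivity)
      have : (0 : ℝ) ≤ x0 := Nat.cast_nonneg _
      linarith
    have hx0z : x0 ≤ z := by
      rw [hz]
      apply Nat.le_floor
      refine le_trans ?_ hzbig
      calc (x0 : ℝ) ≤ C + x0 + 2 := by linarith
        _ ≤ _ := le_mul_of_one_le_right (by positivity) hlp
    have hz2 : 2 ≤ z := by omega
    have hzle : z ≤ K := by
      calc z = z ^ 1 := (pow_one z).symm
        _ ≤ z ^ e := Nat.pow_le_pow_right (by omega) he1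
        _ ≤ K := hzK
    have hper : PerB (Qs P A w n) hc := by
      have h1 := Qs_per P A w n hn
      exact ⟨h1.per, fun p hp => (h1.few p hp).trans hcP⟩
    have hVlow : 8 * δ ≤ Vq (Qs P A w n) z := by
      refine le_trans ?_ (hlow _ hper (Qs_adm P A w n hn) z)
      have a1 : cz / Real.log K ≤ Vz z := by
        refine le_trans ?_ (hV z hz2).1
        have hly : 0 < Real.log z := Real.log_pos (by exact_mod_cast (by omega : 1 < z))
        apply div_le_div_of_nonneg_left hcz.le hly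
        apply Real.log_le_log (by exact_mod_cast (by omega : 0 < z))
        exact_mod_cast hzle
      have a2 := pow_le_pow_left₀ (by positivity) a1 hc
      have a3 := mul_le_mul_of_nonneg_left a2 hκ2.le
      refine le_trans (le_of_eq ?_) a3
      rw [hδ, hc3, div_pow]
      ring
    have h1 := Hc C0 le_rfl K z hx0z (by rw [← he]; exact hzK) (Qs P A w n) hper 0 K 1 0 le_rfl (by
      intro p hp hd
      have := (mem_pz.1 hp).2.one_lt
      have := Nat.le_of_dvd one_pos hd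
      omega)
    rw [Nat.cast_one, div_one, zero_add] at h1
    have e1 : (Ioc 0 K).filter (fun n_1 : ℕ => n_1 ≡ 0 [MOD 1] ∧ Sf (Qs P A w n) z n_1) =
        (Ioc 0 K).filter (fun j => Sf (Qs P A w n) z j) := by
      apply filter_congr
      intro m _
      constructor
      · exact fun h => h.2
      · exact fun h => ⟨Nat.modEq_one, h⟩
    rw [e1] at h1
    have h2 : (((Ioc 0 K).filter (fun j => Sf (Qs P A w n) z j)).card : ℝ) ≤
        (JP (Fm P) (Gm A j0 e) w K n).card + j0 := by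
      exact_mod_cast J_low j0 e w z K n hzp hwz
    have hb : (1 / 2 : ℝ) ^ C0 ≤ 1 / 2 := by
      calc (1 / 2 : ℝ) ^ C0 ≤ (1 / 2) ^ 1 := pow_le_pow_of_le_one (by norm_num) (by norm_num) hC0
        _ = 1 / 2 := by norm_num
    have hKV : (0 : ℝ) ≤ K * Vq (Qs P A w n) z := by
      have : 0 ≤ Vq (Qs P A w n) z := le_trans (by positivity) hVlow
      positivity
    have h3 : (1 / 2 : ℝ) ^ C0 * (K * Vq (Qs P A w n) z) ≤ 1 / 2 * (K * Vq (Qs P A w n) z) :=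
      mul_le_mul_of_nonneg_right hb hKV
    have h4 : 8 * δ * K ≤ K * Vq (Qs P A w n) z := by
      rw [mul_comm]
      exact mul_le_mul_of_nonneg_left hVlow hK0.le
    have h5 := (abs_le.1 h1).1
    -- the error terms
    have hsq : √(K : ℝ) = (K : ℝ) ^ (1 / 2 : ℝ) := Real.sqrt_eq_rpow _
    have hss : √(K : ℝ) * √(K : ℝ) = K := Real.mul_self_sqrt hK0.le
    have hs0 : 0 < √(K : ℝ) := Real.sqrt_pos.2 hK0
    have h6 : 2 * √(K : ℝ) ≤ δ * K := by
      have a1 : 2 / c3 * Real.log K ^ hc ≤ √(K : ℝ) := by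
        rw [hsq]
        exact f1
      have a2 : 2 ≤ δ * √(K : ℝ) := by
        rw [hδ, div_mul_eq_mul_div, le_div_iff₀ (by positivity)]
        have a3 := mul_le_mul_of_nonneg_left a1 hc30.le
        refine le_trans (le_of_eq ?_) a3
        field_simp
      calc 2 * √(K : ℝ) ≤ δ * √(K : ℝ) * √(K : ℝ) := mul_le_mul_of_nonneg_right a2 hs0.le
        _ = δ * K := by rw [mul_assoc, hss]
    have h7 : (j0 : ℝ) ≤ √(K : ℝ) := by
      apply Real.le_sqrt_of_sq_le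
      exact_mod_cast (by omega : j0 ^ 2 ≤ K)
    linarith

end Pool.Agent.L0h41.GN
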