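import Pool.Agent.L0h41.GN.F2

set_option autoImplicit false

/-!
# Bivariate polynomials: degrees and sizes
-/

namespace Pool.Agent.L0h41.GN

open Finset Polynomial
open scoped Polynomial.Bivariate

/-- degree at most `n` in `x` -/
def XD (P : ℤ[X][Y]) (n : ℕ) : Prop := ∀ i, (P.coeff i).natDegree ≤ n

lemma XD_mono {P : ℤ[X][Y]} {a b : ℕ} (h : XD P a) (hab : a ≤ b) : XD P b := fun i => (h i).trans hab

lemma XD_mul {P Q : ℤ[X][Y]} {a b : ℕ} (hP : XD P a) (hQ : XD Q b) : XD (P * Q) (a + b) := by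
  intro i
  rw [coeff_mul]
  apply natDegree_sum_le_of_forall_le
  intro x _
  exact natDegree_mul_le.trans (Nat.add_le_add (hP x.1) (hQ x.2))

lemma XD_C (c : ℤ[X]) : XD (C c) c.natDegree := by
  intro i
  rw [coeff_C]
  split_ifs
  · exact le_rfl
  · rw [natDegree_zero]
    exact Nat.zero_le _

lemma XD_pow {P : ℤ[X][Y]} {a : ℕ} (hP : XD P a) (k : ℕ) : XD (P ^ k) (a * k) := by
  induction k with
  | zero =>
    rw [pow_zero, mul_zero]
    have := XD_C (1 : ℤ[X])
    rw [natDegree_one, C_1] at this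
    exact this
  | succ k ih =>
    rw [pow_succ, Nat.mul_succ]
    exact XD_mul ih hP

lemma XD_lin (s : ℤ[X]) : XD (X + C s) s.natDegree := by
  intro i
  rw [coeff_add, coeff_X, coeff_C]
  refine (natDegree_add_le _ _).trans (max_le ?_ ?_)
  · split_ifs
    · rw [natDegree_one]
      exact Nat.zero_le _
    · rw [natDegree_zero]
      exact Nat.zero_le _
  · split_ifs
    · exact le_rfl
    · rw [natDegree_zero]
      exact Nat.zero_le _

lemma XD_comp {H : ℤ[X][Y]} {g : ℕ} (hH : XD H g) : XD (H.comp (X + C (-X))) (g + H.natDegree) := by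
  intro l
  have e : H.comp (X + C (-X)) = ∑ i ∈ range (H.natDegree + 1), C (H.coeff i) * (X + C (-X)) ^ i := by
    unfold comp
    rw [eval₂_eq_sum_range]
  rw [e, finsetSum_coeff]
  apply natDegree_sum_le_of_forall_le
  intro i hi
  have h1 : XD (X + C (-X) : ℤ[X][Y]) 1 := by
    have := XD_lin (-X)
    rw [natDegree_neg, natDegree_X] at this
    exact this
  have h2 := XD_mul (XD_C (H.coeff i)) (XD_pow h1 i)
  refine (h2 l).trans ?_
  have := mem_range.1 hi
  have := hH i
  omega

lemma swap_coeff (P : ℤ[X][Y]) (k i : ℕ) : ((Bivariate.swap P).coeff k).coeff i = (P.coeff i).coeff k := by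
  induction P using Polynomial.induction_on' with
  | add p q hp hq => rw [map_add, coeff_add, coeff_add, coeff_add, coeff_add, hp, hq]
  | monomial a c =>
    induction c using Polynomial.induction_on' with
    | add p q hp hq =>
      rw [map_add, map_add, coeff_add, coeff_add, coeff_add, coeff_add, hp, hq]
    | monomial b r =>
      rw [Bivariate.swap_monomial_monomial, coeff_monomial, coeff_monomial]
      by_cases h1 : b = k
      · by_cases h2 : a = i
        · rw [if_pos h1, if_pos h2, coeff_monomial, coeff_monomial, if_pos h1, if_pos h2]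
        · rw [if_pos h1, if_neg h2, coeff_monomial, if_neg h2, coeff_zero]
      · by_cases h2 : a = i
        · rw [if_neg h1, if_pos h2, coeff_monomial, if_neg h1, coeff_zero]
        · rw [if_neg h1, if_neg h2, coeff_zero, coeff_zero]

lemma swap_deg {P : ℤ[X][Y]} {n : ℕ} (h : XD P n) : (Bivariate.swap P).natDegree ≤ n := by
  rw [natDegree_le_iff_coeff_eq_zero]
  intro k hk
  ext1 i
  rw [swap_coeff, coeff_zero]
  apply coeff_eq_zero_of_natDegree_lt
  exact lt_of_le_of_lt (h i) hk

/-! ### Sizes -/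

lemma size_g (c : ℤ[X]) (g : ℕ) (hg : c.natDegree ≤ g) : ∃ S : ℕ, ∀ T j : ℕ, 1 ≤ T → j ≤ T →
    (c.eval (j : ℤ)).natAbs ≤ S * T ^ g := by
  refine ⟨∑ i ∈ range (c.natDegree + 1), (c.coeff i).natAbs, fun T j hT hj => ?_⟩
  rw [eval_eq_sum_range, sum_mul]
  refine (Int.natAbs_sum_le _ _).trans ?_
  apply sum_le_sum
  intro i hi
  rw [Int.natAbs_mul, Int.natAbs_pow, Int.natAbs_natCast]
  apply Nat.mul_le_mul_left
  refine (Nat.pow_le_pow_left hj i).trans (Nat.pow_le_pow_right (by omega) ?_)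
  have := mem_range.1 hi
  omega

lemma size_gD (P : ℤ[X][Y]) (g : ℕ) (hg : XD P g) : ∃ S : ℕ, ∀ T j n : ℕ, 1 ≤ T → j ≤ T → 1 ≤ n →
    (P.evalEval (j : ℤ) (n : ℤ)).natAbs ≤ S * T ^ g * n ^ P.natDegree := by
  choose S hS using fun i => size_g (P.coeff i) g (hg i)
  refine ⟨∑ i ∈ range (P.natDegree + 1), S i, fun T j n hT hj hn => ?_⟩
  rw [← mb_eval, eval_eq_sum_range' (n := P.natDegree + 1) (Nat.lt_succ_of_le (mb_deg P (j : ℤ))), sum_mul, sum_mul]
  refine (Int.natAbs_sum_le _ _).trans ?_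
  apply sum_le_sum
  intro i hi
  rw [Int.natAbs_mul, Int.natAbs_pow, Int.natAbs_natCast, mb_coeff]
  apply Nat.mul_le_mul (hS i T j hT hj)
  apply Nat.pow_le_pow_right hn
  have := mem_range.1 hi
  omega

/-! ### The number of the prime factors -/

lemma list_pow (v : ℝ) (hv : 0 ≤ v) (l : List ℕ) (h : ∀ p ∈ l, v ≤ (p : ℝ)) : v ^ l.length ≤ ((l.prod : ℕ) : ℝ) := by
  induction l with
  | nil => simp
  | cons a l ih =>
    rw [List.length_cons, List.prod_cons, pow_succ, Nat.cast_mul, mul_comm]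
    apply mul_le_mul (h a (List.mem_cons_self ..)) (ih fun p hp => h p (List.mem_cons_of_mem _ hp)) (by positivity)
      (Nat.cast_nonneg _)

/-- the number of the prime factors of an integer without small prime factors -/
lemma len_le (N : ℕ) (hN : N ≠ 0) (B s a : ℝ) (hB : 1 < B) (hs : 0 < s) (hNB : (N : ℝ) ≤ B ^ a)
    (h : ∀ p : ℕ, p.Prime → p ∣ N → B ^ s ≤ (p : ℝ)) : (N.primeFactorsList.length : ℝ) ≤ a / s := by
  have h1 := list_pow (B ^ s) (by positivity) N.primeFactorsList (fun p hp =>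
    h p (Nat.prime_of_mem_primeFactorsList hp) (Nat.dvd_of_mem_primeFactorsList hp))
  rw [Nat.prod_primeFactorsList hN] at h1
  have h2 := h1.trans hNB
  rw [← Real.rpow_natCast (B ^ s), ← Real.rpow_mul (by linarith)] at h2
  have h3 := (Real.rpow_le_rpow_left_iff hB).1 h2
  rw [le_div_iff₀ hs]
  linarith

end Pool.Agent.L0h41.GN
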