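import Pool.Agent.L0h41.GN.F5
import Pool.Agent.L0h41.GN.F6

set_option autoImplicit false

/-!
# The family of a bivariate polynomial: the theorem
-/

namespace Pool.Agent.L0h41.GN

open Finset Filter Polynomial
open scoped Polynomial.Bivariate
open Pool.Agent.L0h41.QN

lemma DatP.mono {F : ℕ → ℤ[X]} {G : ℕ → ℕ → Prop} {bad : ℕ → ℕ → Prop} {D D0 d w0 d' w0' : ℕ}
    (h : DatP F G bad D D0 d w0) (hd : d ≤ d') (hw : w0 ≤ w0') : DatP F G bad D D0 d' w0' :=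
  ⟨h.deg, fun j hj p hp hwp => h.loc j hj p hp (by omega), h.col,
    fun K j hj hjK hG S hS => (h.b1 K j hj hjK hG S hS).trans hd,
    fun K j hj hjK hG S hS => (h.b2 K j hj hjK hG S hS).trans hd, h.nz, h.sz⟩

open Classical in
/-- **Values without small prime factors at small arguments for almost all members.** -/
theorem mainBV (D g : ℕ) (hD : 1 ≤ D) (θ : ℝ) (hθ : 0 < θ) (hθ1 : θ ≤ 1) : ∃ (e : ℕ) (δ0 : ℝ), 1 ≤ e ∧ 0 < δ0 ∧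
    ∀ (P : ℤ[X][Y]) (A : ℤ[X]) (_ : BV P A) (_ : P.natDegree = D) (_ : XD P (g + D)) (_ : A.natDegree ≤ g),
    ∃ j0 : ℕ, ∀ j1 : ℕ, j0 ≤ j1 → ∀ (ε κ : ℝ) (B : ℕ), 0 < κ → 0 < ε → ∀ᶠ X : ℕ in atTop,
      ∀ Z L K : ℕ, (X : ℝ) ^ θ ≤ L → Z + L ≤ X →
      Real.log X ^ ((D : ℝ) + κ) ≤ K → (K : ℝ) ≤ Real.log X ^ B →
      (((Ioc Z (Z + L)).filter (fun n => AdmP P A n ∧
        (cntP (Fm P) (Gm A j1 e) K n ((X : ℝ) ^ δ0) : ℝ) * Real.log X ^ ((D : ℝ) + κ) < K)).card : ℝ) ≤ ε * L := by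
  obtain ⟨e, he, HA⟩ := BV.avg (g + (g + D) + 1) (by omega)
  obtain ⟨δ0, hδ0, HM⟩ := mainP D (D * (g + D)) hD θ hθ hθ1
  refine ⟨e, δ0, he, hδ0, ?_⟩
  intro P A H hPD hX hA
  obtain ⟨j0, w0, hlead, hdat⟩ := H.dat
  obtain ⟨w1, hw1⟩ := loc_of H.pn
  refine ⟨j0, ?_⟩
  intro j1 hj1 ε κ B hκ hε
  obtain ⟨D0, hD0⟩ := hdat j1 hj1
  have hsd := swap_deg hX
  have hd := (hD0 e).mono (d' := D * (g + D)) (w0' := w0 + w1) (by
    rw [hPD]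
    exact Nat.mul_le_mul_left _ hsd) (by omega)
  rw [hPD] at hd
  have hc : c0 P A ≤ g + (g + D) + 1 := by
    unfold c0
    omega
  exact HM (Fm P) (Gm A j1 e) (badm P) D0 (w0 + w1) hd (AdmP P A)
    (fun η hη => HA P A hc j1 D D0 (D * (g + D)) (w0 + w1) (badm P) hd
      (fun p hp hwp n => hw1 p hp (by omega) n) η hη) ε κ B hκ hε

end Pool.Agent.L0h41.GN
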