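import Pool.Agent.L0h41.GN.F7

set_option autoImplicit false

/-!
# Families of polynomials along `x + y = n`
-/

namespace Pool.Agent.L0h41.GN

open Finset Filter Polynomial
open scoped Polynomial.Bivariate
open Pool.Agent.L0h41.QN

lemma ev_ge2 (q : ℤ[X]) (hq : 1 ≤ q.natDegree) : ∃ j0 : ℕ, ∀ j : ℕ, j0 < j → 2 ≤ (q.eval (j : ℤ)).natAbs := by
  have hne : ∀ c : ℤ, q - C c ≠ 0 := by
    intro c h
    have h1 := sub_eq_zero.1 h
    rw [h1, natDegree_C] at hq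
    omega
  obtain ⟨j1, h1⟩ := ev_ne _ (hne 0)
  obtain ⟨j2, h2⟩ := ev_ne _ (hne 1)
  obtain ⟨j3, h3⟩ := ev_ne _ (hne (-1))
  refine ⟨j1 + j2 + j3, fun j hj => ?_⟩
  have a1 := h1 j (by omega)
  have a2 := h2 j (by omega)
  have a3 := h3 j (by omega)
  rw [eval_sub, eval_C] at a1 a2 a3
  omega

/-- large values -/
lemma big2 (f : ℤ[X][Y]) (hf : ∀ c : ℤ, f ≠ C (C c)) : ∃ J E : ℕ, ∀ T j n : ℕ, J < j → j ≤ T → (T + 1) ^ E ≤ n →
    2 ≤ (f.evalEval (j : ℤ) ((n : ℤ) - j)).natAbs := by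
  rcases Nat.eq_zero_or_pos f.natDegree with h0 | h0
  · have hf0 := eq_C_of_natDegree_eq_zero h0
    have hb : 1 ≤ (f.coeff 0).natDegree := by
      by_contra hcon
      have h1 := eq_C_of_natDegree_eq_zero (p := f.coeff 0) (by omega)
      apply hf ((f.coeff 0).coeff 0)
      rw [← h1]
      exact hf0
    obtain ⟨j0, hj0⟩ := ev_ge2 _ hb
    refine ⟨j0, 0, fun T j n hj _ _ => ?_⟩
    rw [hf0, evalEval_C]
    exact hj0 j hj
  · obtain ⟨q, hq⟩ : ∃ q, q = f.comp (X + C (-X)) := ⟨_, rfl⟩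
    have hf0 : f ≠ 0 := by
      rintro rfl
      simp at h0
    have hlin : (X + C (-X) : ℤ[X][Y]).natDegree = 1 := natDegree_X_add_C _
    have hqd : q.natDegree = f.natDegree := by
      rw [hq, natDegree_comp, hlin, mul_one]
    have hql : q.leadingCoeff ≠ 0 := by
      apply leadingCoeff_ne_zero.2
      intro h
      rw [h, natDegree_zero] at hqd
      omega
    obtain ⟨j0, hj0⟩ := ev_ne _ hql
    obtain ⟨D1, h1⟩ := size_coeff q
    refine ⟨j0, D1 + q.natDegree + 2, fun T j n hj hjT hn => ?_⟩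
    have hd := deg_Fm (hj0 j hj)
    have h2 := big_val (Fm q j) ((T + 1) ^ D1) n (by
      intro i
      unfold Fm
      rw [mb_coeff]
      exact h1 T (by omega) j hjT i) (by rw [hd, hqd]; exact h0) (by
      rw [hd]
      refine le_trans ?_ hn
      have b1 : q.natDegree ≤ (T + 1) ^ q.natDegree :=
        (Nat.lt_two_pow_self).le.trans (Nat.pow_le_pow_left (by omega) _)
      have b2 : q.natDegree * (T + 1) ^ D1 ≤ (T + 1) ^ (D1 + q.natDegree) := by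
        rw [pow_add, mul_comm]
        exact Nat.mul_le_mul_left _ b1
      have b3 : 1 ≤ (T + 1) ^ (D1 + q.natDegree) := Nat.one_le_pow _ _ (by omega)
      have b4 : 4 * (T + 1) ^ (D1 + q.natDegree) ≤ (T + 1) ^ (D1 + q.natDegree + 2) := by
        rw [pow_add _ (D1 + q.natDegree) 2, mul_comm]
        apply Nat.mul_le_mul_left
        calc 4 = 2 ^ 2 := by norm_num
          _ ≤ (T + 1) ^ 2 := Nat.pow_le_pow_left (by omega) 2
      omega)
    unfold Fm at h2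
    rw [mb_eval, hq, comp_val, eval_neg, eval_X] at h2
    exact h2

/-- the decomposition of a family -/
structure Dec {m : ℕ} (f : Fin m → ℤ[X][Y]) (a : Fin m → ℤ[X]) (h : Fin m → ℤ[X][Y]) : Prop where
  eq : ∀ k, f k = C (a k) * h k
  pr : ∀ k, Pr (h k)

lemma Dec.a0 {m : ℕ} {f : Fin m → ℤ[X][Y]} {a : Fin m → ℤ[X]} {h : Fin m → ℤ[X][Y]} (H : Dec f a h)
    (hf : ∀ k, f k ≠ 0) (k : Fin m) : a k ≠ 0 := by
  intro h0
  apply hf k
  rw [H.eq k, h0, C_0, zero_mul]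

lemma Dec.prod {m : ℕ} {f : Fin m → ℤ[X][Y]} {a : Fin m → ℤ[X]} {h : Fin m → ℤ[X][Y]} (H : Dec f a h) :
    ∏ k, f k = C (∏ k, a k) * ∏ k, h k := by
  rw [map_prod, ← prod_mul_distrib]
  exact prod_congr rfl fun k _ => H.eq k

lemma Dec.val {m : ℕ} {f : Fin m → ℤ[X][Y]} {a : Fin m → ℤ[X]} {h : Fin m → ℤ[X][Y]} (H : Dec f a h) (x n : ℤ) :
    ∏ k, (f k).evalEval x (n - x) = (∏ k, a k).eval x * ((∏ k, h k).comp (X + C (-X))).evalEval x n := by
  rw [← evalEval_prod, H.prod, evalEval_mul, evalEval_C, comp_val, eval_neg, eval_X]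
  rfl

lemma exists_dec {m : ℕ} (f : Fin m → ℤ[X][Y]) (hf : ∀ k, f k ≠ 0) : ∃ a h, Dec f a h := by
  choose a h h1 h2 using fun k => decomp _ (f k) (hf k) le_rfl
  exact ⟨a, h, h1, h2⟩

lemma ne_zero_of {f : ℤ[X][Y]} (hf : ¬ FactorSum f) : f ≠ 0 := by
  rintro rfl
  apply hf
  refine ⟨X, 0, ?_, ?_⟩
  · rw [natDegree_X]
    omega
  · intro x y
    rw [evalEval_zero, mul_zero]

/-- the degrees -/
lemma Dec.deg {m : ℕ} {f : Fin m → ℤ[X][Y]} {a : Fin m → ℤ[X]} {h : Fin m → ℤ[X][Y]} (H : Dec f a h)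
    (hf : ∀ k, f k ≠ 0) : (∏ k, h k).natDegree = ∑ k, (f k).natDegree := by
  rw [natDegree_prod _ _ fun k _ => Pr_ne (H.pr k)]
  apply sum_congr rfl
  intro k _
  rw [H.eq k, natDegree_C_mul (H.a0 hf k)]

/-- the polynomials of a family -/
lemma Dec.bv {m : ℕ} {f : Fin m → ℤ[X][Y]} {a : Fin m → ℤ[X]} {h : Fin m → ℤ[X][Y]} (H : Dec f a h)
    (hs : ∀ k, ¬ FactorSum (f k)) (D g : ℕ) (hD : 1 ≤ D) (hDs : ∑ k, (f k).natDegree = D)
    (hg : ∀ i, ((∏ k, f k).coeff i).natDegree ≤ g) :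
    BV ((∏ k, h k).comp (X + C (-X))) (∏ k, a k) ∧ ((∏ k, h k).comp (X + C (-X))).natDegree = D ∧
      XD ((∏ k, h k).comp (X + C (-X))) (g + D) ∧ (∏ k, a k).natDegree ≤ g := by
  have hf : ∀ k, f k ≠ 0 := fun k => ne_zero_of (hs k)
  have hPH : Pr (∏ k, h k) := Pr_prod _ _ fun k _ => H.pr k
  have hHd : (∏ k, h k).natDegree = D := by rw [H.deg hf, hDs]
  have hA0 : (∏ k, a k) ≠ 0 := prod_ne_zero_iff.2 fun k _ => H.a0 hf k
  have hlin : (X + C (-X) : ℤ[X][Y]).natDegree = 1 := natDegree_X_add_C _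
  have hco : ∀ i, (∏ k, h k).coeff i ≠ 0 → (∏ k, a k).natDegree + ((∏ k, h k).coeff i).natDegree ≤ g := by
    intro i hi
    have h1 := hg i
    rw [H.prod, coeff_C_mul, natDegree_mul hA0 hi] at h1
    exact h1
  have hXH : XD (∏ k, h k) g := by
    intro i
    by_cases hi : (∏ k, h k).coeff i = 0
    · rw [hi, natDegree_zero]
      exact Nat.zero_le _
    · have := hco i hi
      omega
  refine ⟨⟨Pr_comp hPH _, ?_, ?_, hA0⟩, ?_, ?_, ?_⟩
  · rw [Polynomial.prod_comp, map_prod]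
    apply Pr_prod
    intro k _
    exact Pr_swap (f k) (hs k) (a k) (h k) (H.eq k) (Pr_ne (H.pr k))
  · rw [natDegree_comp, hlin, mul_one, hHd]
    exact hD
  · rw [natDegree_comp, hlin, mul_one, hHd]
  · have := XD_comp hXH
    rw [hHd] at this
    exact this
  · have := hco (∏ k, h k).natDegree (leadingCoeff_ne_zero.2 (Pr_ne hPH))
    omega

/-- the admissible integers -/
lemma Dec.adm {m : ℕ} {f : Fin m → ℤ[X][Y]} {a : Fin m → ℤ[X]} {h : Fin m → ℤ[X][Y]} (H : Dec f a h) (n : ℕ)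
    (hn : ∀ p : ℕ, p.Prime → ∃ x : ℤ, ¬ (p : ℤ) ∣ ∏ k, (f k).evalEval x ((n : ℤ) - x)) :
    AdmP ((∏ k, h k).comp (X + C (-X))) (∏ k, a k) n := by
  intro p hp
  obtain ⟨x, hx⟩ := hn p hp
  have hp0 : (0 : ℤ) < p := by exact_mod_cast hp.pos
  refine ⟨(x % p).toNat, ?_⟩
  have hr : (((x % p).toNat : ℕ) : ℤ) = x % p := Int.toNat_of_nonneg (Int.emod_nonneg _ hp0.ne')
  rw [hr, ← Bn_eval]
  rw [H.val, ← Bn_eval] at hx
  intro hd
  apply hx
  have h3 := sub_dvd_eval_sub (x % (p : ℤ)) x (Bn ((∏ k, h k).comp (X + C (-X))) (∏ k, a k) n)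
  have h4 : (p : ℤ) ∣ x % (p : ℤ) - x := (Int.dvd_self_sub_emod).neg_right.trans (by rw [neg_sub])
  exact (dvd_iff_dvd_of_dvd_sub (h4.trans h3)).1 hd

end Pool.Agent.L0h41.GN
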